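import Pool.Agent.Lib.HN.Blue
import Pool.Agent.Lib.HN86.Alg

/-! Project hn81: the algebraic lemma. -/

namespace Pool.Agent.Lib.HN

theorem st_NAL : St_NAL := fun _ _ _ _ hh hξ hs hH hA h0 h1 => (N86.alg hh hξ hs hH hA h0 h1).1

end Pool.Agent.Lib.HN
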