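import Pool.Agent.Lib.HN.Blue
import Pool.Agent.Lib.HQ.B_QSQ
import Pool.Agent.Lib.TB.B_TLQ
import Pool.Agent.Lib.TB.B_TCA
import Pool.Agent.Lib.GH.B_GLIM
import Pool.Agent.Lib.GH.B_GME
import Pool.Agent.Lib.HS76.Mom

/-! Project hn81: the closed conditions for the normalized limit. -/

open scoped Classical Topology ContDiff ComplexOrder Matrix
open Set MeasureTheory Complex Metric Filter

noncomputable section

namespace Pool.Agent.Lib.HN

open Pool.Agent.Lib.SV (E)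
open Pool.Agent.Lib.HS32 Pool.Agent.Lib.GH Pool.Agent.Lib.GH.G48 Pool.Agent.Lib.GH.G56
open Pool.Agent.Lib.TB Pool.Agent.Lib.HS76

namespace C33

variable {n : ℕ}

section lin

variable (h : E n → Mat n) (z : E n)

theorem kx_lin1 (c : ℝ) (ξ ξ' η : Mat n) :
    kx h (c • ξ - ξ') η z = c * kx h ξ η z - kx h ξ' η z := by
  rw [kx, kx, kx, ← re_ofReal_mul, ← sub_re]
  simp only [rsm, Matrix.sub_apply, Matrix.smul_apply, smul_eq_mul, sub_mul,
    Finset.sum_sub_distrib, Finset.mul_sum, mul_assoc]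

theorem kx_lin2 (c : ℝ) (ξ η η' : Mat n) :
    kx h ξ (c • η - η') z = c * kx h ξ η z - kx h ξ η' z := by
  rw [kx, kx, kx, ← re_ofReal_mul, ← sub_re]
  simp only [rsm, Matrix.sub_mul, Matrix.smul_mul, Matrix.trace_sub, Matrix.trace_smul,
    smul_eq_mul, _root_.mul_sub, Finset.sum_sub_distrib, Finset.mul_sum, mul_left_comm (c : ℂ)]

theorem wx_symm (ξ η : Mat n) : wx h ξ η z = wx h η ξ z := by rw [wx, wx, add_comm]

theorem wx_lin (c : ℝ) (ξ ξ' η : Mat n) :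
    wx h (c • ξ - ξ') η z = c * wx h ξ η z - wx h ξ' η z := by
  rw [wx, wx, wx, kx_lin1, kx_lin2]
  ring

theorem wx_smul (c : ℝ) (ξ η : Mat n) : wx h (c • ξ) η z = c * wx h ξ η z := by
  have a := wx_lin h z 1 η η η
  rw [one_smul, sub_self] at a
  have := wx_lin h z c ξ 0 η
  rw [sub_zero] at this
  linarith

theorem wx_sq (c : ℝ) (ξ η : Mat n) : wx h (c • ξ - η) (c • ξ - η) z =
    c * (c * wx h ξ ξ z - 2 * wx h ξ η z) + wx h η η z := by
  rw [wx_lin, wx_symm h z ξ, wx_symm h z η, wx_lin, wx_lin, wx_symm h z η ξ]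
  ring

end lin

theorem cwx {h : E n → Mat n} {z : E n} {A : Mat n} (hs : SmM h z) (h0 : (h z).det ≠ 0)
    {ξ η : E n × Mat n → Mat n} (hξ : ContinuousAt ξ (z, A)) (hη : ContinuousAt η (z, A)) :
    ContinuousAt (fun p : E n × Mat n => wx h (ξ p) (η p) p.1) (z, A) := by
  have h1 : Continuous fun q : ((Fin n → Fin n → Mat n) × Mat n) × Mat n × Mat n =>
      -((∑ k, ∑ l, q.2.1 k l * (q.2.2 * q.1.2 * q.1.1 k l).trace).re +
        (∑ k, ∑ l, q.2.2 k l * (q.2.1 * q.1.2 * q.1.1 k l).trace).re) / 2 := by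
    fun_prop
  have h2 : ContinuousAt (fun w => ((fun k l => ths h k l w), h w)) z :=
    (continuousAt_pi.2 fun k => continuousAt_pi.2 fun l =>
      ((T82.sm_gs hs h0 k).dMb l).continuousAt.neg).prodMk hs.continuousAt
  exact h1.continuousAt.comp
    (f := fun p : E n × Mat n => (((fun k l => ths h k l p.1), h p.1), ξ p, η p))
    ((T38.cfst h2).prodMk (hξ.prodMk hη))

theorem kill {h B Z : Mat n} (hp : h.PosDef) (hB : B.PosSemidef) (hZ : (h * Z).IsHermitian)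
    (h0 : (Z * (Z * h⁻¹) * B).trace.re ≤ 0) : B * Z = 0 := by
  have hd : IsUnit h.det := hp.det_pos.ne'.isUnit
  have hq : Z * h⁻¹ * h = Z := Matrix.nonsing_inv_mul_cancel_right _ _ hd
  have hξ : (Z * h⁻¹)ᴴ = Z * h⁻¹ := by
    have := (Matrix.isHermitian_mul_mul_conjTranspose h⁻¹ hZ).eq
    rwa [hp.inv.1.eq, Matrix.nonsing_inv_mul_cancel_left _ _ hd] at this
  obtain ⟨W, rfl⟩ := psd_eq_mul hB
  obtain ⟨V, hV⟩ := psd_eq_mul hp.posSemidef
  have e : (Z * (Z * h⁻¹) * (W * Wᴴ)).trace =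
      ((Vᴴ * (Z * h⁻¹ * W))ᴴ * (Vᴴ * (Z * h⁻¹ * W))).trace := by
    rw [← Matrix.mul_assoc _ W, Matrix.trace_mul_comm]
    simp only [Matrix.conjTranspose_mul, Matrix.conjTranspose_conjTranspose]
    rw [← Matrix.conjTranspose_mul Z, hξ, Matrix.mul_assoc _ V, ← Matrix.mul_assoc V, ← hV,
      Matrix.mul_assoc Wᴴ, ← Matrix.mul_assoc (Z * h⁻¹) h, hq, Matrix.mul_assoc Z (Z * h⁻¹)]
  have p := Complex.nonneg_iff.1
    (Matrix.posSemidef_conjTranspose_mul_self (Vᴴ * (Z * h⁻¹ * W))).trace_nonneg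
  rw [e] at h0
  have a := Matrix.trace_conjTranspose_mul_self_eq_zero_iff.1
    (Complex.ext (le_antisymm h0 p.1) p.2.symm)
  have b : Z * h⁻¹ * W = 0 := by
    rw [← Matrix.nonsing_inv_mul_cancel_left h (Z * h⁻¹ * W) hd]
    nth_rewrite 2 [hV]
    rw [Matrix.mul_assoc V, a, Matrix.mul_zero, Matrix.mul_zero]
  have c := congrArg Matrix.conjTranspose b
  rw [Matrix.conjTranspose_mul, hξ, Matrix.conjTranspose_zero] at c
  rw [← hq, Matrix.mul_assoc W, ← Matrix.mul_assoc Wᴴ, c, Matrix.zero_mul, Matrix.mul_zero]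

theorem ptw {a b m t y c ε : ℝ} (a0 : 0 ≤ a) (b0 : 0 ≤ b) (t0 : 0 ≤ t) (ay : a ≤ y) (c0 : 0 ≤ c)
    (c1 : c ≤ ε) (e1 : ε ≤ 1) (h : 0 ≤ (1 + t) * ((1 + t) * a - 2 * m) + b) :
    c * (c * a) ≤ ε * y ∧ 2 * (c * m) ≤ (1 + t) * (ε * y) + ε * b := by
  have k : 2 * m ≤ (1 + t) * a + b := by
    refine le_of_mul_le_mul_left ?_ (show 0 < 1 + t by linarith)
    nlinarith [mul_nonneg t0 b0]
  have k1 : (1 + t) * a + b ≤ (1 + t) * y + b := by nlinarith
  have k2 : 0 ≤ (1 + t) * a + b := by positivity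
  refine ⟨mul_le_mul c1 (by nlinarith) (mul_nonneg c0 a0) (c0.trans c1), ?_⟩
  calc 2 * (c * m) = c * (2 * m) := by ring
    _ ≤ c * ((1 + t) * a + b) := mul_le_mul_of_nonneg_left k c0
    _ ≤ ε * ((1 + t) * y + b) := mul_le_mul c1 k1 k2 (c0.trans c1)
    _ = _ := by ring

end C33

open C33 Mf in
theorem st_NCL (hYE : St_NYE) (hDB : St_NDB) : St_NCL := by
  intro n M _ H B h Z C g ε f l _ hH hh hc hB hB0 hs hl hZ hA hL e he z hz
  obtain ⟨ye, ye'⟩ := hYE n M h hh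
  obtain ⟨-, w0, y0⟩ := ye' hc
  obtain ⟨-, hfin, -, -, hint, -⟩ := mMU n M H hH.toMet
  have it : ∀ f : M.X → ℝ, M.Sm f → Integrable f (M.mu H) := fun f hf => hint ℝ f hf.continuous
  have gm := fun i => (hs.kae i).toMet
  have nl : ∀ a : ℕ → M.X → ℝ, (∀ i, M.Sm (a i)) → (∀ i x, 0 ≤ a i x) →
      Tendsto (fun i => M.mn (g i) (a i)) atTop (𝓝 0) → Nl (M.mu H) a := fun a a1 a2 a3 => by
    have d0 := fun i => HQ.Q51.dn_pos hH.toMet (gm i)
    refine nl_mono (nl_mul (fun i x => mul_nonneg (d0 i x).le (a2 i x))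
      (fun i x => (inv_pos.2 (d0 i x)).le) (nl_int (fun i x => mul_nonneg (d0 i x).le (a2 i x))
        (fun i => it _ ((HQ.Q51.dn_sm hH.toMet (gm i)).mul (a1 i)))
        (a3.congr fun i => HQ.Q51.mn_eq hH.toMet (gm i) _)) hs.low) fun i x => le_of_eq ?_
    have := (d0 i x).ne'
    field_simp
  have e0 := fun i => (hs.eps i).1
  have y1 : ∀ i x, 0 ≤ ε i * M.y0 (g i) h x := fun i x => mul_nonneg (e0 i).le (y0 _ (hs.kae i) x)
  have n1 := nl _ (fun i => (sm_const _).mul (ye _ (hs.kae i)).1) y1 hs.y0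
  have ip := fun i => (mINV n M _ (gm i)).2.2.1 _ _ hh.toTen hB.toTen
  have i0 : ∀ i x, 0 ≤ M.ip (g i) h B x := fun i x => (Complex.nonneg_iff.1 (tr_mul_nonneg
    (conj_inv_psd ((gm i).ev_pos x) (hh.ev_pos x).posSemidef)
    (by simpa [ev] using AllOn.ch hB0 x))).1
  have n2 := nl _ (fun i => (sm_const _).mul (ip i).2.1)
    (fun i x => mul_nonneg (e0 i).le (i0 i x)) hs.b0
  have t0 := fun j x => hh.tr_nonneg (gm j).nonneg x
  have t1 : Tg (M.mu H) fun _ => M.tr h H :=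
    tg_int (fun _ => hh.tr_nonneg hH.toMet.nonneg)
      (fun _ => it _ ((mINV n M h hh).1 H hH.toTen).2.1) _ fun _ => le_rfl
  have t2 : Tg (M.mu H) fun i => M.tr H (g i) :=
    tg_int (fun i => hH.toMet.tr_nonneg (gm i).nonneg)
      (fun i => it _ ((mINV n M H hH.toMet).1 _ (gm i).toTen).2.1) C hs.trc
  have t3 : Tg (M.mu H) fun i => M.tr h (g i) :=
    tg_mono (tg_mul (fun _ => hh.tr_nonneg hH.toMet.nonneg)
      (fun i => hH.toMet.tr_nonneg (gm i).nonneg) t1 t2) fun i x =>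
      tr_le_mul (hh.ev_pos x) (hH.toMet.ev_pos x) ((gm i).ev_pos x).posSemidef
  have n3 : Nl (M.mu H) fun i x => (1 + M.tr h (g i) x) * (ε i * M.y0 (g i) h x) + ε i :=
    nl_add (nl_mono (nl_add n1 (nl_mul y1 t0 n1 t3)) fun i x => le_of_eq (by ring))
      (nl_const hs.e0)
  have D := fun j => (hDB n M H h hH.toMet hh).1 _ _ (gm j) (e0 j)
  have lim := fun b hb => st_GLIM n M H h Z (fun a => M.zE (g a) h (ε a)) l b hH.toMet hh hl
    (fun j => (D j).1) hZ hL hb e he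
  have hp := hh.pos e he
  have hd := fun w hw => (hp w hw).det_pos.ne'
  have hc : ∀ w ∈ e.target, ∀ A : Mat n, ContinuousAt (fun p : E n × Mat n => h e p.1) (w, A) :=
    fun w hw A => T38.cfst (hh.sm e he w hw).continuousAt
  have hi : ∀ w ∈ e.target, ∀ A : Mat n,
      ContinuousAt (fun p : E n × Mat n => (h e p.1)⁻¹) (w, A) :=
    fun w hw A => T38.cfst ((hh.sm e he w hw).inv (hd w hw)).continuousAt
  have τ : ∀ j x, 0 < (1 + ε j * M.tr (g j) h x)⁻¹ ∧ (1 + ε j * M.tr (g j) h x)⁻¹ ≤ 1 :=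
    fun j x => by
      have := mul_nonneg (e0 j).le ((gm j).tr_nonneg hh.nonneg x)
      exact ⟨by positivity, inv_le_one_of_one_le₀ (by linarith)⟩
  have q : ∀ j, ∀ w ∈ e.target, M.zE (g j) h (ε j) e w * (h e w)⁻¹ =
      ((1 + ε j * M.tr (g j) h (e.symm w))⁻¹ * ε j) • (g j e w)⁻¹ := fun j w hw => by
    rw [zE, qE, smul_smul, Matrix.smul_mul, Matrix.mul_assoc,
      Matrix.mul_nonsing_inv _ (hd w hw).isUnit, Matrix.mul_one]
  have P2 : ∀ j, ∀ w ∈ e.target,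
      wx (h e) (M.zE (g j) h (ε j) e w * (h e w)⁻¹) (M.zE (g j) h (ε j) e w * (h e w)⁻¹) w ≤
        ε j * M.y0 (g j) h (e.symm w) ∧
      2 * wx (h e) (M.zE (g j) h (ε j) e w * (h e w)⁻¹) (h e w)⁻¹ w ≤
        (1 + M.tr h (g j) (e.symm w)) * (ε j * M.y0 (g j) h (e.symm w)) +
          ε j * wx (h e) (h e w)⁻¹ (h e w)⁻¹ w := fun j w hw => by
    have hQ := (gm j).pos e he w hw
    have r : M.tr h (g j) (e.symm w) = ((h e w)⁻¹ * g j e w).trace.re :=
      ((mINV n M h hh).1 _ (gm j).toTen).1 e he w hw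
    obtain ⟨u1, u2⟩ := (ye _ (hs.kae j)).2 e he w hw
    have a0 := w0 e he w hw _ hQ.inv.posSemidef
    have p := inv_le_of_le (hp w hw) hQ (le_tr_smul (hp w hw) hQ.posSemidef
      (c := 1 + M.tr h (g j) (e.symm w)) (by rw [← r]; linarith))
    rw [← rsm] at p
    have c0 := w0 e he w hw _ p
    rw [wx_sq] at c0
    rw [q j w hw, wx_smul, wx_smul, wx_symm _ _ _ (_ • _), wx_smul]
    exact ptw a0 (w0 e he w hw _ (hp w hw).inv.posSemidef) (t0 j _) (by linarith)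
      (mul_nonneg (τ j _).1.le (e0 j).le) (mul_le_of_le_one_left (e0 j).le (τ j _).2)
      (hs.eps j).2 c0
  have z0 : Nl (M.mu H) fun (_ : ℕ) (_ : M.X) => (0 : ℝ) := nl_const tendsto_const_nhds
  refine ⟨⟨.of_dotProduct_mulVec_nonneg (hA e he z hz) fun v => Complex.nonneg_iff.2
    ⟨?_, ((hA e he z hz).im_star_dotProduct_mulVec_self v).symm⟩, ?_, ?_, ?_⟩,
    kill (hp z hz) (by simpa using hB0 e he z hz) (hA e he z hz) ?_⟩
  · exact neg_nonpos.1 (lim _ z0 (fun p => -nq (h e p.1 * p.2) v)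
      (fun p hw => (cont_nq ((hc _ hw.1 _).mul continuousAt_snd)
        continuousAt_const).neg.continuousWithinAt)
      (fun j w hw => neg_nonpos.2 (nq_pos ((D j).2 e he w hw).1 v)) z hz)
  · refine sub_nonpos.1 (lim _ z0 (fun p => p.2.trace.re - 1)
      (Continuous.continuousOn (by fun_prop)) (fun j w hw => ?_) z hz)
    rw [((D j).2 e he w hw).2, ofReal_re]
    linarith [(τ j (e.symm w)).1]
  · exact lim _ n1 (fun p => wx (h e) (p.2 * (h e p.1)⁻¹) (p.2 * (h e p.1)⁻¹) p.1)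
      (fun p hw => (cwx (hh.sm e he _ hw.1) (hd _ hw.1) (continuousAt_snd.mul (hi _ hw.1 _))
        (continuousAt_snd.mul (hi _ hw.1 _))).continuousWithinAt)
      (fun j w hw => (P2 j w hw).1) z hz
  · have key := lim _ n3 (fun p => 2 * wx (h e) (p.2 * (h e p.1)⁻¹) (h e p.1)⁻¹ p.1 /
        (1 + |wx (h e) (h e p.1)⁻¹ (h e p.1)⁻¹ p.1|)) ?_ ?_ z hz
    · rw [div_le_iff₀ (by positivity), zero_mul] at key
      linarith
    · rintro ⟨w, A⟩ ⟨hw, -⟩
      exact ((continuousAt_const.mul (cwx (hh.sm e he w hw) (hd w hw)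
        (continuousAt_snd.mul (hi w hw A)) (hi w hw A))).div
        (continuousAt_const.add (cwx (hh.sm e he w hw) (hd w hw) (hi w hw A) (hi w hw A)).abs)
        (add_pos_of_pos_of_nonneg one_pos (abs_nonneg _)).ne').continuousWithinAt
    · intro j w hw
      rw [div_le_iff₀ (by positivity)]
      refine (P2 j w hw).2.trans ?_
      have a1 := mul_nonneg (add_nonneg zero_le_one (t0 j (e.symm w))) (y1 j (e.symm w))
      have a2 := e0 j
      have a3 := le_abs_self (wx (h e) (h e w)⁻¹ (h e w)⁻¹ w)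
      have a4 := abs_nonneg (wx (h e) (h e w)⁻¹ (h e w)⁻¹ w)
      nlinarith [mul_nonneg a1 a4, mul_le_mul_of_nonneg_left a3 a2.le]
  · refine lim _ n2 (fun p => (p.2 * (p.2 * (h e p.1)⁻¹) * B e p.1).trace.re) ?_ ?_ z hz
    · rintro ⟨w, A⟩ ⟨hw, -⟩
      have h1 : Continuous fun A : Mat n => A.trace.re := by fun_prop
      exact (h1.continuousAt.comp ((continuousAt_snd.mul (continuousAt_snd.mul (hi w hw A))).mul
        (T38.cfst (hB.sm e he w hw).continuousAt))).continuousWithinAt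
    · intro j w hw
      have r : M.ip (g j) h B (e.symm w) = ((g j e w)⁻¹ * h e w * (g j e w)⁻¹ * B e w).trace.re :=
        (ip j).1 e he w hw
      have r0 := i0 j (e.symm w)
      obtain ⟨τ0, τ1⟩ := τ j (e.symm w)
      have c1 := mul_le_of_le_one_left (e0 j).le τ1
      have c0 := mul_nonneg τ0.le (e0 j).le
      dsimp only
      rw [q j w hw, zE, qE, smul_smul, Matrix.smul_mul, Matrix.smul_mul, Matrix.mul_smul,
        Matrix.smul_mul, Matrix.trace_smul, Matrix.trace_smul, smul_re, smul_re, ← r,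
        smul_eq_mul, smul_eq_mul]
      exact mul_le_mul c1 (mul_le_of_le_one_left r0 (c1.trans (hs.eps j).2)) (mul_nonneg c0 r0)
        (e0 j).le

end Pool.Agent.Lib.HN
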