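import Pool.Agent.Lib.HN.Blue
import Pool.Agent.Lib.TB.B_TCA
import Pool.Agent.Lib.TB.B_TP2
import Pool.Agent.Lib.HS68.Fun

/-! Project hn81: the closed conditions of tb33. -/

open scoped Classical Topology ContDiff ComplexOrder Matrix
open Set Complex Filter

noncomputable section

namespace Pool.Agent.Lib.HN

open Pool.Agent.Lib.SV (E)
open Pool.Agent.Lib.HS32 Pool.Agent.Lib.TB Pool.Agent.Lib.HS76

namespace S33

variable {n : ℕ}

theorem sum4 (F : Fin n → Fin n → Fin n → Fin n → ℂ) : ∑ k, ∑ l, ∑ j, ∑ i, F k l j i =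
    ∑ p : (Fin n × Fin n) × Fin n × Fin n, F p.1.1 p.1.2 p.2.1 p.2.2 := by
  simp only [Fintype.sum_prod_type]

theorem swap (R : Fin n → Fin n → Mat n) {ξ y : Mat n} (hξ : ξ.IsHermitian) (hy : y.IsHermitian)
    (hH : ∀ k l, (R k l)ᴴ = R l k) (hS : ∀ k l i m, ∑ j, (R k l i j + R j l i k) * ξ j m = 0) :
    (∑ k, ∑ l, ξ k l * (y * R k l).trace).re = (∑ k, ∑ l, y k l * (ξ * R k l).trace).re := by
  have tr : ∀ a b : Mat n, ∑ k, ∑ l, a k l * (b * R k l).trace =
      ∑ k, ∑ l, ∑ j, ∑ i, a k l * b j i * R k l i j := fun a b => by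
    simp only [Matrix.trace, Matrix.diag_apply, Matrix.mul_apply, Finset.mul_sum, mul_assoc]
  have a1 : ∑ k, ∑ l, ∑ j, ∑ i, ξ k l * y j i * R k l i j +
      ∑ k, ∑ l, ∑ j, ∑ i, ξ k l * y j i * R j l i k = 0 := by
    simp only [← Finset.sum_add_distrib]
    rw [Finset.sum_comm]
    refine Finset.sum_eq_zero fun l _ => ?_
    rw [Finset.sum_comm]
    refine Finset.sum_eq_zero fun j _ => ?_
    rw [Finset.sum_comm]
    refine Finset.sum_eq_zero fun i _ => ?_
    have := congrArg (y j i * ·) (hS j l i l)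
    simp only [Finset.mul_sum, mul_zero] at this
    exact (Finset.sum_congr rfl fun k _ => by ring).trans this
  have a2 : ∑ k, ∑ l, ∑ j, ∑ i, y k l * ξ j i * R k l i j +
      ∑ k, ∑ l, ∑ j, ∑ i, y k l * ξ j i * R j l i k = 0 := by
    simp only [← Finset.sum_add_distrib]
    refine Finset.sum_eq_zero fun k _ => Finset.sum_eq_zero fun l _ => ?_
    rw [Finset.sum_comm]
    refine Finset.sum_eq_zero fun i _ => ?_
    have := congrArg (y k l * ·) (hS k l i i)
    simp only [Finset.mul_sum, mul_zero] at this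
    exact (Finset.sum_congr rfl fun j _ => by ring).trans this
  have a3 : star (∑ k, ∑ l, ∑ j, ∑ i, ξ k l * y j i * R j l i k) =
      ∑ k, ∑ l, ∑ j, ∑ i, y k l * ξ j i * R j l i k := by
    rw [sum4, sum4, star_sum]
    refine Fintype.sum_equiv ((Equiv.prodComm _ _).trans
      ((Equiv.prodComm _ _).prodCongr (Equiv.prodComm _ _))) _ _ fun p => ?_
    simp only [Equiv.trans_apply, Equiv.prodComm_apply, Equiv.prodCongr_apply, Prod.map_fst,
      Prod.map_snd, Prod.fst_swap, Prod.snd_swap, star_mul', hξ.apply, hy.apply]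
    rw [← Matrix.conjTranspose_apply, hH]
    ring
  have a4 := congrArg re a3
  rw [tr, tr, eq_neg_of_add_eq_zero_left a1, eq_neg_of_add_eq_zero_left a2, neg_re, neg_re, ← a4]
  rfl

end S33

theorem st_NCS : St_NCS := by
  intro n h Q z hh hQ ev psd kil
  obtain ⟨hp, -, trc⟩ := ev.self_of_nhds
  have hd : IsUnit (h z).det := hp.det_pos.ne'.isUnit
  have ca := st_TCA n h Q z hh hQ ev
  have hξ : (Q z * (h z)⁻¹).PosSemidef := by
    have := conj_inv_psd hp psd
    rwa [Matrix.nonsing_inv_mul_cancel_left _ _ hd] at this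
  have hq : Q z * (h z)⁻¹ * h z = Q z := Matrix.nonsing_inv_mul_cancel_right _ _ hd
  have k0 : ∀ k l, ths h k l z * Q z = 0 := fun k l => by
    rw [← hq, ← Matrix.mul_assoc, kil, Matrix.zero_mul]
  have ct : ∀ y : Mat n, 4 * rx h y (Q z * (h z)⁻¹) z = tq h y (Q z * (h z)⁻¹) z := fun y => by
    have : 4 * ∑ k, ∑ l, y k l * (Q z * (h z)⁻¹ * h z * th h k l z).trace =
        ip3 y (Q z * (h z)⁻¹) (h z) (fun k => tm h k z) fun k => tm h k z := by
      simp only [ip3, Finset.mul_sum]
      refine Finset.sum_congr rfl fun k _ => Finset.sum_congr rfl fun l _ => ?_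
      have c := (ca k l).2.2
      rw [k0, Matrix.trace_zero] at c
      rw [hq, Matrix.trace_mul_comm (Q z) (th h k l z)]
      linear_combination -(y k l * c)
    have := congrArg re this
    simpa only [mul_re, re_ofNat, im_ofNat, zero_mul, sub_zero, rx, tq] using this
  have lc : HS68.Loc h z := ⟨hh, ev.mono fun w hw => hw.1.1, hp⟩
  have sw : rx h (Q z * (h z)⁻¹) (h z)⁻¹ z = rx h (h z)⁻¹ (Q z * (h z)⁻¹) z := by
    simp only [rx, Matrix.mul_assoc _ (h z)]
    refine S33.swap (fun k l => h z * th h k l z) hξ.1 hp.inv.1 lc.mul_th_herm fun k l i m => ?_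
    have := congrFun (congrFun (congrArg (h z * ·) (kil k l)) i) m
    simp only [← Matrix.mul_assoc (h z), Matrix.mul_zero, Matrix.zero_apply] at this
    rw [Matrix.mul_apply] at this
    rw [← mul_zero (2 : ℂ), ← this, Finset.mul_sum]
    refine Finset.sum_congr rfl fun j _ => ?_
    rw [← mul_assoc]
    congr 1
    simp only [Matrix.mul_apply, Finset.mul_sum, ← Finset.sum_add_distrib]
    exact Finset.sum_congr rfl fun r _ => by linear_combination -(h z i r * (ca k l).1 r j)
  refine ⟨psd, trc, ?_, ?_⟩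
  · have := ct (Q z * (h z)⁻¹)
    rw [bx]
    linarith
  · have := ct (h z)⁻¹
    rw [bx, T92.tq_symm, sw]
    linarith

end Pool.Agent.Lib.HN
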