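import Pool.Agent.Lib.HN.Blue
import Pool.Agent.Lib.TB.B_TDB

/-! Project hn81: local bounds for the normalized field and for the defect in its equations. -/

open scoped Classical Topology ContDiff ComplexOrder Matrix
open Set MeasureTheory Complex Metric Filter Matrix

noncomputable section

namespace Pool.Agent.Lib.HN

open Pool.Agent.Lib.SV (E)
open Pool.Agent.Lib.HS32 Pool.Agent.Lib.HS76
open Pool.Agent.Lib.HS (dbp_grad dbp_entry dbp_der dbp_hinv)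
open Pool.Agent.Lib.RB.R47 Pool.Agent.Lib.TB.T5

namespace N24

variable {n : ℕ}

theorem pt_bd {G h : Mat n} {C ε : ℝ} (hn : 0 < n) (hε : 0 < ε) (hC : 1 ≤ C) (hG : G.PosDef)
    (hh : h.PosDef) (h1 : (C • h - 1).PosSemidef) (h2 : (C • (1 : Mat n) - h).PosSemidef)
    (hs : ε * (G⁻¹ * h).trace.re ≤ 1) :
    (∀ i j, ‖(ε • (G⁻¹ * h)) i j‖ ≤ n ^ 3 * C ^ 2) ∧ ∀ (D : Fin n → Mat n) l i j,
      ‖(ε • -(D l * G⁻¹ * h)) i j‖ ^ 2 ≤
        C ^ 3 * ((h⁻¹ * G).trace.re * (ε * (ip3 G⁻¹ G⁻¹ h D D).re)) ∧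
      ‖(ε • -(G⁻¹ * (D l)ᴴ * h)) i j‖ ^ 2 ≤
        C ^ 3 * ((h⁻¹ * G).trace.re * (ε * (ip3 G⁻¹ G⁻¹ h D D).re)) := by
  have hn' : (0 : ℝ) < n := Nat.cast_pos.2 hn
  have hε' : 0 < ε * n / 1 := by positivity
  have h3 := low hn hε one_pos hG hh hs
  refine ⟨fun i j => ?_, fun D l i j => ?_⟩
  · rw [resc hn one_pos _ i j hε]
    refine (mul_le_mul_of_nonneg_left (dbp_entry hn hε' hC hG hh h1 h2 h3 i j)
      (by positivity)).trans (le_of_eq ?_)
    field_simp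
  have fin : ∀ X : Mat n, ‖((ε * n / 1) • X) i j‖ ^ 2 ≤ n * C ^ 3 *
      ((h⁻¹ * G).trace.re * (ε * n / 1 * (ip3 G⁻¹ G⁻¹ h D D).re)) → ‖(ε • X) i j‖ ^ 2 ≤
      C ^ 3 * ((h⁻¹ * G).trace.re * (ε * (ip3 G⁻¹ G⁻¹ h D D).re)) := fun X k => by
    rw [resc hn one_pos _ i j hε, mul_pow]
    refine (mul_le_mul_of_nonneg_left k (by positivity)).trans (le_of_eq ?_)
    field_simp
  exact ⟨fin _ (der2 hn hε' hC hG hh h1 h2 h3 D l i j),
    fin _ (dbp_der hn hε' hC hG hh h1 h2 h3 D l i j)⟩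

theorem def_bd {D Z : Mat n} {a B : ℝ} (hD : ∀ i j, ‖D i j‖ ^ 2 ≤ B) (hZ : ∀ i j, ‖Z i j‖ ≤ a)
    (i j : Fin n) : ‖(D - D.trace • Z) i j‖ ^ 2 ≤ (1 + n * a) ^ 2 * B := by
  have hB : 0 ≤ B := (sq_nonneg _).trans (hD i j)
  have ha : 0 ≤ a := (norm_nonneg _).trans (hZ i j)
  have d1 : ∀ p q, ‖D p q‖ ≤ √B := fun p q => Real.le_sqrt_of_sq_le (hD p q)
  have d2 : ‖D.trace‖ ≤ n * √B := by
    refine (norm_sum_le _ _).trans ?_
    refine (Finset.sum_le_sum fun p _ => d1 p p).trans (le_of_eq ?_)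
    simp
  have d3 : ‖(D - D.trace • Z) i j‖ ≤ (1 + n * a) * √B := by
    rw [Matrix.sub_apply, Matrix.smul_apply, smul_eq_mul]
    refine (norm_sub_le _ _).trans ?_
    rw [norm_mul]
    have := mul_le_mul d2 (hZ i j) (norm_nonneg _) (by positivity)
    nlinarith [d1 i j]
  calc _ ≤ ((1 + n * a) * √B) ^ 2 := by gcongr
    _ = _ := by rw [mul_pow, Real.sq_sqrt hB]

theorem nrm_alg (Q X D : Mat n) (t : ℂ) :
    (-((X + D).trace / t ^ 2)) • Q + t⁻¹ • (X + D) -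
      (t⁻¹ • X - (t⁻¹ * X.trace) • (t⁻¹ • Q)) = t⁻¹ • D - (t⁻¹ • D).trace • (t⁻¹ • Q) := by
  ext i j
  simp only [Matrix.sub_apply, Matrix.add_apply, Matrix.smul_apply, smul_eq_mul, trace_add,
    trace_smul]
  ring

theorem dM_nrm {Q : E n → Mat n} {z : E n} (hQ : SmM Q z) (h0 : 1 + (Q z).trace ≠ 0) (k : Fin n) :
    dM k (fun w => (1 + (Q w).trace)⁻¹ • Q w) z =
      (-((dM k Q z).trace / (1 + (Q z).trace) ^ 2)) • Q z + (1 + (Q z).trace)⁻¹ • dM k Q z ∧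
    dMb k (fun w => (1 + (Q w).trace)⁻¹ • Q w) z =
      (-((dMb k Q z).trace / (1 + (Q z).trace) ^ 2)) • Q z + (1 + (Q z).trace)⁻¹ • dMb k Q z := by
  have d0 : DifferentiableAt ℝ (fun w => (Q w).trace) z := cd_diff hQ.trace
  have d1 : DifferentiableAt ℝ (fun w => 1 + (Q w).trace) z := d0.const_add 1
  have d2 : DifferentiableAt ℝ (fun w => (1 + (Q w).trace)⁻¹) z := d1.inv h0
  constructor
  · rw [dM_smul d2 hQ, dz_inv d1 h0, dz_add (differentiableAt_const _) d0, dz_const,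
      zero_add, dz_trace hQ]
  · rw [dMb_smul d2 hQ, dzb_inv d1 h0, dzb_add (differentiableAt_const _) d0, dzb_const,
      zero_add, dzb_trace hQ]

end N24

open N24

theorem st_NDB : St_NDB := by
  intro n M _ H h hH hh
  have tr0 : ∀ G, M.Met G → ∀ x, 0 ≤ M.tr G h x := fun G hG x => by
    have hx : M.ch x ∈ M.C ∧ x ∈ (M.ch x).source := (M.cov x).choose_spec
    have ht := (M.ch x).map_source hx.2
    exact tr_nonneg (hG.pos _ hx.1 _ ht) (hh.pos _ hx.1 _ ht).posSemidef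
  have trq : ∀ G (ε : ℝ), M.Met G → M.All fun e z =>
      (M.qE G h ε e z).trace = ((ε * M.tr G h (e.symm z) : ℝ) : ℂ) := fun G ε hG e he z hz => by
    beta_reduce
    rw [Mf.qE, trace_smul, ofReal_mul, (((mINV n M G hG).2.1 h hh.toForm) e he z hz).1,
      real_smul]
  have enq : ∀ G (ε : ℝ), M.Met G → M.End (M.qE G h ε) := fun G ε hG => by
    have a := (mINV n M G hG).2.2.2.2.1 h hh.toTen
    refine ⟨fun e he z hz => SmM.rsmul contDiffAt_const (a.sm e he z hz),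
      fun e he e' he' x hx hx' => ?_⟩
    simp only [Mf.qE, Matrix.mul_smul, Matrix.smul_mul, a.cmp e he e' he' x hx hx']
  refine ⟨fun G ε hG hε => ⟨⟨fun e he z hz => ?_, fun e he e' he' x hx hx' => ?_⟩,
    fun e he z hz => ⟨?_, ?_⟩⟩, fun e he K hKc hKs => ?_⟩
  · have p := mul_nonneg hε.le (tr0 G hG (e.symm z))
    have s1 : ContDiffAt ℝ ∞ (fun w => M.tr G h (e.symm w)) z :=
      ((mINV n M G hG).1 h hh.toTen).2.1 e he z hz
    exact SmM.rsmul ((contDiffAt_const.add (contDiffAt_const.mul s1)).inv (by positivity))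
      ((enq G ε hG).sm e he z hz)
  · simp only [Mf.zE, Matrix.mul_smul, Matrix.smul_mul, e.left_inv hx, e'.left_inv hx',
      (enq G ε hG).cmp e he e' he' x hx hx']
  · have p := mul_nonneg hε.le (tr0 G hG (e.symm z))
    have a := (hG.pos e he z hz).inv.posSemidef.mul_mul_conjTranspose_same (h e z)
    rw [(hh.herm e he z hz).eq] at a
    simpa only [Mf.zE, Mf.qE, Matrix.mul_smul, Matrix.mul_assoc] using
      (a.smul hε.le).smul (a := (1 + ε * M.tr G h (e.symm z))⁻¹) (by positivity)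
  · have p := mul_nonneg hε.le (tr0 G hG (e.symm z))
    rw [Mf.zE, trace_smul, trq G ε hG e he z hz, real_smul, ← ofReal_mul]
    congr 1
    field_simp
    ring
  obtain ⟨C, hC, hb⟩ := (mBD n M h hh).2.2.1 e he K hKc hKs
  obtain ⟨C₀, hC₀, hc, -⟩ := (mBD n M h hh).1 H hH.toForm
  have p1 : 0 ≤ (n : ℝ) ^ 3 * C ^ 2 := by positivity
  have p2 : 0 < (1 + n * (n ^ 3 * C ^ 2)) ^ 2 * (C ^ 3 * C₀) := by positivity
  refine ⟨n ^ 3 * C ^ 2 + (1 + n * (n ^ 3 * C ^ 2)) ^ 2 * (C ^ 3 * C₀), by positivity,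
    fun G ε hG hε z hz i j => ?_⟩
  have hn : 0 < n := i.pos
  have hz' := hKs hz
  have hP := hh.pos e he z hz'
  have hQ := hG.pos e he z hz'
  have p := mul_nonneg hε.le (tr0 G hG.toMet (e.symm z))
  have r0 : M.tr G h (e.symm z) = ((G e z)⁻¹ * h e z).trace.re :=
    ((mINV n M G hG.toMet).1 _ hh.toTen).1 e he z hz'
  set τ := (1 + ε * M.tr G h (e.symm z))⁻¹ with hτ
  have τ0 : 0 < τ := by positivity
  have τ1 : τ ≤ 1 := inv_le_one_of_one_le₀ (by linarith)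
  have hs : τ * ε * ((G e z)⁻¹ * h e z).trace.re ≤ 1 := by
    rw [← r0, hτ, mul_assoc, inv_mul_le_iff₀ (by positivity)]
    linarith
  obtain ⟨b1, b2⟩ := pt_bd hn (mul_pos τ0 hε) hC hQ hP (hb z hz).1 (hb z hz).2.1 hs
  have zq : M.zE G h ε e z = (τ * ε) • ((G e z)⁻¹ * h e z) := by
    rw [Mf.zE, Mf.qE, smul_smul]
  refine ⟨?_, fun l => ?_⟩
  · rw [zq]
    linarith [b1 i j]
  have lG := HS68.met_loc hG.toMet he hz'
  have lH := HS68.met_loc hh he hz'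
  have q1 : dM l (M.qE G h ε e) z =
      (M.qE G h ε e z * gam (h e) l z - gs (h e) l z * M.qE G h ε e z) +
      ε • -(dsy (G e) (h e) l z * (G e z)⁻¹ * h e z) := by
    have : dM l (M.qE G h ε e) z = ε • dM l (fun w => (G e w)⁻¹ * h e w) z :=
      dM_rsmul ε (lG.smM_inv.mul lH.sm)
    rw [this, lG.dM_quot lH l]
    simp only [Mf.qE, dsy, Matrix.mul_smul, Matrix.smul_mul, Matrix.sub_mul, Matrix.mul_assoc,
      smul_sub, smul_neg]
    abel
  have q2 : dMb l (M.qE G h ε e) z =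
      (1 / 2 : ℝ) • (M.qE G h ε e z * tc (h e) l z) +
      ε • -((G e z)⁻¹ * (dsy (G e) (h e) l z)ᴴ * h e z) := by
    have : dMb l (M.qE G h ε e) z = ε • dMb l (fun w => (G e w)⁻¹ * h e w) z :=
      dMb_rsmul ε (lG.smM_inv.mul lH.sm)
    have u : dsy (G e) (h e) l z = df (G e) (h e) l z + (1 / 2 : ℝ) • tm (h e) l z := by
      simp only [dsy, gs, df]; abel
    rw [this, lG.dMb_quot lH l, u]
    simp only [Mf.qE, tc, Matrix.mul_smul, Matrix.smul_mul, Matrix.add_mul, Matrix.mul_add,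
      Matrix.mul_assoc, conjTranspose_add, conjTranspose_smul, star_trivial, smul_neg, smul_add,
      mul_nonsing_inv_cancel_left _ _ ((isUnit_iff_isUnit_det _).1 hP.isUnit),
      smul_comm (1 / 2 : ℝ) ε]
    abel
  have ev : M.zE G h ε e =ᶠ[𝓝 z]
      fun w => (1 + (M.qE G h ε e w).trace)⁻¹ • M.qE G h ε e w :=
    (e.open_target.eventually_mem hz').mono fun w hw => by
      beta_reduce
      rw [Mf.zE, trq G ε hG.toMet e he w hw, rsm]
      push_cast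
      rfl
  have tz : (1 + (M.qE G h ε e z).trace)⁻¹ = (τ : ℂ) := by
    rw [trq G ε hG.toMet e he z hz', hτ]
    push_cast
    rfl
  have h0 : 1 + (M.qE G h ε e z).trace ≠ 0 := by
    rw [Ne, ← inv_eq_zero, tz]
    exact ofReal_ne_zero.2 τ0.ne'
  obtain ⟨n1, n2⟩ := dM_nrm ((enq G ε hG.toMet).sm e he z hz') h0 l
  have zz := ev.eq_of_nhds
  have k1 : dM l (M.zE G h ε e) z - zr (h e) l z (M.zE G h ε e z) =
      (τ * ε) • -(dsy (G e) (h e) l z * (G e z)⁻¹ * h e z) -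
        ((τ * ε) • -(dsy (G e) (h e) l z * (G e z)⁻¹ * h e z)).trace • M.zE G h ε e z := by
    have := nrm_alg (M.qE G h ε e z)
      (M.qE G h ε e z * gam (h e) l z - gs (h e) l z * M.qE G h ε e z)
      (ε • -(dsy (G e) (h e) l z * (G e z)⁻¹ * h e z)) (1 + (M.qE G h ε e z).trace)
    rw [← q1, ← n1, ← dM_congr ev, ← zz, tz, ← rsm τ (ε • _), smul_smul] at this
    rw [← this, zr]
    congr 2
    · rw [zz, tz, smul_sub, Matrix.smul_mul, Matrix.mul_smul]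
    · congr 1
      rw [zz, tz, Matrix.smul_mul, trace_smul, trace_sub, trace_mul_comm (gs _ _ _), gs,
        Matrix.mul_sub, trace_sub, Matrix.mul_smul, trace_smul, real_smul, smul_eq_mul]
      push_cast
      ring
  have k2 : dMb l (M.zE G h ε e) z - zb (h e) l z (M.zE G h ε e z) =
      (τ * ε) • -((G e z)⁻¹ * (dsy (G e) (h e) l z)ᴴ * h e z) -
        ((τ * ε) • -((G e z)⁻¹ * (dsy (G e) (h e) l z)ᴴ * h e z)).trace • M.zE G h ε e z := by
    have := nrm_alg (M.qE G h ε e z) ((1 / 2 : ℝ) • (M.qE G h ε e z * tc (h e) l z))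
      (ε • -((G e z)⁻¹ * (dsy (G e) (h e) l z)ᴴ * h e z)) (1 + (M.qE G h ε e z).trace)
    rw [← q2, ← n2, ← dMb_congr ev, ← zz, tz, ← rsm τ (ε • _), smul_smul] at this
    rw [← this, zb]
    congr 2
    · rw [zz, tz, Matrix.smul_mul, smul_comm]
    · congr 1
      rw [zz, tz, Matrix.smul_mul, trace_smul, trace_smul, real_smul, smul_eq_mul]
      push_cast
      ring
  have r : M.tr H G (e.symm z) = ((H e z)⁻¹ * G e z).trace.re :=
    ((mINV n M H hH).1 _ hG.toTen).1 e he z hz'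
  have y0 : 0 ≤ es (G e) (h e) z :=
    ip3_nonneg hQ.inv.posSemidef hQ.inv.posSemidef hP.posSemidef _
  have t0 := tr_nonneg (hH.pos e he z hz') hQ.posSemidef
  have t1 := tr_cmp hQ.posSemidef (hH.pos e he z hz') hP (hc e he z hz')
  have fin : ∀ X : Mat n, (∀ i j, ‖X i j‖ ^ 2 ≤ C ^ 3 *
      (((h e z)⁻¹ * G e z).trace.re * (τ * ε * es (G e) (h e) z))) →
      ‖(X - X.trace • M.zE G h ε e z) i j‖ ^ 2 ≤
      (n ^ 3 * C ^ 2 + (1 + n * (n ^ 3 * C ^ 2)) ^ 2 * (C ^ 3 * C₀)) *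
        (((H e z)⁻¹ * G e z).trace.re * (ε * es (G e) (h e) z)) := fun X k => by
    refine (def_bd k (zq ▸ b1) i j).trans ?_
    have u : τ * ε ≤ ε := mul_le_of_le_one_left hε.le τ1
    calc _ ≤ (1 + n * (n ^ 3 * C ^ 2)) ^ 2 * (C ^ 3 *
          (C₀ * ((H e z)⁻¹ * G e z).trace.re * (ε * es (G e) (h e) z))) := by gcongr
      _ = (1 + n * (n ^ 3 * C ^ 2)) ^ 2 * (C ^ 3 * C₀) *
          (((H e z)⁻¹ * G e z).trace.re * (ε * es (G e) (h e) z)) := by ring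
      _ ≤ _ := mul_le_mul_of_nonneg_right (by linarith) (mul_nonneg t0 (mul_nonneg hε.le y0))
  rw [k1, k2, r]
  exact ⟨fin _ fun i j => (b2 (fun k => dsy (G e) (h e) k z) l i j).1,
    fin _ fun i j => (b2 (fun k => dsy (G e) (h e) k z) l i j).2⟩

end Pool.Agent.Lib.HN
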