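import Pool.Agent.Lib.HN.Blue
import Pool.Agent.Lib.HS.B_GLUE
import Pool.Agent.Lib.HS32.MAll

/-! Project hn81: gluing of smooth local limits. -/

open scoped Classical Topology ENNReal ContDiff ComplexOrder Matrix
open Set MeasureTheory Complex Metric Filter

noncomputable section

namespace Pool.Agent.Lib.HN

open Pool.Agent.Lib.SV (E)
open Pool.Agent.Lib.HS32

open HS.BGLUE in
theorem st_NGL : St_NGL := by
  intro n M _ H l _ A hH hA0 hP
  have hA := Eventually.of_forall (f := l) hA0
  have hb : ∀ e ∈ M.C, ∀ z ∈ e.target, ∃ ρ > 0, closedBall z ρ ⊆ e.target ∧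
      ∃ P : E n → Mat n, (∀ w ∈ ball z ρ, SmM P w ∧ Zde (H e) P w) ∧
      ∀ K : Set (E n), IsCompact K → K ⊆ ball z ρ → ∀ i j,
        Tendsto (fun a => ∫ z in K, ‖(A a e z - P z) i j‖) l (𝓝 0) := fun e he z hz => by
    obtain ⟨ρ, h1, h2⟩ := nhds_basis_closedBall.mem_iff.1 (e.open_target.mem_nhds hz)
    exact ⟨ρ, h1, h2, hP e he z ρ h2⟩
  choose! ρ hρ hs Q hQ hL using hb
  have hAc : ∀ e ∈ M.C, ∀ᶠ a in l, ContinuousOn (A a e) e.target := fun e he =>
    hA.mono fun a ha z hz => (ha.1.sm e he z hz).continuousAt.continuousWithinAt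
  have hQc : ∀ e ∈ M.C, ∀ z ∈ e.target, ∀ i j,
      ContinuousOn (fun w => Q e z w i j) (ball z (ρ e z)) := fun e he z hz i j w hw =>
    ((hQ e he z hz w hw).1 i j).continuousAt.continuousWithinAt
  have hN : ∀ e ∈ M.C, ∀ z ∈ e.target, ∀ K, IsCompact K → K ⊆ ball z (ρ e z) →
      NulM volume l K fun a w => A a e w - Q e z w := fun e he z hz K hK hKs i j => by
    refine nul_of_int hK ((hAc e he).mono fun a ha => ?_) (hL e he z hz K hK hKs i j)
    exact (continuousOn_pi.1 (continuousOn_pi.1 (ha.mono
      (hKs.trans (ball_subset_closedBall.trans (hs e he z hz)))) i) j).sub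
      ((hQc e he z hz i j).mono hKs)
  have hE : ∀ e ∈ M.C, ∀ z ∈ e.target, ∀ w ∈ ball z (ρ e z), Q e w w = Q e z w := by
    intro e he z hz w hw
    have hw' := hs e he z hz (ball_subset_closedBall hw)
    obtain ⟨r, hr, h⟩ := nhds_basis_closedBall.mem_iff.1
      (inter_mem (isOpen_ball.mem_nhds hw) (ball_mem_nhds w (hρ e he w hw')))
    exact NulM.eq (isCompact_closedBall w r) (closedBall_mem_nhds w hr)
      (hN e he z hz _ (isCompact_closedBall w r) (h.trans inter_subset_left))
      (hN e he w hw' _ (isCompact_closedBall w r) (h.trans inter_subset_right))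
      (Eventually.of_forall fun a y _ => by abel)
  have hG : ∀ e ∈ M.C, ∀ z ∈ e.target, (fun w => Q e w w) =ᶠ[𝓝 z] Q e z := fun e he z hz =>
    mem_of_superset (ball_mem_nhds z (hρ e he z hz)) fun w hw => hE e he z hz w hw
  have hsm : M.All fun e z => SmM (fun w => Q e w w) z := fun e he z hz =>
    (hQ e he z hz z (mem_ball_self (hρ e he z hz))).1.congr (hG e he z hz)
  have hPc : ∀ e ∈ M.C, ContinuousOn (fun w => Q e w w) e.target := fun e he z hz =>
    (hsm e he z hz).continuousAt.continuousWithinAt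
  have hK : ∀ e ∈ M.C, ∀ K, IsCompact K → K ⊆ e.target →
      NulM volume l K fun a w => A a e w - Q e w w := by
    intro e he K hK hKs i j
    refine ⟨(hAc e he).mono fun a ha => continuousOn_pi.1 (continuousOn_pi.1
      ((ha.sub (hPc e he)).mono hKs) i) j, ?_⟩
    refine hK.induction_on (p := fun s => Tendsto
      (fun a => ∫⁻ w in s, ‖(A a e w - Q e w w) i j‖ₑ) l (𝓝 0)) (by simp)
      (fun s t hst h => lim_le h (Eventually.of_forall fun _ => lintegral_mono_set hst))
      (fun s t h h' => lim_le (by simpa using h.add h')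
        (Eventually.of_forall fun _ => lintegral_union_le _ _ _)) fun z hz => ?_
    have h1 := hρ e he z (hKs hz)
    have h2 : closedBall z (ρ e z / 2) ⊆ ball z (ρ e z) := closedBall_subset_ball (by linarith)
    refine ⟨_, mem_nhdsWithin_of_mem_nhds (closedBall_mem_nhds z (half_pos h1)), ?_⟩
    refine ((hN e he z (hKs hz) _ (isCompact_closedBall _ _) h2 i j).congr
      (G := fun a w => (A a e w - Q e w w) i j) (isCompact_closedBall _ _)
      (Eventually.of_forall fun a w hw => ?_)).lim
    simp only [hE e he z (hKs hz) w (h2 hw)]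
  obtain ⟨-, -, hop, -, -, hm, -⟩ := mMU n M H hH
  have hX : ∀ e ∈ M.C, ∀ K, IsCompact K → K ⊆ e.source →
      NulM (M.mu H) l K fun a x => A a e (e x) - Q e (e x) (e x) := by
    intro e he K hKc hKs i j
    have hB : IsCompact (e '' K) := hKc.image_of_continuousOn (e.continuousOn.mono hKs)
    have hBs : e '' K ⊆ e.target := by
      rintro _ ⟨x, hx, rfl⟩
      exact e.map_source (hKs hx)
    have hd : ContinuousOn (fun z => (H e z).det) (e '' K) := fun z hz =>
      (hH.sm e he z (hBs hz)).det.continuousAt.continuousWithinAt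
    have h1 := (hK e he _ hB hBs i j).mul hB hd
    refine ⟨(hK e he _ hB hBs i j).cont.mono fun a ha =>
      ha.comp (e.continuousOn.mono hKs) (mapsTo_image _ _), ?_⟩
    refine lim_le h1.lim (Eventually.of_forall fun a => ?_)
    have h2 := (hm e he _ hB.measurableSet hBs).2.1
      fun x => ‖(A a e (e x) - Q e (e x) (e x)) i j‖ₑ
    have h3 : e.symm '' (e '' K) = K := e.toPartialEquiv.symm_image_image_of_subset_source hKs
    rw [h3] at h2
    rw [h2]
    refine setLIntegral_mono' hB.measurableSet fun z hz => ?_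
    rw [e.right_inv (hBs hz), enorm_mul, ← ofReal_norm (H e z).det]
    exact mul_le_mul_left (ENNReal.ofReal_le_ofReal (re_le_norm _)) _
  refine ⟨fun e w => Q e w w, ⟨hsm, fun e he e' he' x hx hx' => ?_⟩,
    fun e he z hz => ⟨?_, ?_⟩, fun e he K hKc hKs i j => ?_⟩
  · obtain ⟨K, hK1, hK2, hK3⟩ := local_compact_nhds
      (inter_mem (e.open_source.mem_nhds hx) (e'.open_source.mem_nhds hx'))
    have hJ : ContinuousOn (M.J e e') K := fun y hy => by
      have h1 := ((mTR n M).2.1 e he e' he' y (hK2 hy).1 (hK2 hy).2).1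
      exact (ContinuousAt.comp (f := e') (mCHN n _ _ h1).2.1.continuousAt
        (e'.continuousAt (hK2 hy).2)).continuousWithinAt
    refine NulM.eq (B := fun y => M.J e e' y * Q e' (e' y) (e' y))
      (B' := fun y => Q e (e y) (e y) * M.J e e' y) hK3 hK1
      ((hX e he K hK3 (hK2.trans inter_subset_left)).right hK3 hJ)
      ((hX e' he' K hK3 (hK2.trans inter_subset_right)).left hK3 hJ) (hA.mono fun a ha y hy => ?_)
    have := ha.1.cmp e he e' he' y (hK2 hy).1 (hK2 hy).2
    beta_reduce at this
    rw [Matrix.mul_sub, Matrix.sub_mul, this]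
    abel
  · obtain ⟨r, hr, h⟩ := nhds_basis_closedBall.mem_iff.1 (e.open_target.mem_nhds hz)
    have hc : ContinuousOn (H e) (closedBall z r) := fun w hw =>
      (hH.sm e he w (h hw)).continuousAt.continuousWithinAt
    have h1 := (hK e he _ (isCompact_closedBall z r) h).left (isCompact_closedBall z r) hc
    refine NulM.eq (B := fun w => (H e w * Q e w w)ᴴ) (B' := fun w => H e w * Q e w w)
      (T := fun a w => (H e w * (A a e w - Q e w w))ᴴ)
      (isCompact_closedBall z r) (closedBall_mem_nhds z hr) h1 (fun i j => (h1 j i).star)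
      (hA.mono fun a ha w hw => ?_)
    have : (H e w * A a e w)ᴴ = H e w * A a e w := ha.2 e he w (h hw)
    rw [Matrix.mul_sub, Matrix.conjTranspose_sub, this]
    abel
  · obtain ⟨p1, p2⟩ := (hQ e he z hz z (mem_ball_self (hρ e he z hz))).2
    exact ⟨fun k => (dM_congr (hG e he z hz)).trans (p1 k),
      fun k => (dMb_congr (hG e he z hz)).trans (p2 k)⟩
  · have h1 := (ENNReal.tendsto_toReal ENNReal.zero_ne_top).comp (hX e he K hKc hKs i j).lim
    refine squeeze_zero (fun a => integral_nonneg fun x => norm_nonneg _) (fun a => ?_) h1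
    refine (Real.le_norm_self _).trans ((norm_integral_le_lintegral_norm _).trans (le_of_eq ?_))
    simp only [norm_norm, ofReal_norm, Function.comp_apply]

end Pool.Agent.Lib.HN
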