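import Pool.Agent.Lib.HN.Blue
import Pool.Agent.Lib.HN53.Lim

/-! Project hn81: the smooth limit for a first order system. -/

open Filter MeasureTheory

namespace Pool.Agent.Lib.HN

theorem st_NLI : St_NLI := fun _ _ _ _ _ l u Φ c ρ C hu hΦ hr =>
  HN53.lim volume l u Φ c ρ C hΦ (Eventually.of_forall hu) hr

end Pool.Agent.Lib.HN
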