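import Pool.Agent.Lib.HN.Blue
import Pool.Agent.Lib.TB.B_TLM
import Pool.Agent.Lib.TB.B_TLO

/-! Project hn81: the smooth limit for matrices. -/

open scoped Classical Topology ContDiff ComplexOrder Matrix ENNReal
open Set MeasureTheory Complex Metric Filter

noncomputable section

namespace Pool.Agent.Lib.HN

open Pool.Agent.Lib.SV (E)
open Pool.Agent.Lib.HS32 Pool.Agent.Lib.TB.T53 Pool.Agent.Lib.TB.T18

namespace N53

variable {n : ℕ}

/-- The real linear map with given Wirtinger components. -/
def ps (a b : Fin n → Mat n) : E n →L[ℝ] Fin n → Fin n → ℂ :=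
  LinearMap.toContinuousLinearMap
    { toFun := fun v p q => ∑ k, (a k p q * v k + b k p q * star (v k))
      map_add' := fun v v' => by
        funext p q
        simp only [Pi.add_apply, star_add, ← Finset.sum_add_distrib]
        exact Finset.sum_congr rfl fun k _ => by ring
      map_smul' := fun c v => by
        funext p q
        simp only [Pi.smul_apply, Complex.real_smul, Finset.mul_sum, star_mul', RCLike.star_def,
          conj_ofReal, RingHom.id_apply]
        exact Finset.sum_congr rfl fun k _ => by ring }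

theorem ps_apply (a b : Fin n → Mat n) (v : E n) (p q : Fin n) :
    ps a b v p q = ∑ k, (a k p q * v k + b k p q * star (v k)) := rfl

theorem norm_ps {u : E n → Mat n} {z : E n} (h : SmM u z) (a b : Fin n → Mat n) :
    ‖fderiv ℝ (fun w => (fun p q => u w p q : Fin n → Fin n → ℂ)) z - ps a b‖ ≤
      ∑ p, ∑ q, ∑ k, (‖(dM k u z - a k) p q‖ + ‖(dMb k u z - b k) p q‖) := by
  refine ContinuousLinearMap.opNorm_le_bound _ (by positivity) fun v => ?_
  refine (pi_norm_le_iff_of_nonneg (by positivity)).2 fun p =>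
    (pi_norm_le_iff_of_nonneg (by positivity)).2 fun q => ?_
  rw [sub_apply, Pi.sub_apply, Pi.sub_apply, fd_ent (cd_diff (cd_of h)), ps_apply, fderiv_eq_sum,
    ← Finset.sum_sub_distrib]
  refine (norm_sum_le _ _).trans (le_trans ?_ (mul_le_mul_of_nonneg_right
    ((Finset.single_le_sum (f := fun q => ∑ k, (‖(dM k u z - a k) p q‖ +
        ‖(dMb k u z - b k) p q‖)) (fun _ _ => by positivity) (Finset.mem_univ q)).trans
      (Finset.single_le_sum (f := fun p => ∑ q, ∑ k,
        (‖(dM k u z - a k) p q‖ + ‖(dMb k u z - b k) p q‖))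
        (fun _ _ => by positivity) (Finset.mem_univ p))) (norm_nonneg v)))
  rw [Finset.sum_mul]
  refine Finset.sum_le_sum fun k _ => ?_
  have e : dz k (fun w => u w p q) z * v k + dzb k (fun w => u w p q) z * star (v k) -
      (a k p q * v k + b k p q * star (v k)) =
      (dM k u z - a k) p q * v k + (dMb k u z - b k) p q * star (v k) := by
    simp only [Matrix.sub_apply, dM, dMb, Matrix.of_apply]
    ring
  rw [e, add_mul]
  refine (norm_add_le _ _).trans (add_le_add ?_ ?_)
  · rw [norm_mul]
    exact mul_le_mul_of_nonneg_left (norm_le_pi_norm v k) (norm_nonneg _)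
  · rw [norm_mul, norm_star]
    exact mul_le_mul_of_nonneg_left (norm_le_pi_norm v k) (norm_nonneg _)

section

variable {Y : Type} [NormedAddCommGroup Y] [NormedSpace ℝ Y] {y : Y} {h : E n → Mat n}
  {π : Y → E n} {A : Y → Mat n}

theorem jm {S T : Y → Mat n} (hS : ∀ p q, ContDiffAt ℝ ∞ (fun w => S w p q) y)
    (hT : ∀ p q, ContDiffAt ℝ ∞ (fun w => T w p q) y) (p q : Fin n) :
    ContDiffAt ℝ ∞ (fun w => (S w * T w) p q) y :=
  ContDiffAt.sum (s := Finset.univ) (f := fun j w => S w p j * T w j q) fun j _ =>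
    (hS p j).mul (hT j q)

theorem jt {S : Y → Mat n} (hS : ∀ p q, ContDiffAt ℝ ∞ (fun w => S w p q) y) :
    ContDiffAt ℝ ∞ (fun w => (S w).trace) y :=
  ContDiffAt.sum (s := Finset.univ) (f := fun j w => S w j j) fun j _ => hS j j

theorem sm_tc {z : E n} (hs : SmM h z) (h0 : (h z).det ≠ 0) (k : Fin n) : SmM (tc h k) z :=
  ((hs.inv h0).mul (sm_tm hs h0 k).ct).mul hs

/-- The right sides are smooth functions of the point and of the field. -/
theorem jz (hπ : ContDiffAt ℝ ∞ π y) (hA : ∀ p q, ContDiffAt ℝ ∞ (fun w => A w p q) y)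
    (hs : SmM h (π y)) (h0 : (h (π y)).det ≠ 0) (k p q : Fin n) :
    ContDiffAt ℝ ∞ (fun w => zr h k (π w) (A w) p q) y ∧
      ContDiffAt ℝ ∞ (fun w => zb h k (π w) (A w) p q) y := by
  have c : ∀ {T : E n → Mat n}, SmM T (π y) → ∀ p q, ContDiffAt ℝ ∞ (fun w => T (π w) p q) y :=
    fun hT p q => (hT p q).comp y hπ
  have h4 := jm hA (c (sm_tc hs h0 k))
  exact ⟨((jm hA (c (hs.gam h0 k)) p q).sub (jm (c (sm_gs hs h0 k)) hA p q)).sub
    (((jt (jm hA (c (sm_tm hs h0 k)))).div_const 2).mul (hA p q)),
    ((h4 p q).const_smul (1 / 2 : ℝ)).sub (((jt h4).div_const 2).mul (hA p q))⟩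

end

end N53

open N53

theorem st_NLM (hLI : St_NLI) : St_NLM := by
  intro n l u h c ρ C hu hh h1 h2
  have h0 := fun z hz => (hh z hz).2.det_pos.ne'
  have hm : ∀ {T : E n → Mat n}, (∀ z ∈ ball c ρ, SmM T z) → ∀ p q,
      AEMeasurable (fun z => ‖T z p q‖ₑ) (volume.restrict (ball c ρ)) := fun hT p q =>
    (ContinuousOn.aemeasurable (fun z hz => (hT z hz p q).continuousAt.continuousWithinAt)
      measurableSet_ball).enorm
  obtain ⟨U, a1, a2⟩ := hLI n (Fin n → Fin n → ℂ) l (fun i w p q => u i w p q)
    (fun y => ps (fun k => zr h k y.1 (Matrix.of y.2)) fun k => zb h k y.1 (Matrix.of y.2)) c ρ |C|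
    (fun i z hz => ⟨(cd_of (hu i z hz).1).of_le (by simp),
      (pi_norm_le_iff_of_nonneg (abs_nonneg C)).2 fun p =>
        (pi_norm_le_iff_of_nonneg (abs_nonneg C)).2 fun q =>
          ((hu i z hz).2 p q).trans (le_abs_self C)⟩)
    (fun z hz x => ContDiffOn.contDiffAt (s := ball c ρ ×ˢ univ)
      (contDiffOn_clm_apply.2 fun v y hy => ContDiffAt.contDiffWithinAt
        (contDiffAt_pi.2 fun p => contDiffAt_pi.2 fun q => by
          refine ContDiffAt.sum (s := Finset.univ)
            (f := fun k (y : E n × (Fin n → Fin n → ℂ)) =>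
              zr h k y.1 (Matrix.of y.2) p q * v k + zb h k y.1 (Matrix.of y.2) p q * star (v k))
            fun k _ => ?_
          obtain ⟨b1, b2⟩ := jz (π := Prod.fst) (A := fun y => Matrix.of y.2) contDiffAt_fst
            (fun p q => contDiffAt_pi.1 (contDiffAt_pi.1 contDiffAt_snd p) q) (hh _ hy.1).1
            (h0 _ hy.1) k p q
          exact (b1.mul contDiffAt_const).add (b2.mul contDiffAt_const)))
      ((isOpen_ball.prod isOpen_univ).mem_nhds ⟨hz, trivial⟩))
    (by
      have j := fun i k z hz => jz (π := id) (A := u i) contDiffAt_id (hu i z hz).1 (hh z hz).1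
        (h0 z hz) k
      have m1 := fun i k => hm (T := fun z => dM k (u i) z - zr h k z (u i z))
        fun z hz => ((hu i z hz).1.dM k).sub fun p q => (j i k z hz p q).1
      have m2 := fun i k => hm (T := fun z => dMb k (u i) z - zb h k z (u i z))
        fun z hz => ((hu i z hz).1.dMb k).sub fun p q => (j i k z hz p q).2
      have t := (sum0 fun p => sum0 fun q => sum0 (μ := volume.restrict (ball c ρ)) (l := l)
        (f := fun k i z => ‖(dM k (u i) z - zr h k z (u i z)) p q‖ₑ +
          ‖(dMb k (u i) z - zb h k z (u i z)) p q‖ₑ) fun k =>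
            ⟨fun i => (m1 i k p q).add (m2 i k p q),
            by simpa only [add_zero, ← lintegral_add_left' (m1 _ _ _ _)] using
              (h1 k p q).add (h2 k p q)⟩).2
      refine tendsto_of_tendsto_of_tendsto_of_le_of_le tendsto_const_nhds t (fun _ => zero_le)
        fun i => ?_
      refine setLIntegral_mono' measurableSet_ball fun z hz => ?_
      rw [← ofReal_norm]
      refine (ENNReal.ofReal_le_ofReal (norm_ps (hu i z hz).1 _ _)).trans (le_of_eq ?_)
      rw [ENNReal.ofReal_sum_of_nonneg fun _ _ => by positivity]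
      refine Finset.sum_congr rfl fun p _ => ?_
      rw [ENNReal.ofReal_sum_of_nonneg fun _ _ => by positivity]
      refine Finset.sum_congr rfl fun q _ => ?_
      rw [ENNReal.ofReal_sum_of_nonneg fun _ _ => by positivity]
      refine Finset.sum_congr rfl fun k _ => ?_
      rw [ENNReal.ofReal_add (norm_nonneg _) (norm_nonneg _), ofReal_norm, ofReal_norm]
      rfl)
  refine ⟨fun z => Matrix.of (U z), fun z hz => ⟨fun p q =>
    contDiffAt_pi.1 (contDiffAt_pi.1 (a1 z hz).1 p) q, ?_⟩, fun K k1 k2 p q => ?_⟩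
  · have e : ∀ v p q, fderiv ℝ (fun w => U w p q) z v =
        ∑ j, (zr h j z (Matrix.of (U z)) p q * v j +
          zb h j z (Matrix.of (U z)) p q * star (v j)) := fun v p q => by
      rw [← fd_ent (a1 z hz).2.differentiableAt, (a1 z hz).2.fderiv]
      rfl
    refine ⟨fun k => ?_, fun k => ?_⟩
    · ext p q
      simp only [dM, dz, Matrix.of_apply, e, Pi.single_apply, apply_ite star, star_one, star_zero,
        mul_ite, mul_zero, Finset.sum_add_distrib, Finset.sum_ite_eq', Finset.mem_univ, if_true,
        RCLike.star_def, conj_I]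
      linear_combination (-(zr h k z (Matrix.of (U z)) p q) / 2 +
        zb h k z (Matrix.of (U z)) p q / 2) * I_mul_I
    · ext p q
      simp only [dMb, dzb, Matrix.of_apply, e, Pi.single_apply, apply_ite star, star_one, star_zero,
        mul_ite, mul_zero, Finset.sum_add_distrib, Finset.sum_ite_eq', Finset.mem_univ, if_true,
        RCLike.star_def, conj_I]
      linear_combination ((zr h k z (Matrix.of (U z)) p q) / 2 -
        zb h k z (Matrix.of (U z)) p q / 2) * I_mul_I
  · refine tendsto_of_tendsto_of_tendsto_of_le_of_le tendsto_const_nhds (a2 K k1 k2)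
      (fun _ => zero_le) fun i => lintegral_mono fun z => ?_
    rw [← ofReal_norm, ← ofReal_norm]
    exact ENNReal.ofReal_le_ofReal ((norm_le_pi_norm _ q).trans
      (norm_le_pi_norm ((fun p q => u i z p q : Fin n → Fin n → ℂ) - U z) p))

end Pool.Agent.Lib.HN
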