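import Pool.Agent.Lib.HN.Blue
import Pool.Agent.Lib.TB.B_TLO
import Pool.Agent.Lib.TB.B_TDB

/-! Project hn81: the local smooth limit of the normalized fields. -/

open scoped Classical Topology ContDiff ComplexOrder Matrix ENNReal
open Set MeasureTheory Complex Metric Filter

noncomputable section

namespace Pool.Agent.Lib.HN

open Pool.Agent.Lib.SV (E)
open Pool.Agent.Lib.HS32 Pool.Agent.Lib.HS.Locp Pool.Agent.Lib.TB

namespace N95

theorem tr_bd {n : ℕ} {T : Fin n → E n → Mat n} {K : Set (E n)} (hK : IsCompact K)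
    (hT : ∀ m, ∀ z ∈ K, SmM (T m) z) {C : ℝ} (hC : 0 ≤ C) : ∃ D : ℝ, 0 ≤ D ∧ ∀ z ∈ K, ∀ m,
      ∀ A : Mat n, (∀ i j, ‖A i j‖ ≤ C) → ∀ i j, ‖(A * T m z).trace / 2 * A i j‖ ≤ D := by
  have hc : ContinuousOn (fun z => ∑ m, ∑ i, ∑ j, ‖T m z j i‖) K := fun z hz =>
    (tendsto_finsetSum _ fun m _ => tendsto_finsetSum _ fun i _ => tendsto_finsetSum _
      fun j _ => (hT m z hz j i).continuousAt.continuousWithinAt.norm)
  obtain ⟨D, hD⟩ := hK.exists_bound_of_continuousOn hc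
  refine ⟨C * |D| * C, by positivity, fun z hz m A hA i j => ?_⟩
  rw [norm_mul]
  refine mul_le_mul ?_ (hA i j) (norm_nonneg _) (by positivity)
  have h1 : ‖(A * T m z).trace‖ ≤ C * ∑ i, ∑ j, ‖T m z j i‖ := by
    rw [Matrix.trace, Finset.mul_sum]
    refine norm_sum_le_of_le _ fun p _ => ?_
    rw [Matrix.diag_apply, Matrix.mul_apply, Finset.mul_sum]
    refine norm_sum_le_of_le _ fun q _ => ?_
    rw [norm_mul]
    exact mul_le_mul_of_nonneg_right (hA p q) (norm_nonneg _)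
  have h2 : ∑ i, ∑ j, ‖T m z j i‖ ≤ |D| :=
    (Finset.single_le_sum (f := fun m => ∑ i, ∑ j, ‖T m z j i‖) (fun _ _ => by positivity)
      (Finset.mem_univ m)).trans (((Real.le_norm_self _).trans (hD z hz)).trans (le_abs_self D))
  rw [norm_div, Complex.norm_ofNat]
  have h3 := mul_le_mul_of_nonneg_left h2 hC
  have h4 := norm_nonneg (A * T m z).trace
  linarith

theorem cut2 {d p w v : ℂ} {s r C γ τ x y D : ℝ} (s0 : 0 ≤ s) (s1 : s ≤ 1)
    (hr : 0 < r) (hC : 0 ≤ C) (hτ : 0 ≤ τ) (hy : 0 ≤ y) (hx : x ≤ y) (h1 : ‖d‖ ^ 2 ≤ C * γ)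
    (h2 : ‖p‖ ≤ C) (h3 : ‖w‖ ^ 2 ≤ C * (τ * x)) (h4 : ‖v‖ ≤ D) :
    ‖d * p + s * w - (s * (1 - s) : ℝ) * v‖ ≤
      C * √C * √γ + (τ / r + r * (C * (s * y))) + D * (1 - s) := by
  refine (norm_sub_le _ _).trans (add_le_add (T18.cut s0 s1 hr hC hτ hy hx h1 h2 h3) ?_)
  have h5 : 0 ≤ 1 - s := sub_nonneg.2 s1
  rw [norm_mul, Complex.norm_real, Real.norm_of_nonneg (mul_nonneg s0 h5), mul_comm D]
  exact mul_le_mul (mul_le_of_le_one_left h5 s1) h4 (norm_nonneg _) h5

end N95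

theorem st_NLO (hLM : St_NLM) (hDB : St_NDB) (hYE : St_NYE) : St_NLO := by
  intro n M _ H B h C g ε f l hK hh hr hs hl e he c ρ hcρ
  have hM : M.Met H := hK.toMet
  have hcont : ∀ f : M.X → ℝ, M.Sm f → Continuous f := fun f => ((mTR n M).2.2.2.1 ℝ f).1
  have hint : ∀ f : M.X → ℝ, Continuous f → Integrable f (M.mu H) :=
    (mMU n M H hM).2.2.2.2.1 ℝ
  have hε : ∀ a, 0 < ε a := fun a => (hs.eps a).1
  obtain ⟨Ca, hCa, hda, -⟩ := st_TDB n M H h hM hh C e he _ (isCompact_closedBall c ρ) hcρ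
  obtain ⟨hEn, hdb⟩ := hDB n M H h hM hh
  obtain ⟨Cb, hCb, hdb⟩ := hdb e he _ (isCompact_closedBall c ρ) hcρ
  obtain ⟨C4, hC4, hc⟩ := chart_le mMU mBD hM he (isCompact_closedBall c ρ) hcρ
  obtain ⟨hcl, hcl'⟩ := hYE n M h hh
  obtain ⟨-, hwx, hyp⟩ := hcl' hr
  have ht0 : ∀ a x, 0 ≤ M.tr H (g a) x := fun a x => by
    obtain ⟨h1, h2⟩ := (mTR n M).1 x
    exact HS76.tr_nonneg (hM.pos _ h1 _ ((M.ch x).map_source h2))
      ((hs.kae a).pos _ h1 _ ((M.ch x).map_source h2)).posSemidef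
  obtain ⟨C1, hC1, ha1, hb1⟩ : ∃ C1, 0 < C1 ∧ Ca ≤ C1 ∧ Cb ≤ C1 :=
    ⟨Ca + Cb, by positivity, by linarith, by linarith⟩
  have up : ∀ {x y A : ℝ}, 0 < A → A ≤ C1 → x ^ 2 ≤ A * y → x ^ 2 ≤ C1 * y := fun h0 h1 h2 =>
    h2.trans (mul_le_mul_of_nonneg_right h1
      (nonneg_of_mul_nonneg_right ((sq_nonneg _).trans h2) h0))
  have hd := fun a => hdb (g a) (ε a) (hs.kae a) (hε a)
  have hz1 : ∀ a, ∀ z ∈ closedBall c ρ, ∀ i j, ‖M.zE (g a) h (ε a) e z i j‖ ≤ C1 :=
    fun a z hz i j => (hd a z hz i j).1.trans hb1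
  set η : ℕ → ℝ := fun a => ∫ x, f a x * (ε a * M.y0 (g a) h x) ∂M.mu H with hη
  have hτ0 : Tendsto (fun a => |η a| + ε a) l (𝓝 0) := by
    simpa using (hs.fy.abs.add hs.e0).mono_left hl
  obtain ⟨r, hr1, hr2, hr3⟩ := slow (l := l)
    (fun a => add_pos_of_nonneg_of_pos (abs_nonneg (η a)) (hε a)) hτ0 fun r => r
  have hr0 : ∀ a, 0 < r a := fun a => one_pos.trans_le (hr1 a)
  have hsf : ∀ a, ∀ z ∈ closedBall c ρ, ContDiffAt ℝ ∞ (M.lc (f a) e) z :=
    fun a z hz => cd_ofReal (hs.fs a e he z (hcρ hz))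
  have hsh : ∀ z ∈ closedBall c ρ, SmM (h e) z := fun z hz => hh.sm e he z (hcρ hz)
  have hdh : ∀ z ∈ closedBall c ρ, (h e z).det ≠ 0 :=
    fun z hz => (hh.pos e he z (hcρ hz)).det_pos.ne'
  have hsp : ∀ a, ∀ z ∈ closedBall c ρ, SmM (M.zE (g a) h (ε a) e) z := fun a z hz =>
    (hEn _ _ (hs.kae a).toMet (hε a)).1.sm e he z (hcρ hz)
  obtain ⟨D1, hD1, hm1⟩ := N95.tr_bd (T := tm (h e)) (isCompact_closedBall c ρ)
    (fun m z hz => T18.sm_tm (hsh z hz) (hdh z hz) m) hC1.le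
  obtain ⟨D2, hD2, hm2⟩ := N95.tr_bd (T := tc (h e)) (isCompact_closedBall c ρ)
    (fun m z hz => (((hsh z hz).inv (hdh z hz)).mul
      (T18.sm_tm (hsh z hz) (hdh z hz) m).ct).mul (hsh z hz)) hC1.le
  have hcf : ∀ a, Continuous (f a) := fun a => hcont _ (hs.fs a)
  have hy0 : ∀ a x, 0 ≤ ε a * M.y0 (g a) h x := fun a x =>
    mul_nonneg (hε a).le (hyp _ (hs.kae a) x)
  have hey : ∀ a, ∀ z ∈ closedBall c ρ,
      ε a * es (g a e) (h e) z ≤ ε a * M.y0 (g a) h (e.symm z) := fun a z hz => by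
    refine mul_le_mul_of_nonneg_left ?_ (hε a).le
    obtain ⟨y1, y2⟩ := (hcl _ (hs.kae a)).2 e he z (hcρ hz)
    have y3 := hwx e he z (hcρ hz) _ ((hs.kae a).pos e he z (hcρ hz)).inv.posSemidef
    linarith
  let Q : ℕ → E n → Mat n := fun a z => M.lc (f a) e z • M.zE (g a) h (ε a) e z
  have est1 : ∀ (D : ℕ → E n → ℂ) (D0 : ℝ), 0 ≤ D0 → (∀ a, ∀ z ∈ closedBall c ρ, ‖D a z‖ ≤
      C1 * √C1 * √(M.gr H (f a) (f a) (e.symm z)) + (M.tr H (g a) (e.symm z) / r a +
        r a * (C1 * (f a (e.symm z) * (ε a * M.y0 (g a) h (e.symm z))))) +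
        D0 * (1 - f a (e.symm z))) →
      Tendsto (fun a => ∫⁻ z in ball c ρ, ‖D a z‖ₑ) l (𝓝 0) := by
    intro D D0 hD0 hD
    have lim : Tendsto (fun a => ENNReal.ofReal (C4 * (C1 * √C1 *
        (∫ x, √(M.gr H (f a) (f a) x) ∂M.mu H) +
        (C * (r a)⁻¹ + C1 * (r a * (|η a| + ε a))) + D0 * ∫ x, (1 - f a x) ∂M.mu H))) l (𝓝 0) := by
      have := ENNReal.tendsto_ofReal (((((hs.df.mono_left hl).const_mul (C1 * √C1)).add
        ((hr2.const_mul C).add (hr3.const_mul C1))).add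
        ((hs.f1.mono_left hl).const_mul D0)).const_mul C4)
      simpa using this
    refine tendsto_of_tendsto_of_tendsto_of_le_of_le tendsto_const_nhds lim (fun _ => zero_le)
      fun a => (lintegral_mono_set ball_subset_closedBall).trans ?_
    obtain ⟨-, hg1, -⟩ := (mLAP n M _ _ (hs.fs a) (hs.fs a)).2.2 H hM
    have hy1 : M.Sm (M.y0 (g a) h) := (hcl _ (hs.kae a)).1
    have c0 := hcf a
    have c1 : Continuous fun x => √(M.gr H (f a) (f a) x) := (hcont _ hg1).sqrt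
    have c2 : Continuous fun x => f a x * (ε a * M.y0 (g a) h x) :=
      (hcf a).mul (continuous_const.mul (hcont _ hy1))
    have c3 : Continuous (M.tr H (g a)) := hcont _ ((mINV n M H hM).1 _ (hs.kae a).toTen).2.1
    have hra := hr0 a
    refine (hc (fun x => C1 * √C1 * √(M.gr H (f a) (f a) x) +
        (M.tr H (g a) x / r a + r a * (C1 * (f a x * (ε a * M.y0 (g a) h x)))) +
        D0 * (1 - f a x)) _
      (by fun_prop) (fun x => by
        have := ht0 a x; have := hy0 a x; have := (hs.f01 a x).1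
        have := sub_nonneg.2 (hs.f01 a x).2; positivity) (hD a)).trans
      (ENNReal.ofReal_le_ofReal (mul_le_mul_of_nonneg_left ?_ hC4))
    rw [integral_add (hint _ (by fun_prop)) (hint _ (by fun_prop)),
      integral_add (hint _ (by fun_prop)) (hint _ (by fun_prop)), integral_const_mul,
      integral_add (hint _ (by fun_prop)) (hint _ (by fun_prop)), integral_div,
      integral_const_mul, integral_const_mul, integral_const_mul]
    have i1 := hs.trc a
    have i2 : η a ≤ |η a| + ε a := (le_abs_self _).trans (le_add_of_nonneg_right (hε a).le)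
    refine add_le_add (add_le_add le_rfl (add_le_add ?_ ?_)) le_rfl
    · rw [div_eq_mul_inv]; gcongr
    · calc _ ≤ r a * (C1 * (|η a| + ε a)) := by gcongr
        _ = _ := by ring
  have est2 : ∀ i j, Tendsto (fun a => ∫⁻ z in closedBall c ρ,
      ‖M.zE (g a) h (ε a) e z i j - Q a z i j‖ₑ) l (𝓝 0) := by
    intro i j
    have lim : Tendsto (fun a => ENNReal.ofReal (C4 * (C1 * ∫ x, (1 - f a x) ∂M.mu H))) l
        (𝓝 0) := by
      have := ENNReal.tendsto_ofReal (((hs.f1.mono_left hl).const_mul C1).const_mul C4)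
      simpa using this
    refine tendsto_of_tendsto_of_tendsto_of_le_of_le tendsto_const_nhds lim (fun _ => zero_le)
      fun a => ?_
    have := hcf a
    refine (hc (fun x => C1 * (1 - f a x)) _ (by fun_prop)
      (fun x => mul_nonneg hC1.le (sub_nonneg.2 (hs.f01 a x).2)) fun z hz => ?_).trans
      (by rw [integral_const_mul])
    have e1 : M.zE (g a) h (ε a) e z i j - Q a z i j =
        M.zE (g a) h (ε a) e z i j * ((1 - f a (e.symm z) : ℝ) : ℂ) := by
      simp only [Q, Mf.lc, Matrix.smul_apply, smul_eq_mul]; push_cast; ring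
    have h1 := sub_nonneg.2 (hs.f01 a (e.symm z)).2
    rw [e1, norm_mul, Complex.norm_real, Real.norm_of_nonneg h1]
    exact mul_le_mul_of_nonneg_right (hz1 a z hz i j) h1
  have hQ : ∀ a, ∀ z ∈ closedBall c ρ, SmM (Q a) z :=
    fun a z hz => SmM.smul (hsf a z hz) (hsp a z hz)
  obtain ⟨P, hP1, hP3⟩ := hLM n l Q (h e) c ρ C1
    (fun a z hz => ⟨hQ a z (ball_subset_closedBall hz), fun i j => by
      have h1 := hs.f01 a (e.symm z)
      simp only [Q, Mf.lc, Matrix.smul_apply, smul_eq_mul]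
      rw [norm_mul, Complex.norm_real, Real.norm_of_nonneg h1.1]
      exact (mul_le_of_le_one_left (norm_nonneg _) h1.2).trans
        (hz1 a z (ball_subset_closedBall hz) i j)⟩)
    (fun z hz => ⟨hsh z (ball_subset_closedBall hz),
      hh.pos e he z (hcρ (ball_subset_closedBall hz))⟩)
    (fun m i j => est1 _ D1 hD1 fun a z hz => by
      refine le_of_eq_of_le ?_ (N95.cut2 (hs.f01 a _).1 (hs.f01 a _).2 (hr0 a) hC1.le (ht0 a _)
        (hy0 a _) (hey a z hz) (up hCa ha1 (hda _ (hs.fs a) z hz m).1) (hz1 a z hz i j)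
        (up hCb hb1 ((hd a z hz i j).2 m).1)
        (hm1 z hz m _ (hz1 a z hz) i j))
      congr 1
      simp only [Q, zr]
      rw [dM_smul (cd_diff (hsf a z hz)) (hsp a z hz), Matrix.smul_mul, Matrix.mul_smul,
        Matrix.smul_mul, Matrix.trace_smul]
      simp only [Mf.lc, Matrix.sub_apply, Matrix.add_apply, Matrix.smul_apply, smul_eq_mul]
      push_cast
      ring)
    (fun m i j => est1 _ D2 hD2 fun a z hz => by
      refine le_of_eq_of_le ?_ (N95.cut2 (hs.f01 a _).1 (hs.f01 a _).2 (hr0 a) hC1.le (ht0 a _)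
        (hy0 a _) (hey a z hz) (up hCa ha1 (hda _ (hs.fs a) z hz m).2) (hz1 a z hz i j)
        (up hCb hb1 ((hd a z hz i j).2 m).2)
        (hm2 z hz m _ (hz1 a z hz) i j))
      congr 1
      simp only [Q, zb]
      rw [dMb_smul (cd_diff (hsf a z hz)) (hsp a z hz), Matrix.smul_mul, Matrix.trace_smul]
      simp only [Mf.lc, Matrix.sub_apply, Matrix.add_apply, Matrix.smul_apply, smul_eq_mul,
        real_smul]
      push_cast
      ring)
  refine ⟨P, hP1, fun K hKc hKb i j => ?_⟩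
  have hKs : K ⊆ closedBall c ρ := hKb.trans ball_subset_closedBall
  have hPc : ContinuousOn (fun z => P z i j) K := fun z hz =>
    ((hP1 z (hKb hz)).1 i j).continuousAt.continuousWithinAt
  have t1 : Tendsto (fun a => ∫⁻ z in K, ‖M.zE (g a) h (ε a) e z i j - P z i j‖ₑ) l (𝓝 0) := by
    have := (est2 i j).add (hP3 K hKc hKb i j)
    rw [add_zero] at this
    refine tendsto_of_tendsto_of_tendsto_of_le_of_le tendsto_const_nhds this (fun _ => zero_le)
      fun a => ?_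
    have hm : AEMeasurable (fun z => ‖Q a z i j - P z i j‖ₑ) (volume.restrict K) :=
      (ContinuousOn.aestronglyMeasurable (ContinuousOn.sub
        (fun z hz => (hQ a z (hKs hz) i j).continuousAt.continuousWithinAt) hPc)
        hKc.measurableSet).enorm
    calc _ ≤ ∫⁻ z in K, (‖M.zE (g a) h (ε a) e z i j - Q a z i j‖ₑ + ‖Q a z i j - P z i j‖ₑ) :=
          lintegral_mono fun z => by
            rw [← sub_add_sub_cancel _ (Q a z i j)]; exact enorm_add_le _ _
      _ = _ := lintegral_add_right' _ hm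
      _ ≤ _ := add_le_add (lintegral_mono_set hKs) le_rfl
  refine ((ENNReal.tendsto_toReal ENNReal.zero_ne_top).comp t1).congr fun a => ?_
  have hm : AEStronglyMeasurable (fun z => M.zE (g a) h (ε a) e z i j - P z i j)
      (volume.restrict K) :=
    ContinuousOn.aestronglyMeasurable (ContinuousOn.sub
      (fun z hz => (hsp a z (hKs hz) i j).continuousAt.continuousWithinAt) hPc) hKc.measurableSet
  have := (integral_norm_eq_lintegral_enorm hm).symm
  simp only [Function.comp, this]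
  simp only [Matrix.sub_apply]

end Pool.Agent.Lib.HN
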