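import Pool.Agent.Lib.HN.Blue
import Pool.Agent.Lib.TB.B_TM1
import Pool.Agent.Lib.RB.B_RC1

/-! Project hn81: convergence of mean values; the limit is neither zero nor infinite. -/

open scoped Classical Topology ContDiff ComplexOrder Matrix
open Set MeasureTheory Complex Metric Filter

noncomputable section

namespace Pool.Agent.Lib.HN

open Pool.Agent.Lib.SV (E)
open Pool.Agent.Lib.HS32 Pool.Agent.Lib.HS32.Mf Pool.Agent.Lib.RB Pool.Agent.Lib.TB
open Pool.Agent.Lib.RB.M51 Pool.Agent.Lib.TB.T10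

namespace N18

variable {n : ℕ} {M : Mf n} {h G A Z R : M.Fam (Mat n)}

theorem end_sub (hA : M.End A) (hZ : M.End Z) : M.End fun e z => A e z - Z e z :=
  ⟨fun e he z hz => (hA.sm e he z hz).sub (hZ.sm e he z hz), fun e he e' he' x hx hx' => by
    beta_reduce
    rw [Matrix.mul_sub, Matrix.sub_mul, hA.cmp e he e' he' x hx hx', hZ.cmp e he e' he' x hx hx']⟩

theorem end_one : M.End fun _ _ => 1 :=
  ⟨fun _ _ _ _ => smM_const _, fun _ _ _ _ _ _ _ => (Matrix.mul_one _).trans (Matrix.one_mul _).symm⟩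

/-- The trace of a product of two fields of endomorphisms is a smooth function. -/
theorem tr_inv (hh : M.Met h) (hA : M.End A) (hR : M.End R) :
    M.Sm (fun x => (M.ev A x * M.ev R x).trace) ∧
      M.Rep (fun x => (M.ev A x * M.ev R x).trace) fun e z => (A e z * R e z).trace := by
  have hI := mINV n M h hh
  have h1 := (hI.1 _ (hI.2.2.1 _ _ (hI.2.2.2.2.2.1 A hA) (hI.2.2.2.2.2.1 R hR)).2.2).2.2.2.2.1
  have h2 : M.All fun e z => (h e z)⁻¹ * (h e z * A e z * (h e z)⁻¹ * (h e z * R e z)) =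
      A e z * R e z := fun e he z hz => by
    have u := (hh.det_ne e he z hz).isUnit
    beta_reduce
    rw [Matrix.mul_assoc (h e z * A e z), Matrix.nonsing_inv_mul_cancel_left _ _ u,
      Matrix.mul_assoc, Matrix.nonsing_inv_mul_cancel_left _ _ u]
  have h3 : M.Inv fun e z => (A e z * R e z).trace := fun e he e' he' x hx hx' => by
    have := h1 e he e' he' x hx hx'
    beta_reduce at this ⊢
    rwa [AllOn.at h2 he hx, AllOn.at h2 he' hx'] at this
  exact ⟨h3.sm fun e he z hz => ((hA.sm e he z hz).mul (hR.sm e he z hz)).trace, h3.rep⟩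

variable [M.Cpt]

theorem mn_le (hG : M.Met G) {u v w : M.X → ℝ} (cu : Continuous u) (cv : Continuous v)
    (cw : Continuous w) (a b c : ℝ) (hl : ∀ x, u x ≤ a + b * v x + c * w x) :
    M.mn G u ≤ a + b * M.mn G v + c * M.mn G w := by
  obtain ⟨-, hfin, -, v0, hint, -⟩ := mMU n M G hG
  have i1 := (hint ℝ _ cv).const_mul b
  have i2 := (hint ℝ _ cw).const_mul c
  have i3 : Integrable (fun x => a + b * v x) (M.mu G) := (integrable_const a).add i1
  have h1 := integral_mono (hint ℝ _ cu) (i3.add i2) hl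
  simp only [Pi.add_apply] at h1
  rw [integral_add i3 i2, integral_add (integrable_const a) i1, integral_const_mul,
    integral_const_mul, integral_const, smul_eq_mul] at h1
  have v1 : 0 < M.vv G := v0
  refine (div_le_div_of_nonneg_right h1 v1.le).trans_eq ?_
  rw [mn, mn, ← vv]
  field_simp

/-- Convergence in the mean of the traces. -/
theorem int_b (hh : M.Met h) {l : Filter ℕ} {A : ℕ → M.Fam (Mat n)} (hA : ∀ a, M.End (A a))
    (hZ : M.End Z) (hR : M.End R) (hL : M.L1c h l A Z) :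
    Tendsto (fun a => ∫ x, ‖((M.ev (A a) x - M.ev Z x) * M.ev R x).trace‖ ∂M.mu h) l (𝓝 0) := by
  obtain ⟨-, -, ⟨V, -⟩, -⟩ := mCOV n M
  obtain ⟨-, hfin, -, -, hint, -, -⟩ := mMU n M h hh
  have hB : ∀ a, closedBall (V.c a) (V.ρ a) ⊆ (V.e a).target := fun a =>
    (closedBall_subset_closedBall (by linarith [V.pos a])).trans (V.sub a)
  let K : Fin V.r → Set M.X := fun a => (V.e a).symm '' closedBall (V.c a) (V.ρ a)
  have hKc : ∀ a, IsCompact (K a) := fun a =>
    (isCompact_closedBall _ _).image_of_continuousOn ((V.e a).continuousOn_symm.mono (hB a))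
  have hKs : ∀ a, K a ⊆ (V.e a).source := fun a => by
    rintro _ ⟨w, hw, rfl⟩
    exact (V.e a).map_target (hB a hw)
  have lip : ∀ a, ∃ L : ℝ, 0 ≤ L ∧ ∀ z ∈ closedBall (V.c a) (V.ρ a), ∀ A : Mat n,
      ‖(A * R (V.e a) z).trace‖ ≤ L * ∑ p, ∑ q, ‖A p q‖ := fun a => by
    obtain ⟨r, b⟩ := ent_bd hR (V.mem a) (isCompact_closedBall _ _) (hB a)
    exact ⟨max r 0, le_max_right _ _, fun z hz A =>
      tr_lip A _ fun p q => le_max_of_le_left (b z hz p q)⟩
  choose L hL0 lip using lip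
  have lim : Tendsto (fun i => ∑ a, L a * ∑ p, ∑ q, ∫ x in K a,
      ‖(A i (V.e a) (V.e a x) - Z (V.e a) (V.e a x)) p q‖ ∂M.mu h) l (𝓝 0) := by
    have := tendsto_finsetSum Finset.univ fun a _ => (tendsto_finsetSum Finset.univ
      fun i _ => tendsto_finsetSum Finset.univ fun j _ =>
        hL _ (V.mem a) _ (hKc a) (hKs a) i j).const_mul (L a)
    simpa only [Finset.sum_const_zero, mul_zero] using this
  refine squeeze_zero (fun i => integral_nonneg fun x => norm_nonneg _) (fun i => ?_) lim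
  obtain ⟨t2, t1⟩ := tr_inv hh (end_sub (hA i) hZ) hR
  have di : ∀ a p q, IntegrableOn (fun x =>
      ‖(A i (V.e a) (V.e a x) - Z (V.e a) (V.e a x)) p q‖) (K a) (M.mu h) := fun a p q => by
    refine ContinuousOn.integrableOn_compact (hKc a) fun x hx => ?_
    have hx' := (V.e a).map_source (hKs a hx)
    exact (((((hA i).sm _ (V.mem a) _ hx').sub (hZ.sm _ (V.mem a) _ hx')) p q).continuousAt.comp
      ((V.e a).continuousAt (hKs a hx))).norm.continuousWithinAt
  let w : Fin V.r → M.X → ℝ := fun a x => L a * ∑ p, ∑ q,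
    ‖(A i (V.e a) (V.e a x) - Z (V.e a) (V.e a x)) p q‖
  have gi : ∀ a, Integrable ((K a).indicator (w a)) (M.mu h) := fun a =>
    (integrable_indicator_iff (hKc a).measurableSet).2 ((integrable_finsetSum _ fun i _ =>
      integrable_finsetSum _ fun j _ => di a i j).const_mul _)
  have g0 : ∀ a x, 0 ≤ (K a).indicator (w a) x := fun a =>
    indicator_nonneg fun x _ => mul_nonneg (hL0 a) (by positivity)
  have e2 : (∑ a, L a * ∑ p, ∑ q, ∫ x in K a,
      ‖(A i (V.e a) (V.e a x) - Z (V.e a) (V.e a x)) p q‖ ∂M.mu h) =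
      ∫ x, ∑ a, (K a).indicator (w a) x ∂M.mu h := by
    rw [integral_finsetSum _ fun a _ => gi a]
    refine Finset.sum_congr rfl fun a _ => ?_
    rw [integral_indicator (hKc a).measurableSet, integral_const_mul,
      integral_finsetSum _ fun i _ => integrable_finsetSum _ fun j _ => di a i j]
    exact congrArg _ (Finset.sum_congr rfl fun i _ =>
      (integral_finsetSum _ fun j _ => di a i j).symm)
  rw [e2]
  refine integral_mono (hint ℝ _ t2.continuous.norm) (integrable_finsetSum _ fun a _ => gi a)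
    fun x => ?_
  obtain ⟨a, hx, hb, -⟩ := V.cov x
  have hz := ball_subset_closedBall hb
  refine le_trans ?_ (Finset.single_le_sum (fun a _ => g0 a x) (Finset.mem_univ a))
  rw [indicator_of_mem (show x ∈ K a from ⟨_, hz, (V.e a).left_inv hx⟩)]
  exact (congrArg norm (t1.at (V.mem a) hx)).trans_le (lip a _ hz _)

/-- The uniform bound. -/
theorem bd (hDB : St_NDB) {H : M.Fam (Mat n)} (hH : M.Met H) (hh : M.Met h) (hR : M.End R) :
    ∃ D : ℝ, ∀ G (ε : ℝ), M.Kae G → 0 < ε → ∀ x,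
      ‖(M.ev (M.zE G h ε) x * M.ev R x).trace‖ ≤ D := by
  obtain ⟨-, -, ⟨V, -⟩, -⟩ := mCOV n M
  obtain ⟨d1, d2⟩ := hDB n M H h hH hh
  have hB : ∀ a, closedBall (V.c a) (V.ρ a) ⊆ (V.e a).target := fun a =>
    (closedBall_subset_closedBall (by linarith [V.pos a])).trans (V.sub a)
  choose C _ hC using fun a => d2 _ (V.mem a) _ (isCompact_closedBall _ _) (hB a)
  choose r hr using fun a => ent_bd hR (V.mem a) (isCompact_closedBall _ _) (hB a)
  obtain ⟨D, hD⟩ := (finite_range fun a => max (r a) 0 * ∑ _p : Fin n, ∑ _q : Fin n, C a).bddAbove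
  refine ⟨D, fun G ε hG hε x => ?_⟩
  obtain ⟨a, hx, hb, -⟩ := V.cov x
  have hz := ball_subset_closedBall hb
  refine (congrArg norm ((tr_inv hh (d1 G ε hG.toMet hε).1 hR).2.at (V.mem a) hx)).trans_le
    (((tr_lip (r := max (r a) 0) _ _ fun p q => le_max_of_le_left (hr a _ hz p q)).trans ?_).trans
      (hD (mem_range_self a)))
  exact mul_le_mul_of_nonneg_left (Finset.sum_le_sum fun p _ => Finset.sum_le_sum fun q _ =>
    (hC a G ε hG hε _ hz p q).1) (le_max_right _ _)

theorem mn_b {H : M.Fam (Mat n)} (hH : M.Met H) (hh : M.Met h) (gm : M.Met G) {b : M.X → ℝ}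
    {C D D₀ : ℝ} (hC : 0 ≤ C) (b0 : ∀ x, ‖M.dq h H x‖ ≤ D₀) (cb : Continuous b)
    (b00 : ∀ x, 0 ≤ b x) (bb : ∀ x, b x ≤ D) :
    M.mn G b ≤ C * D₀ * ∫ x, b x ∂M.mu h + D * ∫ x, max (M.dn H G x - C) 0 ∂M.mu H := by
  obtain ⟨-, hfin, -, -, hint, -, hmu⟩ := mMU n M h hh
  obtain ⟨-, -, -, -, Hint, -, Hmu⟩ := mMU n M H hH
  have sd := ((mINV n M h hh).1 H hH.toTen).2.2.2.1
  have cm : Continuous (M.dn H G) :=
    (((mINV n M H hH).1 _ gm.toTen).2.2.2.1.continuous).div_const _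
  have i1 := (Hint ℝ _ cb).const_mul C
  have i2 : Integrable (fun x => D * max (M.dn H G x - C) 0) (M.mu H) :=
    (Hint ℝ _ ((cm.sub continuous_const).max continuous_const)).const_mul _
  have h1 : ∫ x, M.dn H G x * b x ∂M.mu H ≤ _ :=
    integral_mono (Hint ℝ _ (cm.mul cb)) (i1.add i2) fun x => by
      have a1 := mul_le_mul_of_nonneg_right (le_max_left (M.dn H G x - C) 0) (b00 x)
      have a2 := mul_le_mul_of_nonneg_left (bb x) (le_max_right (M.dn H G x - C) 0)
      simp only [Pi.add_apply]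
      linarith
  simp only [Pi.add_apply] at h1
  rw [integral_add i1 i2, integral_const_mul, integral_const_mul, (hmu H hH).2.1 b] at h1
  have h2 : ∫ x, M.dq h H x * b x ∂M.mu h ≤ ∫ x, D₀ * b x ∂M.mu h :=
    integral_mono (hint ℝ _ (sd.continuous.mul cb)) ((hint ℝ _ cb).const_mul D₀) fun x =>
      mul_le_mul_of_nonneg_right ((le_abs_self _).trans (b0 x)) (b00 x)
  rw [integral_const_mul] at h2
  have h3 := mul_le_mul_of_nonneg_left h2 hC
  have h4 : M.mn G b = ∫ x, M.dn H G x * b x ∂M.mu H := by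
    rw [mn, (Hmu _ gm).2.1, ← integral_div]
    simp only [dn, mul_div_right_comm]
  rw [h4]
  linarith

theorem lowA (gm : M.Met G) {s b : M.X → ℝ} {C : ℝ} (hC : 1 ≤ C) (cs : Continuous s)
    (cb : Continuous b) (s0 : ∀ x, 0 ≤ s x) (hb : ∀ x, (1 + s x)⁻¹ ≤ b x)
    (h2 : M.mn G (fun x => s x ^ 2) ≤ C) : (2 + C)⁻¹ ≤ M.mn G b := by
  have h1 := mn_le gm (u := fun _ => 0) (w := fun x => s x ^ 2) continuous_const cb (cs.pow 2)
    (2 * (2 + C)⁻¹ ^ 2 - 2 * (2 + C)⁻¹) 1 ((2 + C)⁻¹ ^ 2) fun x => by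
      have a4 : 0 < 1 + s x := by linarith [s0 x]
      have a5 := mul_nonneg (inv_pos.2 a4).le (sq_nonneg (1 - (2 + C)⁻¹ * (1 + s x)))
      have a6 : (1 + s x)⁻¹ * (1 - (2 + C)⁻¹ * (1 + s x)) ^ 2 =
          (1 + s x)⁻¹ - 2 * (2 + C)⁻¹ + (2 + C)⁻¹ ^ 2 * (1 + s x) := by
        field_simp
        ring
      have a7 := mul_le_mul_of_nonneg_left (show s x ≤ 1 + s x ^ 2 by nlinarith)
        (sq_nonneg (2 + C)⁻¹)
      linarith [hb x]
  have h3 := mul_le_mul_of_nonneg_left h2 (sq_nonneg (2 + C)⁻¹)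
  have h4 : (2 + C)⁻¹ ^ 2 * C = (2 + C)⁻¹ - 2 * (2 + C)⁻¹ ^ 2 := by
    field_simp
    ring
  rw [mn, integral_zero, zero_div] at h1
  linarith

theorem lowB (gm : M.Met G) {s b : M.X → ℝ} {C : ℝ} (hC : 1 ≤ C) (cs : Continuous s)
    (cb : Continuous b) (s0 : ∀ x, 0 ≤ s x) (hb : ∀ x, 1 - (1 + s x)⁻¹ ≤ b x)
    (h1 : 1 / C ≤ M.mn G s) (h2 : M.mn G (fun x => s x ^ 2) ≤ C) :
    1 / (2 * C) / (2 * C * (1 + 2 * C)) ≤ M.mn G b := by
  have r0 : 0 < 2 * C * (1 + 2 * C) := by positivity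
  have h3 := mn_le gm (w := fun x => s x ^ 2) cs cb (cs.pow 2) (2 * C * (1 + 2 * C))⁻¹
    (2 * C * (1 + 2 * C)) (2 * (2 * C * (1 + 2 * C))⁻¹) fun x => by
      have a1 := s0 x
      have a2 : 1 - (1 + s x)⁻¹ = s x / (1 + s x) := by
        field_simp
        ring
      have a3 := R95.young (x := s x) (A := s x * (1 + s x)) (g := s x / (1 + s x))
        (by positivity) (by positivity) r0 (le_of_eq (by field_simp))
      have a4 := mul_le_mul_of_nonneg_left (a2.symm.trans_le (hb x)) r0.le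
      have a5 := mul_le_mul_of_nonneg_left
        (show s x * (1 + s x) ≤ 1 + 2 * s x ^ 2 by nlinarith) (inv_pos.2 r0).le
      rw [div_eq_inv_mul] at a3
      linarith
  have h4 := mul_le_mul_of_nonneg_left h2 (show 0 ≤ 2 * (2 * C * (1 + 2 * C))⁻¹ by positivity)
  have h5 : (2 * C * (1 + 2 * C))⁻¹ + 2 * (2 * C * (1 + 2 * C))⁻¹ * C = 1 / C - 1 / (2 * C) := by
    field_simp
    ring
  have h6 : 1 / C = 1 / (2 * C) + 1 / (2 * C) := by
    field_simp
    ring
  rw [div_le_iff₀' r0]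
  linarith

end N18

open N18 in
theorem st_NM0 (hDB : St_NDB) : St_NM0 := by
  intro n M _ H B h Z R C g ε f l hK hh hs hl hZ hR hL
  have hH := hK.toMet
  obtain ⟨D₀, -, b0⟩ := ((mINV n M h hh).1 H hK.toTen).2.2.2.1.exists_bound
  obtain ⟨D₁, b1⟩ := bd hDB hH hh hR
  obtain ⟨D₂, -, b2⟩ := (tr_inv hh hZ hR).1.exists_bound
  have en := fun a => ((hDB n M H h hH hh).1 _ _ (hs.kae a).toMet (hs.eps a).1).1
  have lim := ((int_b hh en hZ hR hL).const_mul (C * D₀)).add
    ((hs.up.mono_left hl).const_mul (D₁ + D₂))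
  rw [mul_zero, mul_zero, add_zero] at lim
  refine squeeze_zero (fun a => div_nonneg (integral_nonneg fun x => norm_nonneg _)
    measureReal_nonneg) (fun a => mn_b hH hh (hs.kae a).toMet (zero_le_one.trans hs.one) b0
      (tr_inv hh (end_sub (en a) hZ) hR).1.continuous.norm (fun x => norm_nonneg _) fun x => ?_) lim
  rw [Matrix.sub_mul, Matrix.trace_sub]
  exact (norm_sub_le _ _).trans (add_le_add (b1 _ _ (hs.kae a) (hs.eps a).1 x) (b2 x))

open N18 in
theorem st_NM1 (hDB : St_NDB) (hM0 : St_NM0) : St_NM1 := by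
  intro n M _ H B h Z C g ε f l _ hK hh hs hl hZ hL
  have lim := hM0 n M H B h Z _ C g ε f l hK hh hs hl hZ end_one hL
  have C1 := hs.one
  have gm := fun a => (hs.kae a).toMet
  have d1 := fun a => (hDB n M H h hK.toMet hh).1 _ _ (gm a) (hs.eps a).1
  have cb := fun a => (tr_inv hh (end_sub (d1 a).1 hZ) end_one).1.continuous.norm
  have cs : ∀ a, Continuous fun x => ε a * M.tr (g a) h x := fun a =>
    continuous_const.mul ((mINV n M _ (gm a)).1 h hh.toTen).2.1.continuous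
  have s0 : ∀ a x, 0 ≤ ε a * M.tr (g a) h x := fun a x =>
    mul_nonneg (hs.eps a).1.le ((gm a).tr_nonneg hh.nonneg x)
  have re : ∀ a x, ((M.ev (M.zE (g a) h (ε a)) x - M.ev Z x) * M.ev (fun _ _ => 1) x).trace.re =
      1 - (1 + ε a * M.tr (g a) h x)⁻¹ - (M.ev Z x).trace.re := fun a x => by
    have := (AllOn.ch (d1 a).2 x).2
    rw [ch_symm] at this
    rw [show M.ev (fun _ _ => (1 : Mat n)) x = 1 from rfl, Matrix.mul_one, Matrix.trace_sub, sub_re,
      show (M.ev (M.zE (g a) h (ε a)) x).trace = _ from this, ofReal_re]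
  constructor
  · by_contra hn
    refine absurd (ge_of_tendsto' lim fun a => lowA (gm a) C1 (cs a) (cb a) (s0 a) (fun x => ?_)
      (hs.s2 a)) (not_le.2 (by positivity))
    refine le_trans ?_ ((neg_le_abs _).trans (abs_re_le_norm _))
    rw [re]
    linarith [not_lt.1 fun h2 => hn ⟨x, h2⟩]
  · by_contra hn
    refine absurd (ge_of_tendsto' lim fun a => lowB (gm a) C1 (cs a) (cb a) (s0 a) (fun x => ?_)
      (hs.s1 a) (hs.s2 a)) (not_le.2 (by positivity))
    refine le_trans ?_ ((le_abs_self _).trans (abs_re_le_norm _))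
    rw [re, not_not.1 fun h2 => hn ⟨x, h2⟩, Matrix.trace_zero, zero_re, sub_zero]

end Pool.Agent.Lib.HN
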