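import Pool.Agent.Lib.HN.Blue
import Pool.Agent.Lib.HL59.Ham

/-! Project hn81: the trace is constant. -/

open scoped Classical Topology ContDiff ComplexOrder Matrix
open Set Complex Filter

noncomputable section

namespace Pool.Agent.Lib.HN

open Pool.Agent.Lib.SV (E)
open Pool.Agent.Lib.HS32

theorem st_NMX : St_NMX := by
  intro n M _ H h Q hH hh hQ ha
  refine HL59.ham n M H h Q hH hh hQ fun e he z hz => ?_
  have x := ha e he z hz
  have u : IsUnit (h e z).det := x.pos.det_pos.ne'.isUnit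
  have ev : Q e =ᶠ[𝓝 z] fun w => Q e w * (h e w)⁻¹ * h e w :=
    (e.open_target.eventually_mem hz).mono fun w hw =>
      (Matrix.nonsing_inv_mul_cancel_right _ _ (hh.pos e he w hw).det_pos.ne'.isUnit).symm
  have xh : Q e z * (h e z)⁻¹ * h e z = Q e z := ev.self_of_nhds.symm
  have g1 : ∀ k, dM k (h e) z = h e z * gam (h e) k z := fun k => by
    rw [gam, Matrix.mul_nonsing_inv_cancel_left _ _ u]
  refine ⟨?_, ⟨fun k => ?_, fun l => ?_⟩, fun k l => ?_⟩
  · have := x.psd.conjTranspose_mul_mul_same (h e z)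
    rwa [x.pos.1.eq, Matrix.mul_assoc, xh] at this
  · rw [dM_congr ev, dM_mul x.sx x.sh, x.d1, g1, ← Matrix.mul_assoc _ (h e z), xh,
      Matrix.neg_mul, Matrix.mul_assoc, xh]
    abel
  · rw [dMb_congr ev, dMb_mul x.sx x.sh, x.d2,
      dMb_herm x.sh ((e.open_target.eventually_mem hz).mono fun w hw => hh.herm e he w hw), g1,
      Matrix.conjTranspose_mul, x.pos.1.eq, gs, Matrix.conjTranspose_sub,
      Matrix.conjTranspose_smul, star_trivial]
    simp only [Matrix.mul_sub, Matrix.sub_mul, Matrix.mul_smul, Matrix.smul_mul, Matrix.neg_mul,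
      Matrix.mul_assoc]
    abel
  · rw [← xh, ← Matrix.mul_assoc, x.kil, Matrix.zero_mul]

end Pool.Agent.Lib.HN
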