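import Pool.Agent.Lib.HN.Blue
import Pool.Agent.Lib.HS32.MKit

/-! Project hn81: the flat field of maximal rank. -/

open scoped Classical Topology ContDiff ComplexOrder Matrix
open Set Complex Filter

noncomputable section

namespace Pool.Agent.Lib.HN

open Pool.Agent.Lib.SV (E)
open Pool.Agent.Lib.HS32 Pool.Agent.Lib.GH

namespace N81

variable {n : ℕ}

theorem deg_le (R : Mat n) (m : ℕ) (h : ∀ s : ℝ, (1 + s • R).det = ((1 + s : ℝ) : ℂ) ^ m) :
    m ≤ n := by
  have e : R.charpolyRev = (1 - Polynomial.X) ^ m := by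
    refine Polynomial.eq_of_infinite_eval_eq _ _
      ((Set.infinite_range_of_injective Complex.ofReal_injective).mono ?_)
    rintro _ ⟨s, rfl⟩
    have a : Polynomial.eval (s : ℂ) R.charpolyRev = (1 + (-s) • R).det := by
      rw [Matrix.charpolyRev, ← Polynomial.coe_evalRingHom, RingHom.map_det]
      refine congrArg Matrix.det ?_
      ext i j
      by_cases hij : i = j <;> simp [hij, sub_eq_add_neg] <;> exact mul_comm _ _
    show Polynomial.eval (s : ℂ) R.charpolyRev = _
    rw [a, h]
    simp [sub_eq_add_neg]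
  have d : ((1 - Polynomial.X : Polynomial ℂ) ^ m).natDegree = m := by
    rw [Polynomial.natDegree_pow, ← neg_sub, Polynomial.natDegree_neg, ← Polynomial.C_1,
      Polynomial.natDegree_X_sub_C, mul_one]
  rw [← d, ← e, ← Matrix.reverse_charpoly]
  exact Polynomial.reverse_natDegree_le _ |>.trans (by simp)

theorem tors_add (h : E n → Mat n) (z a a' b : E n) :
    tors h z (a + a') b = tors h z a b + tors h z a' b := by
  simp only [tors, asy, Pi.add_apply, add_smul, Finset.sum_add_distrib, Matrix.add_mulVec,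
    Matrix.mulVec_add]
  abel

theorem tors_zero (h : E n → Mat n) (z b : E n) : tors h z 0 b = 0 := by
  simp [tors, asy]

theorem dM_zero (k : Fin n) (z : E n) : dM k (fun _ => (0 : Mat n)) z = 0 := by
  ext i j
  simp [dM, dz]

theorem dMb_zero (k : Fin n) (z : E n) : dMb k (fun _ => (0 : Mat n)) z = 0 := by
  ext i j
  simp [dMb, dzb]

variable {M : Mf n} {h P P' : M.Fam (Mat n)} {k k' : ℕ}

theorem fl_zero : M.Fl1 h (fun _ _ => 0) 0 where
  en := ⟨fun _ _ _ _ => smM_const _, fun _ _ _ _ _ _ _ => by simp⟩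
  hol := fun _ _ _ _ l => dMb_zero l _
  herm := fun _ _ _ _ => by simp
  le := Nat.zero_le _
  par := fun _ _ _ _ l => by rw [dM_zero]; simp
  idem := fun _ _ _ _ => by simp
  det := fun _ _ _ _ _ => by simp
  flat := fun _ _ _ _ _ _ => by simp
  flat' := fun _ _ _ _ _ _ => by simp
  t1 := fun _ _ _ _ _ _ => by simp
  t2 := fun _ _ _ _ _ _ => by simp [tors_zero]

theorem fl_add (x : M.X) (hh : M.Met h) (a : M.Fl1 h P k) (b : M.Fl1 h P' k')
    (c : M.All fun e z => h e z * P e z * P' e z = 0) :
    M.Fl1 h (fun e z => P e z + P' e z) (k + k') := by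
  have c1 : M.All fun e z => P e z * P' e z = 0 := fun e he z hz => by
    beta_reduce
    rw [← Matrix.nonsing_inv_mul_cancel_left (h e z) (P e z * P' e z)
      (hh.pos e he z hz).det_pos.ne'.isUnit, ← Matrix.mul_assoc (h e z), c e he z hz,
      Matrix.mul_zero]
  have c2 : M.All fun e z => P' e z * P e z = 0 := fun e he z hz => by
    have u := congrArg Matrix.conjTranspose (c e he z hz)
    have v := (b.herm e he z hz).eq
    rw [Matrix.conjTranspose_mul, (hh.pos e he z hz).1.eq] at v
    rw [Matrix.conjTranspose_mul, (a.herm e he z hz).eq, ← Matrix.mul_assoc, v,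
      Matrix.conjTranspose_zero, Matrix.mul_assoc] at u
    beta_reduce
    rw [← Matrix.nonsing_inv_mul_cancel_left (h e z) (P' e z * P e z)
      (hh.pos e he z hz).det_pos.ne'.isUnit, u, Matrix.mul_zero]
  have d : ∀ s : ℝ, M.All fun e z =>
      (1 + s • (P e z + P' e z)).det = ((1 + s : ℝ) : ℂ) ^ (k + k') := fun s e he z hz => by
    rw [pow_add, ← a.det s e he z hz, ← b.det s e he z hz, ← Matrix.det_mul]
    refine congrArg Matrix.det ?_
    simp only [Matrix.add_mul, Matrix.mul_add, Matrix.one_mul, Matrix.mul_one, Matrix.smul_mul,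
      Matrix.mul_smul, c1 e he z hz, smul_zero, add_zero, smul_add, add_assoc]
  exact {
    en := ⟨fun e he z hz => (a.en.sm e he z hz).add (b.en.sm e he z hz),
      fun e he e' he' y hy hy' => by
        have u := a.en.cmp e he e' he' y hy hy'
        have v := b.en.cmp e he e' he' y hy hy'
        beta_reduce at u v ⊢
        rw [Matrix.mul_add, Matrix.add_mul, u, v]⟩
    hol := fun e he z hz l => by
      rw [dMb_add (a.en.sm e he z hz) (b.en.sm e he z hz), a.hol e he z hz, b.hol e he z hz,
        add_zero]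
    herm := fun e he z hz => by
      beta_reduce
      rw [Matrix.mul_add]
      exact (a.herm e he z hz).add (b.herm e he z hz)
    le := deg_le _ _ fun s => d s _ (Mf.ch_mem x) _ (Mf.ch_tgt x)
    par := fun e he z hz i => by
      rw [dM_add (a.en.sm e he z hz) (b.en.sm e he z hz), a.par e he z hz, b.par e he z hz,
        Matrix.add_mul, Matrix.mul_add]
      abel
    idem := fun e he z hz => by
      beta_reduce
      rw [Matrix.add_mul, Matrix.mul_add, Matrix.mul_add, a.idem e he z hz, b.idem e he z hz,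
        c1 e he z hz, c2 e he z hz, add_zero, zero_add]
    det := d
    flat := fun e he z hz i j => by
      rw [Matrix.mul_add, a.flat e he z hz, b.flat e he z hz, add_zero]
    flat' := fun e he z hz i j => by
      rw [Matrix.add_mul, a.flat' e he z hz, b.flat' e he z hz, add_zero]
    t1 := fun e he z hz u v => by
      rw [Matrix.add_mulVec, a.t1 e he z hz, b.t1 e he z hz, add_zero]
    t2 := fun e he z hz u v => by
      rw [Matrix.add_mulVec, tors_add, a.t2 e he z hz, b.t2 e he z hz, add_zero] }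

theorem rank_pos (a : M.Fl1 h P k) {x : M.X} (hx : M.ev P x ≠ 0) : 0 < k := by
  refine Nat.pos_of_ne_zero fun hk => hx ?_
  have d := a.det (-1) _ (Mf.ch_mem x) _ (Mf.ch_tgt x)
  have i := a.idem _ (Mf.ch_mem x) _ (Mf.ch_tgt x)
  rw [hk, pow_zero] at d
  change (1 + (-1 : ℝ) • M.ev P x).det = 1 at d
  change M.ev P x * M.ev P x = M.ev P x at i
  rw [← Matrix.nonsing_inv_mul_cancel_left (1 + (-1 : ℝ) • M.ev P x) (M.ev P x)
    (by rw [d]; exact isUnit_one), Matrix.add_mul, Matrix.smul_mul, i, Matrix.one_mul,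
    neg_one_smul, add_neg_cancel, Matrix.mul_zero]

end N81

open N81 in
theorem st_NRK : St_NRK := by
  intro n M _ h p hh hs
  by_contra hc
  have key : ∀ j : ℕ, ∃ P k, M.Fl1 h P k ∧ j ≤ k := fun j => by
    induction j with
    | zero => exact ⟨_, _, fl_zero, le_rfl⟩
    | succ j ih =>
      obtain ⟨P, k, a, b⟩ := ih
      obtain ⟨P', k', c, ⟨x, d⟩, e⟩ := hs P k a fun hp => hc ⟨P, k, a, hp⟩
      exact ⟨_, _, fl_add x hh a c e, by have := rank_pos c d; omega⟩
  obtain ⟨P, k, a, b⟩ := key (n + 1)
  have := a.le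
  omega

end Pool.Agent.Lib.HN
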