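import Pool.Agent.Lib.HN.Blue
import Pool.Agent.Lib.HQ.Seq
import Pool.Agent.Lib.RB.B_RC0
import Pool.Agent.Lib.RB.B_RC1

/-! Project hn81: the sequence. -/

open scoped Topology ContDiff ComplexOrder Matrix
open Set MeasureTheory Filter

noncomputable section

namespace Pool.Agent.Lib.HN

open Pool.Agent.Lib.SV (E)
open Pool.Agent.Lib.HS32 Pool.Agent.Lib.HS32.Mf Pool.Agent.Lib.HQ Pool.Agent.Lib.HQ.Q51

namespace N51

variable {n : ℕ} {M : Mf n} [M.Cpt] {H B h : M.Fam (Mat n)}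

theorem ric_le (hH : M.Kae H) (hB : M.Clo B) (B0 : M.Le 0 B) (hh : M.Met h) {C c K δ ε t : ℝ}
    {P w φ : M.X → ℝ} (hP : M.Good H B h C δ ε P w φ) (hc : M.Le H (c • h)) (c0 : 0 < c)
    (hK : ∀ x, M.tr h B x ≤ K) (e0 : 0 < ε) (e1 : ε ≤ t) (d1 : δ ≤ t) :
    M.mn (M.gB H B ε P) (fun x => ε * M.tr (M.gB H B ε P) (M.ric h) x) ≤
      (c * (1 + C) + 1 + K) * t := by
  obtain ⟨⟨sP, g⟩, -, p1, p2, -⟩ := hP
  have gm := g.toMet
  have t0 : 0 < t := e0.trans_le e1
  obtain ⟨sv, hv⟩ := (mHES n M).2.2.2.2.2.2.2.2.2 h H hh hH.toMet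
  have a1 : ∀ x, (n : ℝ) = M.tr (M.gB H B ε P) (ε • H + B - M.ric H + M.hs P) x :=
    fun x => gm.tr_self.symm
  generalize M.gB H B ε P = G at *
  obtain ⟨-, hf, -, hV, hi, -⟩ := mMU n M G gm
  have sl := fun u hu => ((mLAP n M u u hu hu).2.2 G gm).1
  have sS := ((mINV n M G gm).1 h hh.toTen).2.1
  have sI := ((mINV n M G gm).2.2.1 h B hh.toTen hB.toTen).2.1
  have i1 := (hi ℝ _ (sl P sP).continuous).const_mul ε
  have i2 := (hi ℝ _ (sl _ sv).continuous).const_mul ε
  have i3 := (hi ℝ _ ((sS.const_mul ε).pow 2).continuous).const_mul (t * c)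
  have i4 := hi ℝ _ (sI.const_mul ε).continuous
  have k := integral_mono (hi ℝ _ ((((mINV n M G gm).1 _
    ((mHES n M).2.2.2.2.2.2.2.2.1 h hh).toTen).2.1.const_mul ε).continuous))
    ((((i1.sub i2).add i3).add i4).add (integrable_const (t * (c + K)))) fun x => by
      simp only [Pi.add_apply, Pi.sub_apply]
      have b1 := a1 x
      have b2 : M.tr G (M.ric h) x = M.tr G (M.ric H - M.hs fun x => Real.log (M.dq H h x)) x :=
        congrFun (tr_congr (fun _ _ _ _ => rfl) hv) x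
      have b3 := gm.tr_mono hc x
      have b0 : (M.ev B x).PosSemidef := by simpa [Mf.ev] using AllOn.ch B0 x
      have b4 : 2 * (t / ε) * M.tr G B x - (t / ε) ^ 2 * M.tr h B x ≤ M.ip G B h x :=
        sq_mat (gm.ev_pos x) (hh.ev_pos x) b0 (t / ε)
      have b5 := gm.tr_nonneg B0 x
      have b6 := hh.tr_nonneg B0 x
      have b7 := gm.tr_nonneg hh.nonneg x
      rw [tr_add, tr_sub, tr_add, tr_smul] at b1
      rw [tr_smul] at b3
      rw [ip_comm] at b4
      rw [b2, tr_sub, lap, lap]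
      have b8 : ε * M.tr G B x ≤ ε * M.ip G h B x + t * K := by
        have b9 := mul_le_mul_of_nonneg_left b4 (show 0 ≤ ε ^ 2 / t by positivity)
        rw [show ε ^ 2 / t * (2 * (t / ε) * M.tr G B x - (t / ε) ^ 2 * M.tr h B x) =
          2 * (ε * M.tr G B x) - t * M.tr h B x by field_simp] at b9
        have c1 : 0 ≤ M.ip G h B x := by
          have h1 := (hh.ev_pos x).posSemidef.mul_mul_conjTranspose_same (M.ev G x)⁻¹
          rw [(gm.ev_pos x).inv.1.eq] at h1
          exact (Complex.le_def.1 (HS76.tr_mul_nonneg h1 b0)).1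
        have c2 : ε ^ 2 / t ≤ ε := by
          rw [div_le_iff₀ t0]
          nlinarith
        nlinarith [mul_le_mul_of_nonneg_right c2 c1, mul_le_mul_of_nonneg_left (hK x) t0.le,
          mul_nonneg e0.le b5]
      have c3 : ε * (ε * M.tr G H x) ≤ t * (c * (1 + (ε * M.tr G h x) ^ 2)) := by
        refine mul_le_mul e1 ((mul_le_mul_of_nonneg_left b3 e0.le).trans ?_)
          (mul_nonneg e0.le (gm.tr_nonneg hH.toMet.nonneg x)) t0.le
        rw [mul_left_comm]
        exact mul_le_mul_of_nonneg_left (by nlinarith [sq_nonneg (ε * M.tr G h x - 1)]) c0.le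
      have c4 : (0 : ℝ) ≤ ε * n := by positivity
      have c5 := congrArg (ε * ·) b1
      beta_reduce at c5
      linarith
  rw [integral_add' (((i1.sub i2).add i3).add i4) (integrable_const _),
    integral_add' ((i1.sub i2).add i3) i4, integral_add' (i1.sub i2) i3, integral_sub' i1 i2,
    integral_const_mul, integral_const_mul, integral_const_mul, integral_const_mul,
    ((mGRN n M).2 G P P g sP sP).1, ((mGRN n M).2 G _ _ g sv sv).1, integral_const,
    smul_eq_mul] at k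
  rw [mn, vv, div_le_iff₀ hV] at p1 p2 ⊢
  rw [integral_const_mul]
  have k1 := mul_le_mul_of_nonneg_left p2 (mul_pos t0 c0).le
  have k2 := mul_le_mul_of_nonneg_right d1 hV.le
  linarith

end N51

open N51 in
theorem st_NSQ (hYE : St_NYE) : St_NSQ := by
  intro n M _ H B h hn hH hB B0 hN hh hc h0
  have hM := hH.toMet
  obtain ⟨hD, -, y0⟩ := (hYE n M h hh).2 hc
  have hl := Ultrafilter.of_le (𝓝[>] (0 : ℝ))
  obtain ⟨C₀, w, φ, C1, hw, -, hG⟩ := aQSQ n M H B h _ hn hH hB B0 hN hh hD hl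
  obtain ⟨-, -, ⟨D₀, D1, hDt⟩, k, -, k1, -, F, hF, hFe⟩ := st_QVV n M H B hH hB hN
  obtain ⟨c, c0, hle, -⟩ := (mBD n M h hh).1 H hM.toForm
  obtain ⟨K, K0, hK⟩ := ((mINV n M h hh).1 B hB.toTen).2.1.exists_bound
  obtain ⟨-, hf, -, hV, hi, -⟩ := mMU n M H hM
  have k2 : (1 / 2 : ℝ) < k := by
    have : (1 : ℝ) ≤ k := Nat.one_le_cast.2 (k1 h0)
    linarith
  have p1 : 0 ≤ n * (M.mu H).real univ := by positivity
  obtain ⟨C, c1, c2, c3, c4, c5⟩ : ∃ C, C₀ ≤ C ∧ D₀ ≤ C ∧ 2 * c ≤ C ∧ (M.mu H).real univ ≤ C ∧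
      n * (M.mu H).real univ ≤ C :=
    ⟨C₀ + D₀ + 2 * c + (M.mu H).real univ + n * (M.mu H).real univ, by linarith, by linarith,
      by linarith, by linarith, by linarith⟩
  have C2 : 1 ≤ C := C1.trans c1
  obtain ⟨D, D0, hD1, -⟩ := RB.st_RC0 n M H C hH C2
  obtain ⟨D', D0', hD2⟩ := RB.st_RC1 RB.st_RC0 n M H C hH C2
  have A1 : ∀ i : ℕ, (1 : ℝ) ≤ i + 1 := fun i => le_add_of_nonneg_left (Nat.cast_nonneg i)
  have u0 : ∀ i : ℕ, (0 : ℝ) < 1 / (i + 1) := fun i => by positivity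
  have ex : ∀ i : ℕ, ∃ ε P, ε ∈ Ioc (0 : ℝ) 1 ∧ ε ≤ 1 / (i + 1) ∧ 1 / 2 < F ε ∧
      M.Good H B h C₀ (Real.exp (-(4 * (i + 1))) * (1 / (i + 1))) ε P (w ε) (φ ε) := fun i => by
    obtain ⟨ε, ⟨⟨P, hP⟩, e1⟩, e2, e3⟩ := (((hG (Real.exp (-(4 * (i + 1))) * (1 / (i + 1)))
      (by positivity)).and ((hF.eventually (lt_mem_nhds k2)).filter_mono hl)).and
      (hl (inter_mem (Ioc_mem_nhdsGT one_pos) (Ioc_mem_nhdsGT (u0 i))))).exists
    exact ⟨ε, P, e2, e3.2, e1, hP⟩
  choose ε P e1 e2 e3 hP using ex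
  have hW := fun i => wy_mono hM (hw _ (e1 i)) c1
  have gm := fun i => (hP i).pot.kae.toMet
  have dl : ∀ i : ℕ, Real.exp (-(4 * (i + 1))) * (1 / (i + 1)) ≤ 1 / (i + 1) := fun i =>
    mul_le_of_le_one_left (u0 i).le (Real.exp_le_one_iff.2 (by linarith [A1 i]))
  choose f f1 f2 f3 f4 f5 using fun i : ℕ => hD2 H (φ (ε i)) (fun _ => 1) (i + 1)
    (Real.exp (i + 1) * (i + 1)) hH (hW i).sm (hW i).psh (hW i).np (hW i).zer (fun x => by
      rw [hM.dq_self, mul_one]
      exact (mul_le_of_le_one_left hV.le (Real.exp_le_one_iff.2 ((hW i).np x))).trans c4)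
    (by simpa only [hM.tr_self, integral_const, smul_eq_mul, mul_comm] using c5) (sm_const _)
    (fun _ => one_pos) (fun x => by
      rw [(((mLAP n M _ _ (hW i).sm (hW i).sm).2.2 H hM).2.2.1 x 1).1]
      exact zero_le_one)
    (A1 i) (one_le_mul_of_one_le_of_one_le (Real.one_le_exp (by positivity)) (A1 i))
  have tu := tendsto_one_div_add_atTop_nhds_zero_nat (𝕜 := ℝ)
  have sq : ∀ (a : ℕ → ℝ) (b : ℝ), (∀ i, 0 ≤ a i) → (∀ i : ℕ, a i ≤ b * (1 / (i + 1))) →
      Tendsto a atTop (𝓝 0) := fun a b h1 h2 =>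
    squeeze_zero h1 h2 (by simpa only [mul_zero] using tu.const_mul b)
  have cm := fun i => (dn_sm hM (gm i)).continuous
  have lw : ∀ i x, Real.exp (2 * φ (ε i) x) ≤ C * M.dn H (M.gB H B (ε i) (P i)) x := fun i x =>
    ((hP i).low x).trans (mul_le_mul_of_nonneg_right c1 (dn_pos hM (gm i) x).le)
  have yp := fun i x => mul_nonneg (e1 i).1.le (y0 _ (hP i).pot.kae x)
  have cy := fun i => (((hYE n M h hh).1 _ (hP i).pot.kae).1.const_mul (ε i)).continuous
  refine ⟨C, fun i => M.gB H B (ε i) (P i), ε, f, C2, fun i => (hP i).pot.kae, e1,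
    sq _ 1 (fun i => (e1 i).1.le) fun i => by rw [one_mul]; exact e2 i,
    fun i => ((hDt _ (e1 i)).2 _ (hP i).pot).trans c2,
    sq _ 1 (fun i => integral_nonneg fun x => le_max_right _ _) fun i => ?_, fun η hη => ?_,
    fun i => ?_, fun i => (hP i).sq.trans c1,
    sq _ 1 (fun i => mn_nonneg hM (gm i) (yp i)) fun i => by
      rw [one_mul]; exact (hP i).en.trans (dl i),
    sq _ 1 (fun i => mn_nonneg hM (gm i) fun x => mul_nonneg (e1 i).1.le ?_) fun i => by
      rw [one_mul]; exact (hP i).tw.trans (dl i), fun δ hδ => ?_, f1, f2,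
    sq _ D (fun i => integral_nonneg fun x => sub_nonneg.2 (f2 i x).2) fun i => ?_, ?_,
    sq _ C (fun i => integral_nonneg fun x => mul_nonneg (f2 i x).1 (yp i x)) fun i => ?_⟩
  · have cw := (dn_sm hM (hW i).sol.kae.toMet).continuous
    rw [one_mul]
    refine le_trans (integral_mono (hi ℝ _ (((cm i).sub continuous_const).max continuous_const))
      (hi ℝ _ ((cm i).sub cw).abs) fun x => max_le (le_trans ?_ (le_abs_self _)) (abs_nonneg _))
      ((hP i).cl.trans (dl i))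
    exact sub_le_sub_left (((hW i).up x).trans (mul_le_of_le_one_right (by linarith)
      (Real.exp_le_one_iff.2 ((hW i).np x)))) _
  · refine ⟨C * Real.exp (2 * max 1 (D / η)), fun i => le_trans (measureReal_mono fun x hx => ?_)
      ((hD1 _ (hW i).sm (hW i).psh (hW i).np (hW i).zer _ (le_max_left 1 (D / η))).1.trans ?_)⟩
    · have a1 : C * Real.exp (2 * max 1 (D / η)) ≤ (M.dn H (M.gB H B (ε i) (P i)) x)⁻¹ := hx
      rw [← one_div, le_div_iff₀ (dn_pos hM (gm i) x)] at a1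
      have a2 := mul_le_mul_of_nonneg_right (lw i x) (Real.exp_pos (2 * max 1 (D / η))).le
      rw [← Real.exp_add] at a2
      have a3 := Real.exp_le_one_iff.1 (a2.trans (by linarith))
      show φ (ε i) x ≤ -max 1 (D / η)
      linarith
    · rw [div_le_comm₀ (by positivity) hη]
      exact le_max_right _ _
  · have a1 := e3 i
    rw [← hFe _ _ (e1 i).1 (hP i).pot, mn_eq hM (gm i)] at a1
    refine (one_div_le_one_div_of_le (by positivity) c3).trans ?_
    rw [mn_eq hM (gm i), ← div_div, div_le_iff₀' c0, ← integral_const_mul]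
    refine a1.le.trans (integral_mono (hi ℝ _ ((cm i).fun_mul (continuous_const.mul
      ((mINV n M _ (gm i)).1 H hM.toTen).2.1.continuous))) ((hi ℝ _ ((cm i).fun_mul
        (((mINV n M _ (gm i)).1 h hh.toTen).2.1.const_mul (ε i)).continuous)).const_mul c)
          fun x => ?_)
    have h1 := (gm i).tr_mono hle x
    rw [tr_smul] at h1
    nlinarith [mul_le_mul_of_nonneg_left h1 (mul_pos (dn_pos hM (gm i) x) (e1 i).1).le]
  · have h1 := (hh.ev_pos x).posSemidef.mul_mul_conjTranspose_same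
      (M.ev (M.gB H B (ε i) (P i)) x)⁻¹
    rw [((gm i).ev_pos x).inv.1.eq] at h1
    exact (Complex.le_def.1 (HS76.tr_mul_nonneg h1 (by simpa [Mf.ev] using AllOn.ch B0 x))).1
  · have a1 := tu.const_mul (c * (1 + C₀) + 1 + K)
    rw [mul_zero] at a1
    filter_upwards [a1.eventually (gt_mem_nhds hδ)] with i a2
    exact (ric_le hH hB B0 hh (hP i) hle c0 (fun x => (le_abs_self _).trans (hK x)) (e1 i).1
      (e2 i) (dl i)).trans a2.le
  · have ms : MeasurableSet {x | φ (ε i) x ≤ -((i : ℝ) + 1)} :=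
      (isClosed_le (hW i).sm.continuous continuous_const).measurableSet
    rw [mul_one_div]
    refine le_trans ?_ (hD1 _ (hW i).sm (hW i).psh (hW i).np (hW i).zer _ (A1 i)).1
    rw [← integral_indicator_one ms]
    refine integral_mono (hi ℝ _ (continuous_const.sub (f1 i).continuous))
      ((integrable_const 1).indicator ms) fun x => ?_
    by_cases a1 : φ (ε i) x ≤ -((i : ℝ) + 1)
    · rw [indicator_of_mem (show x ∈ {x | φ (ε i) x ≤ -((i : ℝ) + 1)} from a1)]
      exact sub_le_self _ (f2 i x).1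
    · rw [indicator_of_notMem (show x ∉ {x | φ (ε i) x ≤ -((i : ℝ) + 1)} from a1)]
      exact sub_nonpos.2 (f4 i x (not_le.1 a1).le (by norm_num)).ge
  · have a1 := (tu.sqrt.const_mul D').add (tu.const_mul D')
    rw [Real.sqrt_zero, mul_zero, add_zero] at a1
    refine squeeze_zero (fun i => integral_nonneg fun x => Real.sqrt_nonneg _)
      (fun i => (f5 i).trans_eq ?_) a1
    rw [Real.sqrt_div zero_le_one, Real.sqrt_one]
    field_simp
  · have a1 := (hP i).en
    rw [mn_eq hM (gm i)] at a1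
    have a2 := mul_le_mul_of_nonneg_left a1 (show 0 ≤ C * Real.exp (4 * (i + 1)) by positivity)
    rw [← integral_const_mul, mul_assoc C, ← mul_assoc (Real.exp _), ← Real.exp_add,
      add_neg_cancel, Real.exp_zero, one_mul] at a2
    refine le_trans (integral_mono (hi ℝ _ ((f1 i).continuous.fun_mul (cy i)))
      ((hi ℝ _ ((cm i).fun_mul (cy i))).const_mul _) fun x => ?_) a2
    refine (mul_le_mul_of_nonneg_right ?_ (yp i x)).trans_eq (mul_assoc _ _ _)
    by_cases a3 : f i x = 0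
    · rw [a3]
      exact (mul_pos (by positivity) (dn_pos hM (gm i) x)).le
    · have a4 := mul_le_mul_of_nonneg_right (lw i x) (Real.exp_pos (4 * (i + 1))).le
      rw [← Real.exp_add] at a4
      have a5 := Real.one_le_exp (show 0 ≤ 2 * φ (ε i) x + 4 * (i + 1) by linarith [(f3 i x a3).1])
      linarith [(f2 i x).2]

end Pool.Agent.Lib.HN
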