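import Pool.Agent.Lib.HN.B_NLM
import Pool.Agent.Lib.HS32.MAll

/-! Project hn81: the trace of the normalized limit is less than one. -/

open scoped Classical Topology ContDiff ComplexOrder Matrix
open Set Complex Metric Filter

noncomputable section

namespace Pool.Agent.Lib.HN

open Pool.Agent.Lib.SV (E)
open Pool.Agent.Lib.HS32 Pool.Agent.Lib.HS32.Mf Pool.Agent.Lib.TB.T18

namespace N53

variable {n : ℕ}

/-- A solution of a linear first order system that vanishes at a point vanishes near it. -/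
theorem gron {t : E n → ℂ} {a b : Fin n → E n → ℂ} {c : E n} (h0 : t c = 0)
    (ha : ∀ k, ContinuousAt (a k) c ∧ ContinuousAt (b k) c)
    (h : ∀ᶠ z in 𝓝 c, DifferentiableAt ℝ t z ∧
      ∀ k, dz k t z = a k z * t z ∧ dzb k t z = b k z * t z) : ∀ᶠ z in 𝓝 c, t z = 0 := by
  have c1 : ContinuousAt (fun z => ∑ k, (‖a k z‖ + ‖b k z‖)) c :=
    tendsto_finsetSum _ fun k _ => (ha k).1.norm.add (ha k).2.norm
  obtain ⟨ρ, hρ, hb⟩ := Metric.eventually_nhds_iff_ball.1
    (h.and (c1.eventually (gt_mem_nhds (lt_add_one _))))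
  set K := (∑ k, (‖a k c‖ + ‖b k c‖)) + 1
  filter_upwards [ball_mem_nhds c hρ] with z hz
  have hm : ∀ s ∈ Icc (0 : ℝ) 1, c + s • (z - c) ∈ ball c ρ := fun s hs =>
    (convex_ball c ρ).add_smul_sub_mem (mem_ball_self hρ) hz hs
  have hd : ∀ s ∈ Icc (0 : ℝ) 1, HasDerivAt (fun s : ℝ => t (c + s • (z - c)))
      (fderiv ℝ t (c + s • (z - c)) (z - c)) s := fun s hs => by
    have a : HasDerivAt (fun s : ℝ => c + s • (z - c)) (z - c) s := by
      simpa using ((hasDerivAt_id s).smul_const (z - c)).const_add c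
    exact (hb _ (hm s hs)).1.1.hasFDerivAt.comp_hasDerivAt s a
  have := eq_zero_of_abs_deriv_le_mul_abs_self_of_eq_zero_right (K := K * ‖z - c‖)
    (fun s hs => (hd s hs).continuousAt.continuousWithinAt)
    (fun s hs => (hd s (Ico_subset_Icc_self hs)).hasDerivWithinAt) (by simpa using h0)
    (fun s hs => by
      obtain ⟨⟨-, b1⟩, b2⟩ := hb _ (hm s (Ico_subset_Icc_self hs))
      rw [fderiv_eq_sum, mul_assoc]
      refine (norm_sum_le _ _).trans (le_trans ?_ (mul_le_mul_of_nonneg_right b2.le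
        (by positivity)))
      rw [Finset.sum_mul]
      refine Finset.sum_le_sum fun k _ => (norm_add_le _ _).trans ?_
      rw [(b1 k).1, (b1 k).2, add_mul, mul_assoc, mul_assoc, norm_mul, norm_mul, norm_mul,
        norm_mul, norm_star, mul_comm ‖z - c‖]
      gcongr <;> exact norm_le_pi_norm _ k) 1 ⟨zero_le_one, le_rfl⟩
  simpa using this

variable {h Z : E n → Mat n} {z : E n}

theorem d_tr (hZ : SmM Z z) (hd : Zde h Z z) (k : Fin n) :
    dz k (fun w => 1 - (Z w).trace) z = -((Z z * tm h k z).trace / 2) * (1 - (Z z).trace) ∧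
      dzb k (fun w => 1 - (Z w).trace) z = -((Z z * tc h k z).trace / 2) * (1 - (Z z).trace) := by
  rw [dz_sub (differentiableAt_const _) (cd_diff hZ.trace),
    dzb_sub (differentiableAt_const _) (cd_diff hZ.trace), dz_const, dzb_const, dz_trace hZ,
    dzb_trace hZ, hd.1, hd.2]
  simp only [zr, zb, gs, Matrix.trace_sub, Matrix.trace_smul, Matrix.sub_mul, Matrix.smul_mul,
    Matrix.trace_mul_comm _ (Z z), smul_eq_mul, Complex.real_smul]
  push_cast
  constructor <;> ring

theorem pde (hZ : SmM Z z) (hd : Zde h Z z) (h0 : 1 - (Z z).trace ≠ 0) :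
    Pde h (fun w => (1 - (Z w).trace)⁻¹ • Z w) z := by
  have d : DifferentiableAt ℝ (fun w => 1 - (Z w).trace) z :=
    (differentiableAt_const _).sub (cd_diff hZ.trace)
  refine ⟨fun k => ?_, fun k => ?_⟩
  · rw [dM_smul (d.fun_inv h0) hZ, dz_inv d h0, (d_tr hZ hd k).1, hd.1, zr, Matrix.smul_mul,
      Matrix.mul_smul]
    match_scalars <;> field_simp <;> ring
  · rw [dMb_smul (d.fun_inv h0) hZ, dzb_inv d h0, (d_tr hZ hd k).2, hd.2, zb, Matrix.smul_mul, tc]
    ext i j
    simp only [Matrix.add_apply, Matrix.sub_apply, Matrix.smul_apply, smul_eq_mul,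
      Complex.real_smul]
    field_simp
    ring

end N53

open N53

theorem st_NTA : St_NTA := by
  intro n M _ h Z hh hZ hd ⟨x₀, hx₀⟩
  obtain ⟨i1, i2, -, -, -, i3, -⟩ := mINV n M h hh
  have hT : M.Form fun e z => h e z * Z e z := ⟨i3 Z hZ, fun e he z hz => (hd e he z hz).2.psd.1⟩
  set s := M.tr h fun e z => h e z * Z e z
  have hs : M.Sm s := (i1 _ hT.toTen).2.1
  have e1 : M.All fun e z => (s (e.symm z) : ℂ) = (Z e z).trace := fun e he z hz => by
    beta_reduce
    rw [(i2 _ hT e he z hz).1,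
      Matrix.nonsing_inv_mul_cancel_left _ _ (hh.det_ne e he z hz).isUnit]
  have e2 : M.All fun e z => (Z e z).trace.re = s (e.symm z) := fun e he z hz => by
    beta_reduce
    rw [← e1 e he z hz, ofReal_re]
  have hc : IsClopen {x | s x = 1} := by
    refine ⟨isClosed_eq hs.continuous continuous_const, isOpen_iff_mem_nhds.2 fun x hx => ?_⟩
    have he := M.ch_mem x
    have hz := M.ch_tgt x
    have a1 := hh.sm _ he _ hz
    have a2 := hh.det_ne _ he _ hz
    have a3 := hZ.sm _ he _ hz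
    have g := gron (t := fun w => 1 - (Z (M.ch x) w).trace)
      (a := fun k w => -((Z (M.ch x) w * tm (h (M.ch x)) k w).trace / 2))
      (b := fun k w => -((Z (M.ch x) w * tc (h (M.ch x)) k w).trace / 2))
      (by rw [← e1 _ he _ hz, M.ch_symm, show s x = 1 from hx, ofReal_one, sub_self])
      (fun k => ⟨((a3.mul (sm_tm a1 a2 k)).trace.continuousAt.div_const 2).neg,
        ((a3.mul (sm_tc a1 a2 k)).trace.continuousAt.div_const 2).neg⟩)
      (((hZ.sm.and hd).ev he hz).mono fun w hw => ⟨(differentiableAt_const _).sub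
        (cd_diff hw.1.trace), d_tr hw.1 hw.2.1⟩)
    filter_upwards [((M.ch x).continuousAt (M.mem_ch x)).eventually (g.and (e1.ev he hz)),
      (M.ch x).open_source.mem_nhds (M.mem_ch x)] with y ⟨b1, b2⟩ b3
    rw [← b2, (M.ch x).left_inv b3, sub_eq_zero] at b1
    exact_mod_cast b1.symm
  have hn : ∀ x, 1 - s x ≠ 0 := fun x hx => by
    have := (isClopen_iff.1 hc).resolve_left (Nonempty.ne_empty ⟨x, (sub_eq_zero.1 hx).symm⟩)
    have b1 : s x₀ = 1 := (this.ge (mem_univ x₀) :)
    have b2 := e2.ch x₀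
    rw [M.ch_symm, b1] at b2
    exact hx₀.ne b2
  have hq : M.All fun e z => M.qZ Z e z = (1 - s (e.symm z))⁻¹ • Z e z := fun e he z hz => by
    beta_reduce
    rw [Mf.qZ, e2 e he z hz]
  refine ⟨⟨fun e he z hz => SmM.congr (SmM.rsmul ((((sm_const 1).sub hs).inv hn) e he z hz)
    (hZ.sm e he z hz)) (hq.ev he hz), fun e he e' he' x hx hx' => ?_⟩, fun e he z hz => ⟨?_, ?_⟩⟩
  · beta_reduce
    rw [hq.at he hx, hq.at he' hx', e.left_inv hx, e'.left_inv hx', Matrix.mul_smul,
      Matrix.smul_mul, hZ.cmp e he e' he' x hx hx']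
  · refine lt_of_le_of_ne (hd e he z hz).2.le fun b => hn (e.symm z) ?_
    rw [← e2 e he z hz, b, sub_self]
  · have b0 : 1 - (Z e z).trace ≠ 0 := by
      rw [← e1 e he z hz]
      exact_mod_cast hn _
    have b1 : M.qZ Z e =ᶠ[𝓝 z] fun w => (1 - (Z e w).trace)⁻¹ • Z e w := by
      filter_upwards [hq.ev he hz, e1.ev he hz] with w c1 c2
      rw [c1, ← c2, ← ofReal_one, ← ofReal_sub, ← ofReal_inv, Complex.coe_smul]
    obtain ⟨p1, p2⟩ := pde (hZ.sm e he z hz) (hd e he z hz).1 b0
    exact ⟨fun k => by rw [dM_congr b1, b1.eq_of_nhds]; exact p1 k,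
      fun k => by rw [dMb_congr b1, b1.eq_of_nhds]; exact p2 k⟩

end Pool.Agent.Lib.HN
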