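import Pool.Agent.Lib.HN.Blue
import Pool.Agent.Lib.HS32.MAll

/-! Project hn81: the twisted class. -/

open scoped Topology ContDiff ComplexOrder Matrix
open Set MeasureTheory Filter

noncomputable section

namespace Pool.Agent.Lib.HN

open Pool.Agent.Lib.HS32

theorem st_NVB : St_NVB := by
  intro n M _ H h B hH hh hB h0 hN
  obtain ⟨-, -, -, -, -, -, -, -, e3, e4⟩ := mHES n M
  refine ⟨fun ε hε => ?_, ?_⟩
  · obtain ⟨p, hp⟩ := hN ε hε
    have e : M.gB H B ε p = M.gB H 0 ε p + B := by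
      rw [Mf.gB, Mf.gB]
      abel
    refine ⟨p, hp.sm, ?_⟩
    rw [e]
    have c := hp.kae.toClo.add hB
    have l := (Mf.Le.refl (M.gB H 0 ε p)).add h0
    rw [add_zero] at l
    exact ⟨c, (hp.kae.toMet.of_le c.toForm l).pos⟩
  · obtain ⟨a1, a2⟩ := e4 H h hH.toMet hh
    rw [← mCOH n M H _ _ hH.toMet (hB.sub (e3 h hh)) a1, Mf.vB]
    refine integral_congr_ae (Eventually.of_forall fun x => congrFun (Mf.dq_congr
      (fun _ _ _ _ => rfl) fun e he z hz => ?_) x)
    have := a2 e he z hz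
    simp only [Pi.add_apply, Pi.sub_apply, zero_smul, Pi.zero_apply] at this ⊢
    rw [this]
    abel

end Pool.Agent.Lib.HN
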