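import Pool.Agent.Lib.HN.Blue
import Pool.Agent.Lib.TB.B_TCA
import Pool.Agent.Lib.TB.B_TKE

/-! Project hn81: the limit is killed by the curvature of the symmetric part of the connection. -/

open scoped Classical Topology ContDiff ComplexOrder Matrix
open Set Complex Filter

noncomputable section

namespace Pool.Agent.Lib.N86

open Pool.Agent.Lib.SV (E)
open Pool.Agent.Lib.HS32 Pool.Agent.Lib.TB Pool.Agent.Lib.TB.T82

variable {n : ℕ} {h Q : E n → Mat n} {z : E n}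

theorem ths_sym (hh : SmM h z) (h0 : (h z).det ≠ 0) (k l i j : Fin n) :
    2 * ths h k l z i j = th h k l z i j + th h j l z i k := by
  rw [ths_eq hh h0, Matrix.add_apply, Matrix.smul_apply, dMb_tm hh h0, real_smul]
  push_cast
  ring

theorem ths_comm (hh : SmM h z) (hQ : SmM Q z) (ev : ∀ᶠ w in 𝓝 z, (h w).PosDef ∧ Pde h Q w)
    (k l : Fin n) : ths h k l z * (Q z * (h z)⁻¹) = Q z * (h z)⁻¹ * (ths h l k z)ᴴ := by
  have h0 : (h z).det ≠ 0 := ev.self_of_nhds.1.det_pos.ne'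
  have hX : SmM (fun w => Q w * (h w)⁻¹) z := hQ.mul (hh.inv h0)
  have s := sys hh hQ ev
  have a := dM_dMb hX k l
  rw [dM_congr (s.mono fun w hw => hw.2 l), dMb_congr (s.mono fun w hw => hw.1 k), dM_neg,
    dMb_neg, dM_mul hX (sm_gs hh h0 l).ct, dMb_mul (sm_gs hh h0 k) hX, dM_ct (sm_gs hh h0 l),
    s.self_of_nhds.1, s.self_of_nhds.2, neg_inj] at a
  rw [ths, ths, Matrix.conjTranspose_neg, Matrix.neg_mul, Matrix.mul_neg, neg_inj]
  simp only [Matrix.neg_mul, Matrix.mul_neg, Matrix.mul_assoc] at a ⊢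
  rw [add_comm] at a
  exact (add_right_cancel a).symm

theorem kx_smul (h : E n → Mat n) (a b : ℝ) (ξ η : Mat n) (z : E n) :
    kx h (a • ξ) (b • η) z = a * b * kx h ξ η z := by
  simp only [kx, Matrix.smul_mul, Matrix.trace_smul, Matrix.smul_apply, real_smul]
  rw [← re_ofReal_mul, Finset.mul_sum]
  refine congrArg re (Finset.sum_congr rfl fun k _ => ?_)
  rw [Finset.mul_sum]
  exact Finset.sum_congr rfl fun l _ => by push_cast; ring

end Pool.Agent.Lib.N86

namespace Pool.Agent.Lib.HN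

open Pool.Agent.Lib.HS32 Pool.Agent.Lib.TB Pool.Agent.Lib.N86

theorem st_NXD (hAL : St_NAL) : St_NXD := by
  intro n M h Z hh hc hQ hZ e he z hz
  have hp : (h e z).PosDef := hh.pos e he z hz
  have hd : IsUnit (h e z).det := hp.det_pos.ne'.isUnit
  have sh := hh.sm e he z hz
  have sq := hQ.sm e he z hz
  have ev : ∀ᶠ w in 𝓝 z, (h e w).PosDef ∧ Pde (h e) (M.qZ Z e) w :=
    (e.open_target.eventually_mem hz).mono fun w hw => ⟨hh.pos e he w hw, (hZ e he w hw).2.2⟩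
  obtain ⟨⟨psd, -, w0, w1⟩, lt, -⟩ := hZ e he z hz
  have c0 : 0 < (1 - (Z e z).trace.re)⁻¹ := inv_pos.2 (sub_pos.2 lt)
  have q : M.qZ Z e z = (1 - (Z e z).trace.re)⁻¹ • Z e z := rfl
  have p1 : (h e z * M.qZ Z e z).PosSemidef := by
    rw [q, Matrix.mul_smul]; exact psd.smul c0.le
  have hξ : (M.qZ Z e z * (h e z)⁻¹).PosSemidef := by
    have := HS76.conj_inv_psd hp p1
    rwa [Matrix.nonsing_inv_mul_cancel_left _ _ hd] at this
  have s := (T82.sys sh sq ev).self_of_nhds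
  have cl := ths_sym sh hd.ne_zero
  refine ⟨p1, sh, sq.mul (sh.inv hd.ne_zero), hp, hξ, s.1, s.2,
    hAL n (h e z) _ (fun k l => ths (h e) k l z) hp hξ
      (fun k l i j => mul_left_cancel₀ (two_ne_zero (α := ℂ)) (by rw [cl, cl, add_comm]))
      (fun v => by
        rw [T51.hs_sym (h e z) (fun k l => ths (h e) k l z) (fun k l => th (h e) k l z) cl]
        exact hc e he z hz v)
      (ths_comm sh sq ev) ?_ ?_⟩
  · show 0 ≤ kx (h e) (M.qZ Z e z * (h e z)⁻¹) (M.qZ Z e z * (h e z)⁻¹) z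
    rw [q, Matrix.smul_mul, kx_smul]
    rw [wx] at w0
    exact mul_nonneg (mul_pos c0 c0).le (by linarith)
  · show 0 ≤ kx (h e) (M.qZ Z e z * (h e z)⁻¹) (h e z)⁻¹ z +
      kx (h e) (h e z)⁻¹ (M.qZ Z e z * (h e z)⁻¹) z
    have a1 := kx_smul (h e) (1 - (Z e z).trace.re)⁻¹ 1 (Z e z * (h e z)⁻¹) (h e z)⁻¹ z
    have a2 := kx_smul (h e) 1 (1 - (Z e z).trace.re)⁻¹ (h e z)⁻¹ (Z e z * (h e z)⁻¹) z
    rw [one_smul] at a1 a2
    rw [q, Matrix.smul_mul, a1, a2, mul_one, one_mul, ← mul_add]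
    rw [wx] at w1
    exact mul_nonneg c0.le (by linarith)

end Pool.Agent.Lib.HN
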