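import Pool.Agent.Lib.HN.B_NYE
import Pool.Agent.Lib.HN.B_NVB
import Pool.Agent.Lib.HN.B_NSQ
import Pool.Agent.Lib.HN.B_NDB
import Pool.Agent.Lib.HN.B_NLI
import Pool.Agent.Lib.HN.B_NLM
import Pool.Agent.Lib.HN.B_NLO
import Pool.Agent.Lib.HN.B_NGL
import Pool.Agent.Lib.HN.B_NCL
import Pool.Agent.Lib.HN.B_NM0
import Pool.Agent.Lib.HN.B_NAL
import Pool.Agent.Lib.HN.B_NXD
import Pool.Agent.Lib.HN.B_NMX
import Pool.Agent.Lib.HN.B_NCS
import Pool.Agent.Lib.HN.B_NMA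
import Pool.Agent.Lib.HN.B_NRK
import Pool.Agent.Lib.HN.B_NTA
import Pool.Agent.Lib.TB.All

/-! Project hn81: the limit half without hypotheses. -/

open MeasureTheory

namespace Pool.Agent.Lib.HN

open Pool.Agent.Lib.HS32

/-- A flat field of projectors whose complement has positive volume. -/
theorem fl1 {n : ℕ} (M : Mf n) [M.Cpt] {H h : M.Fam (Mat n)} (hn : 0 < n) (hH : M.Kae H)
    (hN : M.NefB H 0) (hh : M.Met h) (hc : M.Hsc h) :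
    ∃ P k, M.Fl1 h P k ∧ 0 < ∫ x, M.dq H (h * P - M.ric h) x ∂M.mu H :=
  fl1_of st_NVB st_NRK RB.aGPRD M hH hN hh fun _ hB hB0 hNB hv =>
    lim_of (st_NSQ st_NYE) st_NDB (st_NLO (st_NLM st_NLI) st_NDB st_NYE) st_NGL
      (st_NCL st_NYE st_NDB) (st_NM1 st_NDB (st_NM0 st_NDB)) st_NTA (st_NXD st_NAL) st_NMX st_NCS
      (st_NMA st_NDB (st_NM0 st_NDB)) TB.aTKE RB.aRPA RB.aRPJ TB.st_TFL RB.aGT1 M hn hH hB hB0 hNB
      hh hc hv

end Pool.Agent.Lib.HN
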