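import Pool.Agent.Lib.HN.Defs
import Pool.Agent.Lib.HW27.Defs
import Pool.Agent.Lib.HW86.Ae

/-! Project hn81: the interface between the limit half and the tail. -/

open scoped Topology
open MeasureTheory Filter

noncomputable section

namespace Pool.Agent.Lib.HS32.Mf

variable {n : ℕ} (M : Mf n)

/-- The Kodaira dimension is at least `d`. -/
def WGrow (d : ℕ) : Prop :=
  ∃ (m : ℕ) (c : ℝ), 0 < m ∧ 0 < c ∧
    ∀ᶠ a : ℕ in atTop, ∃ N : ℕ, c * (a : ℝ) ^ d ≤ N ∧ M.WMany (m * a) N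

end Pool.Agent.Lib.HS32.Mf

namespace Pool.Agent.Lib.HN

open Pool.Agent.Lib.HS32

/-- From the flat field and the positive volume to the growth of the plurigenera. -/
def St_TAIL : Prop := ∀ (n : ℕ) (M : Mf n) [M.Cpt] (H h P : M.Fam (Mat n)) (k : ℕ), 0 < n →
  M.Kae H → W86.Nef M H → M.NefB H 0 → M.Met h → M.Fl1 h P k →
  0 < ∫ x, M.dq H (h * P - M.ric h) x ∂M.mu H → M.WGrow (n - k)

end Pool.Agent.Lib.HN
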