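import Pool.Agent.Lib.HN.SDefs
import Pool.Agent.Lib.HN.Tail
import Pool.Agent.Lib.HW.Br
import Pool.Agent.Lib.RB.Flat85

/-! Project hn81: from the statement to the manifold layer and back. -/

open scoped Classical Topology ContDiff ComplexOrder Matrix Manifold
open Set Complex Filter

noncomputable section

namespace Pool.Agent.Lib.HN

open Pool.Agent.Lib.SV (E Pluri)
open Pool.Agent.Lib.HS32 Pool.Agent.Lib.GH Pool.Agent.Lib.HS.BBR Pool.Agent.Lib.RB.R32
open Pool.Agent.Lib.HW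

namespace B81

variable {n : ℕ}

theorem tr_eq (R : Mat n) (m : ℕ) (h : ∀ s : ℝ, (1 + s • R).det = ((1 + s : ℝ) : ℂ) ^ m) :
    R.trace = m := by
  have e : R.charpolyRev = (1 - Polynomial.X) ^ m := by
    refine Polynomial.eq_of_infinite_eval_eq _ _
      ((Set.infinite_range_of_injective Complex.ofReal_injective).mono ?_)
    rintro _ ⟨s, rfl⟩
    have a : Polynomial.eval (s : ℂ) R.charpolyRev = (1 + (-s) • R).det := by
      rw [Matrix.charpolyRev, ← Polynomial.coe_evalRingHom, RingHom.map_det]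
      refine congrArg Matrix.det ?_
      ext i j
      by_cases hij : i = j <;> simp [hij, sub_eq_add_neg] <;> exact mul_comm _ _
    show Polynomial.eval (s : ℂ) R.charpolyRev = _
    rw [a, h]
    simp [sub_eq_add_neg]
  have a := Matrix.coeff_charpolyRev_eq_neg_trace R
  have b : ((1 - Polynomial.X : Polynomial ℂ) ^ m).coeff 1 = -m := by
    have := Polynomial.coeff_derivative ((1 - Polynomial.X : Polynomial ℂ) ^ m) 0
    rw [Polynomial.coeff_zero_eq_eval_zero, Polynomial.derivative_pow] at this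
    simpa using this.symm
  rw [e, b] at a
  exact (neg_inj.1 a).symm

theorem rank_eq (R : Mat n) (m : ℕ) (hi : R * R = R)
    (h : ∀ s : ℝ, (1 + s • R).det = ((1 + s : ℝ) : ℂ) ^ m) :
    Module.finrank ℂ (LinearMap.range (Matrix.toLin' R)) = m := by
  have p : LinearMap.IsProj (LinearMap.range (Matrix.toLin' R)) (Matrix.toLin' R) :=
    ⟨fun x => LinearMap.mem_range_self _ x, by
      rintro _ ⟨x, rfl⟩
      rw [Matrix.toLin'_apply, Matrix.toLin'_apply, Matrix.mulVec_mulVec, hi]⟩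
  have a := p.trace
  rw [Matrix.trace_toLin'_eq, tr_eq R m h] at a
  exact_mod_cast a.symm

theorem rm_flat {h P : E n → Mat n} {z : E n} (hh : HS68.Loc h z) (hP : SmM P z)
    (h1 : ∀ l, dMb l P z = 0) (ht : ∀ᶠ w in 𝓝 z, ∀ a b, tors h w (P w *ᵥ a) b = 0)
    (hs : (h z * P z).IsHermitian) (f1 : ∀ k l, th h k l z * P z = 0)
    (f2 : ∀ k l, P z * th h k l z = 0) (u a w : E n) :
    rm h z (a + P z *ᵥ u) (a + P z *ᵥ u) w w = rm h z a a w w ∧
      rm h z a a (w + P z *ᵥ u) (w + P z *ᵥ u) = rm h z a a w w := by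
  have e1 : (P z)ᴴ * h z = h z * P z := by rw [← hs.eq, Matrix.conjTranspose_mul, hh.pos.1.eq]
  constructor
  · have b1 : ∀ l, ∑ k, (P z *ᵥ u) k • (h z * th h k l z) = 0 := fun l => by
      have c : ∑ k, (P z *ᵥ u) k • th h k l z = 0 := by
        ext i j
        have d := fun m => RB85.dbar_tors hh hP h1 ht l i j m
        simp only [f1, Matrix.zero_apply] at d
        simp only [Matrix.sum_apply, Matrix.smul_apply, smul_eq_mul, Matrix.mulVec, dotProduct,
          Finset.sum_mul, Matrix.zero_apply]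
        rw [Finset.sum_comm]
        refine Finset.sum_eq_zero fun m _ => ?_
        rw [← mul_zero (u m), ← d m, Finset.mul_sum]
        exact Finset.sum_congr rfl fun k _ => by ring
      simp only [← Matrix.mul_smul, ← Matrix.mul_sum, c, Matrix.mul_zero]
    have b2 : ∀ k, ∑ l, star ((P z *ᵥ u) l) • (h z * th h k l z) = 0 := fun k => by
      have := congrArg Matrix.conjTranspose (b1 k)
      simpa only [Matrix.conjTranspose_sum, Matrix.conjTranspose_smul, hh.mul_th_herm,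
        Matrix.conjTranspose_zero] using this
    have c1 : ∀ l, ∑ k, (P z *ᵥ u) k * (star w ⬝ᵥ (h z * th h k l z) *ᵥ w) = 0 := fun l => by
      simpa only [Matrix.sum_mulVec, dotProduct_sum, Matrix.smul_mulVec, dotProduct_smul,
        smul_eq_mul, Matrix.zero_mulVec, dotProduct_zero] using
        congrArg (fun A : Mat n => star w ⬝ᵥ A *ᵥ w) (b1 l)
    have c2 : ∀ k, ∑ l, star ((P z *ᵥ u) l) * (star w ⬝ᵥ (h z * th h k l z) *ᵥ w) = 0 :=
      fun k => by
      simpa only [Matrix.sum_mulVec, dotProduct_sum, Matrix.smul_mulVec, dotProduct_smul,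
        smul_eq_mul, Matrix.zero_mulVec, dotProduct_zero] using
        congrArg (fun A : Mat n => star w ⬝ᵥ A *ᵥ w) (b2 k)
    have c3 : ∀ b : E n, ∑ k, ∑ l, (P z *ᵥ u) k * star (b l) *
        (star w ⬝ᵥ (h z * th h k l z) *ᵥ w) = 0 := fun b => by
      rw [Finset.sum_comm]
      refine Finset.sum_eq_zero fun l _ => ?_
      rw [← mul_zero (star (b l)), ← c1 l, Finset.mul_sum]
      exact Finset.sum_congr rfl fun k _ => by ring
    have c4 : ∑ k, ∑ l, a k * star ((P z *ᵥ u) l) * (star w ⬝ᵥ (h z * th h k l z) *ᵥ w) = 0 := by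
      refine Finset.sum_eq_zero fun k _ => ?_
      rw [← mul_zero (a k), ← c2 k, Finset.mul_sum]
      exact Finset.sum_congr rfl fun l _ => by ring
    have c5 := c3 (a + P z *ᵥ u)
    rw [rm, rm, ← add_zero (∑ k, ∑ l, a k * star (a l) * _), ← add_zero (0 : ℂ)]
    nth_rewrite 1 [← c4]
    rw [← c5]
    simp only [← Finset.sum_add_distrib]
    refine Finset.sum_congr rfl fun k _ => Finset.sum_congr rfl fun l _ => ?_
    simp only [Pi.add_apply, star_add]
    ring
  · refine Finset.sum_congr rfl fun k _ => Finset.sum_congr rfl fun l _ => congrArg _ ?_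
    rw [Matrix.mulVec_add, Matrix.mulVec_mulVec, Matrix.mul_assoc, f1, Matrix.mul_zero,
      Matrix.zero_mulVec, add_zero, star_add, add_dotProduct, Matrix.star_mulVec,
      ← Matrix.dotProduct_mulVec, Matrix.mulVec_mulVec, ← Matrix.mul_assoc, e1,
      Matrix.mul_assoc, f2, Matrix.mul_zero, Matrix.zero_mulVec, dotProduct_zero, add_zero]

theorem hsc_of {M : Mf n} {T : M.Fam (Mat n)} (hT : M.Met T)
    (h : ∀ x, ∃ e ∈ M.C, x ∈ e.source ∧ ∀ v, (rm (T e) (e x) v v v v).re ≤ 0) : M.Hsc T :=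
  Mf.allOn_of_source fun e' he' x hx' v => by
    obtain ⟨e, he, hx, h1⟩ := h x
    have t := (mTR n M).2.1 e he e' he' x hx hx'
    have pt : (e ∘ e'.symm) (e' x) = e x := congrArg _ (e'.left_inv hx')
    rw [((mPB n _ _ (T e) (T e') t.1 t.2.1 (by rw [pt]; exact hT.sm.at he hx)
      (BSUB.ev_cmp mTR hT.toTen he he' hx hx')).2.2
      (by rw [pt]; exact (hT.pos.at he hx).det_pos.ne')).2.2.1, pt]
    exact h1 _

variable {X : Type} [TopologicalSpace X] [ChartedSpace (E n) X] [IsManifold 𝓘(ℂ, E n) ω X]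

theorem kod {d : ℕ} (h : (mf n X).WGrow d) : KodGe n X d := by
  let M : Mf n := mf n X
  let c : M.X → M.Ch := chartAt (M := X) (E n)
  have hc : ∀ x, c x ∈ M.C := ch_mem (X := X)
  have hs : ∀ x, x ∈ (c x).source := mem_chart_source (M := X) (E n)
  obtain ⟨hch, hov, -⟩ := mTR n M
  obtain ⟨m, a, hm, ha, h⟩ := h
  refine ⟨m, a, hm, ha, h.mono fun b ⟨N, h1, s, h2, h3⟩ =>
    ⟨N, fun i (y : M.X) => s i (c y) (c y y), h1, ?_, fun i (y : M.X) => ?_⟩⟩
  · refine LinearIndependent.of_comp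
      (LinearMap.mulRight ℂ fun y : M.X => (M.J (c y) (M.ch y) y).det ^ (m * b)) ?_
    have e : (fun i => M.ev (s i)) = (LinearMap.mulRight ℂ fun y : M.X =>
        (M.J (c y) (M.ch y) y).det ^ (m * b)) ∘ fun i (y : M.X) => s i (c y) (c y y) :=
      funext fun i => funext fun y => (h2 i).cmp _ (hc y) _ (hch y).1 y (hs y) (hch y).2
    exact e ▸ h3
  · refine ((h2 i).hol _ (hc y) _ ((c y).map_source (hs y))).congr_of_eventuallyEq ?_
    filter_upwards [(c y).open_target.mem_nhds ((c y).map_source (hs y))] with w hw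
    have h4 : s i (c y) (c y ((c y).symm w)) = _ :=
      (h2 i).cmp _ (hc ((c y).symm w)) _ (hc y) _ (hs _) ((c y).map_target hw)
    have h5 := (hov _ (hc ((c y).symm w)) _ (hc y) _ (hs _) ((c y).map_target hw)).1
    rw [Mf.J] at h4
    rw [(c y).right_inv hw] at h4 h5
    rw [h4, ← (mCHN n _ _ h5).2.2.2.2.2.2.1]
    rfl

end B81

open B81 in
theorem main_of (hT : St_TAIL)
    (hL : ∀ {n : ℕ} (M : Mf n) [M.Cpt] {H h : M.Fam (Mat n)}, 0 < n → M.Kae H → M.NefB H 0 →
      M.Met h → M.Hsc h →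
      ∃ P k, M.Fl1 h P k ∧ 0 < ∫ x, M.dq H (h * P - M.ric h) x ∂M.mu H)
    (n : ℕ) (X : Type) [TopologicalSpace X] [ChartedSpace (E n) X] [IsManifold 𝓘(ℂ, E n) ω X]
    [CompactSpace X] [T2Space X] [ConnectedSpace X] (g h : X → Mat n) (hg : Kaehler g)
    (hK : CanNef g) (hh : Hermitian h) (hc : ∀ x v, curvAt h x v v ≤ 0) :
    ∃ k ≤ n, FlatDirs h k ∧ KodGe n X (n - k) := by
  let M : Mf n := mf n X
  have : M.Cpt := ⟨‹T2Space X›, ‹CompactSpace X›, ‹ConnectedSpace X›⟩
  rcases Nat.eq_zero_or_pos n with rfl | hn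
  · obtain ⟨a, ha, h1⟩ := big_zero M
    refine ⟨0, le_rfl, fun x => ⟨⊥, finrank_bot _ _, fun v hv a w => ?_⟩,
      kod ⟨1, a, one_pos, ha, by simpa only [one_mul] using h1⟩⟩
    rw [(Submodule.mem_bot _).1 hv, add_zero, add_zero]
    exact ⟨rfl, rfl⟩
  let c : M.X → M.Ch := chartAt (M := X) (E n)
  have hm : ∀ x, c x ∈ M.C := ch_mem (X := X)
  have hs : ∀ x, x ∈ (c x).source := mem_chart_source (M := X) (E n)
  have hk : M.Met (fam h) := (fam_ok hh).1
  have hH : M.Kae (fam g) := kae hg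
  have e1 : ∀ x a v, curvAt h x a v = (rm (fam h (c x)) (c x x) a a v v).re := fun x a v =>
    congrArg Complex.re (rm_curv (hk.sm.at (hm x) (hs x)) (hk.det_ne.at (hm x) (hs x)) a v).symm
  have hN : M.NefB (fam g) 0 := fun ε hε => by
    obtain ⟨w, w1, w2⟩ := nef hg hK ε hε
    refine ⟨w, w1, ?_⟩
    rw [W86.gB_zero]
    exact ⟨((hH.toClo.smul ε).sub ((mHES n M).2.2.2.2.2.2.2.2.1 _ hH.toMet)).add
      ((mHES n M).1 w w1), w2⟩
  obtain ⟨P, k, hP, hv⟩ := hL M hn hH hN hk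
    (hsc_of hk fun x => ⟨c x, hm x, hs x, fun v => (e1 x v v).symm.trans_le (hc x v)⟩)
  refine ⟨k, hP.le, fun x => ?_, kod (hT n M _ _ P k hn hH (nef hg hK) hN hk hP hv)⟩
  have hz := (c x).map_source (hs x)
  refine ⟨LinearMap.range (Matrix.toLin' (P (c x) (c x x))),
    rank_eq _ _ (hP.idem _ (hm x) _ hz) fun s => hP.det s _ (hm x) _ hz, ?_⟩
  rintro _ ⟨u, rfl⟩ a w
  have := rm_flat (HS68.met_loc hk (hm x) hz) (hP.en.sm _ (hm x) _ hz) (hP.hol _ (hm x) _ hz)
    (Mf.AllOn.ev hP.t2 (hm x) hz) (hP.herm _ (hm x) _ hz) (hP.flat _ (hm x) _ hz)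
    (hP.flat' _ (hm x) _ hz) u a w
  rw [e1, e1, e1, Matrix.toLin'_apply, this.1, this.2]
  exact ⟨rfl, rfl⟩

end Pool.Agent.Lib.HN
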