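import Pool.Agent.Lib.HN.Blue
import Pool.Agent.Lib.HL21.Kill

/-! Project hn81: rows NK1 and NK2. -/

open scoped Classical Topology ContDiff ComplexOrder Matrix
open Set Complex Filter

noncomputable section

namespace Pool.Agent.Lib.HN

open Pool.Agent.Lib.SV (E)
open Pool.Agent.Lib.HS32

namespace N21

variable {n : ℕ} {h ξ : E n → Mat n} {z : E n}

theorem gs_apply (k i j : Fin n) : gs h k z i j = (gam h k z i j + gam h j z i k) / 2 := by
  simp only [gs, tm, Matrix.sub_apply, Matrix.smul_apply, Matrix.of_apply, real_smul]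
  push_cast
  ring

theorem nb_h (hp : (h z).PosDef) (j : Fin n) : nb h h j z = (1 / 2 : ℝ) • (h z * tm h j z) := by
  have g : dM j h z = h z * gam h j z := by
    rw [gam, Matrix.mul_nonsing_inv_cancel_left _ _ hp.det_pos.ne'.isUnit]
  rw [nb, g, gs, Matrix.mul_sub, Matrix.mul_smul, sub_sub_cancel]

theorem ok (H : ∀ᶠ w in 𝓝 z, Xde h ξ w) : HL21.Ok h ξ (gs h) z where
  sh := H.mono fun _ x => x.sh
  sx := H.mono fun _ x => x.sx
  sa := H.mono fun _ x k => TB.T82.sm_gs x.sh x.pos.det_pos.ne' k
  pt := H.mono fun w x =>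
    { sym := fun k i j => by rw [gs_apply, gs_apply, add_comm]
      kil := fun k p a => by
        change nb h h k w p a = -nb h h a w p k
        rw [nb_h x.pos, nb_h x.pos]
        simp only [Matrix.smul_apply, Matrix.mul_apply, tm, Matrix.of_apply, ← smul_neg,
          ← Finset.sum_neg_distrib, ← mul_neg, neg_sub]
      hh := x.pos.isHermitian
      hx := x.psd.isHermitian
      p1 := x.d1
      p2 := x.d2
      fl := fun k l => by
        have := x.kil k l
        rwa [ths, Matrix.neg_mul, neg_eq_zero] at this }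

end N21

theorem st_NK1 : St_NK1 := fun _ _ _ _ H =>
  ⟨fun j => ⟨(N21.ok H).dz_sf j, N21.nb_h H.self_of_nhds.pos j⟩, (N21.ok H).par⟩

theorem st_NK2 : St_NK2 := fun _ _ _ _ H => (N21.ok H).lap

end Pool.Agent.Lib.HN
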