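import Pool.Agent.Lib.HN.Blue
import Pool.Agent.Lib.HS32.MAll

/-! Project hn81: the trace of the Ricci form along the limit vanishes. -/

open scoped Classical Topology ContDiff ComplexOrder Matrix
open Set MeasureTheory Complex Metric Filter

noncomputable section

namespace Pool.Agent.Lib.HN

open Pool.Agent.Lib.SV (E)
open Pool.Agent.Lib.HS32 Pool.Agent.Lib.HS32.Mf

namespace N24

variable {n : ℕ}

theorem tr_inv {M : Mf n} {A R : M.Fam (Mat n)} (hA : M.End A) (hR : M.End R) :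
    M.Inv (fun e z => (A e z * R e z).trace) ∧
      Continuous fun x => (M.ev A x * M.ev R x).trace := by
  have h1 : M.Inv (fun e z => (A e z * R e z).trace) := fun e he e' he' x hx hx' => by
    have hJ := ((mTR n M).2.1 e he e' he' x hx hx').2.1.isUnit
    have e1 : M.J e e' x * (A e' (e' x) * R e' (e' x)) = A e (e x) * R e (e x) * M.J e e' x := by
      rw [← Matrix.mul_assoc, hA.cmp e he e' he' x hx hx', Matrix.mul_assoc,
        hR.cmp e he e' he' x hx hx', Matrix.mul_assoc]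
    beta_reduce
    rw [← Matrix.nonsing_inv_mul_cancel_left _ (A e' (e' x) * R e' (e' x)) hJ, e1,
      Matrix.trace_mul_comm, Matrix.mul_nonsing_inv_cancel_right _ _ hJ]
  exact ⟨h1, (h1.sm fun e he z hz => ((hA.sm e he z hz).mul (hR.sm e he z hz)).trace).continuous⟩

theorem zero_of_small {X : Type} [TopologicalSpace X] [MeasurableSpace X] (μ : Measure X)
    [IsFiniteMeasure μ] [μ.IsOpenPosMeasure] {ρ : X → ℝ} {m : ℕ → X → ℝ} (hρ : Continuous ρ)
    (h0 : ∀ x, 0 ≤ ρ x) (hm : ∀ j x, 0 < m j x) (hi : ∀ j, Integrable (fun x => m j x * ρ x) μ)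
    (ht : Tg μ fun j x => (m j x)⁻¹) (hs : ∀ δ : ℝ, 0 < δ → ∃ j, ∫ x, m j x * ρ x ∂μ ≤ δ)
    (x₀ : X) : ρ x₀ = 0 := by
  by_contra hne
  have hc : 0 < ρ x₀ / 2 := half_pos ((h0 x₀).lt_of_ne' hne)
  set c := ρ x₀ / 2 with hcd
  have hU : IsOpen {x | c < ρ x} := isOpen_lt continuous_const hρ
  have hu : 0 < μ.real {x | c < ρ x} :=
    ENNReal.toReal_pos (hU.measure_ne_zero μ ⟨x₀, by change c < ρ x₀; linarith⟩)
      (measure_ne_top _ _)
  set u := μ.real {x | c < ρ x} with hud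
  obtain ⟨L, hL⟩ := ht (u / 2) (half_pos hu)
  have hL1 : 0 < max L 1 := lt_max_of_lt_right one_pos
  have hq : 0 < c / max L 1 := div_pos hc hL1
  obtain ⟨j, hj⟩ := hs (c / max L 1 * (u / 4)) (by positivity)
  have a1 := mul_meas_ge_le_integral_of_nonneg
    (ae_of_all μ fun x => mul_nonneg (hm j x).le (h0 x)) (hi j) (c / max L 1)
  have a2 : {x | c < ρ x} ⊆ {x | c / max L 1 ≤ m j x * ρ x} ∪ {x | L ≤ (m j x)⁻¹} := by
    intro x hx
    by_cases h1 : L ≤ (m j x)⁻¹
    · exact Or.inr h1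
    · refine Or.inl ?_
      have b1 : (m j x)⁻¹ ≤ max L 1 := (not_le.1 h1).le.trans (le_max_left _ _)
      have b2 : 1 ≤ m j x * max L 1 := by
        rwa [inv_le_iff_one_le_mul₀' (hm j x)] at b1
      have b3 : c < ρ x := hx
      change c / max L 1 ≤ m j x * ρ x
      rw [div_le_iff₀ hL1]
      nlinarith
  have a3 : u ≤ μ.real {x | c / max L 1 ≤ m j x * ρ x} + μ.real {x | L ≤ (m j x)⁻¹} :=
    (measureReal_mono a2).trans (measureReal_union_le _ _)
  have a4 : u / 2 ≤ μ.real {x | c / max L 1 ≤ m j x * ρ x} := by linarith [hL j]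
  have a5 := mul_le_mul_of_nonneg_left a4 hq.le
  have a6 := mul_pos hq hu
  linarith

theorem mn_le {M : Mf n} [M.Cpt] {G : M.Fam (Mat n)} (gm : M.Met G) {f f₁ f₂ f₃ : M.X → ℝ}
    {L c : ℝ} (h0 : Continuous f) (h1 : Continuous f₁) (h2 : Continuous f₂) (h3 : Continuous f₃)
    (h : ∀ x, f x ≤ f₁ x + L * f₂ x + c * (2 + 2 * f₃ x)) :
    M.mn G f ≤ M.mn G f₁ + L * M.mn G f₂ + c * (2 + 2 * M.mn G f₃) := by
  obtain ⟨-, gfin, -, v0, gint, -⟩ := mMU n M _ gm
  have v1 : 0 < M.vv G := v0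
  have i1 := gint ℝ _ h1
  have i2 := (gint ℝ _ h2).const_mul L
  have i3 := (gint ℝ _ h3).const_mul 2
  have i4 := ((integrable_const (2 : ℝ)).add i3).const_mul c
  have a := integral_mono (gint ℝ _ h0) ((i1.add i2).add i4) h
  simp only [Pi.add_apply] at a i4
  have i5 : Integrable (fun x => f₁ x + L * f₂ x) (M.mu G) := i1.add i2
  rw [integral_add i5 i4, integral_add i1 i2, integral_const_mul, integral_const_mul,
    integral_add (integrable_const _) i3, integral_const_mul, integral_const, smul_eq_mul] at a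
  rw [mn, mn, mn, mn, div_le_iff₀ v1]
  refine a.trans (le_of_eq ?_)
  rw [show (M.mu G).real univ = M.vv G from rfl]
  field_simp

theorem pt_le {ρ r s b D L : ℝ} (hρ : 0 ≤ ρ) (hs : 0 ≤ s) (hL : 0 < L) (hb : |r - ρ| ≤ b)
    (hD : |r - ρ| ≤ D) : ρ ≤ (1 + s) * r + L * b + D / L * (2 + 2 * s ^ 2) := by
  have w0 := abs_nonneg (r - ρ)
  have w1 := neg_abs_le (r - ρ)
  generalize |r - ρ| = w at *
  have a1 : 1 + s ≤ L + (2 + 2 * s ^ 2) / L := by
    rw [← sub_le_iff_le_add', le_div_iff₀ hL]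
    nlinarith [sq_nonneg (1 + s - L), sq_nonneg (1 - s), sq_nonneg L]
  have a2 : w * (1 + s) ≤ w * (L + (2 + 2 * s ^ 2) / L) := mul_le_mul_of_nonneg_left a1 w0
  have a3 : w * L ≤ b * L := mul_le_mul_of_nonneg_right hb hL.le
  have a4 : w * ((2 + 2 * s ^ 2) / L) ≤ D * ((2 + 2 * s ^ 2) / L) :=
    mul_le_mul_of_nonneg_right hD (by positivity)
  have a5 : -w * (1 + s) ≤ (r - ρ) * (1 + s) := mul_le_mul_of_nonneg_right w1 (by linarith)
  have a6 : D / L * (2 + 2 * s ^ 2) = D * ((2 + 2 * s ^ 2) / L) := by ring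
  have a7 := mul_nonneg hρ hs
  rw [a6]
  nlinarith

end N24

open N24

theorem st_NMA (hDB : St_NDB) (hM0 : St_NM0) : St_NMA := by
  intro n M _ H B h Z C g ε f l _ hH hh hs hl hZ hL h1 h0
  have hI := mINV n M h hh
  have hρ : M.Form (M.ric h) := ((mHES n M).2.2.2.2.2.2.2.2.1 h hh).toForm
  have hR := hI.2.2.2.2.1 _ hρ.toTen
  have lim := hM0 n M H B h Z _ C g ε f l hH hh hs hl hZ hR hL
  set R : M.Fam (Mat n) := fun e z => (h e z)⁻¹ * M.ric h e z with hRd
  obtain ⟨i1, c1⟩ := tr_inv hZ hR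
  have key : ∀ e z, (M.qZ Z e z * (h e z)⁻¹ * M.ric h e z).trace.re =
      (1 - (Z e z).trace.re)⁻¹ * (Z e z * R e z).trace.re := fun e z => by
    rw [Mf.qZ, Matrix.smul_mul, Matrix.smul_mul, Matrix.trace_smul, smul_re, smul_eq_mul,
      Matrix.mul_assoc]
  let ρ : M.X → ℝ := fun x => (M.ev Z x * M.ev R x).trace.re
  have cρ : Continuous ρ := continuous_re.comp c1
  have ρ0 : ∀ x, 0 ≤ ρ x := fun x => by
    have a := AllOn.ch h0 x
    beta_reduce at a
    rw [key] at a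
    exact (mul_nonneg_iff_of_pos_left (inv_pos.2 (sub_pos.2 (AllOn.ch h1 x)))).1 a
  obtain ⟨D₁, hD₁⟩ := (isCompact_univ.image cρ).isBounded.exists_norm_le
  obtain ⟨D₂, hD₂, u1, u2⟩ := (mBD n M h hh).1 _ hρ
  obtain ⟨-, hfin, hop, -, hint, -, hmu⟩ := mMU n M H hH.toMet
  have hC : 0 ≤ C := zero_le_one.trans hs.one
  have D0 : 0 ≤ D₁ := by
    obtain ⟨x⟩ : Nonempty M.X := inferInstance
    exact (norm_nonneg _).trans (hD₁ _ ⟨x, mem_univ x, rfl⟩)
  have small : ∀ δ : ℝ, 0 < δ → ∃ a, M.mn (g a) ρ ≤ δ := fun δ hδ => by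
    set L := 3 * ((D₁ + D₂) * (2 + 2 * C)) / δ with hLd
    have hL0 : 0 < L := by positivity
    obtain ⟨a, a1, a2⟩ := (((hs.r0 (δ / 3) (by positivity)).filter_mono hl).and
      (lim.eventually (eventually_le_nhds (show 0 < δ / 3 / L by positivity)))).exists
    refine ⟨a, ?_⟩
    have gm := (hs.kae a).toMet
    have hε := (hs.eps a).1
    have zE := ((hDB n M H h hH.toMet hh).1 _ _ gm hε).1
    have cb : Continuous fun x =>
        ‖((M.ev (M.zE (g a) h (ε a)) x - M.ev Z x) * M.ev R x).trace‖ := by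
      simp only [Matrix.sub_mul, Matrix.trace_sub]
      exact ((tr_inv zE hR).2.sub c1).norm
    have gI := (mINV n M _ gm).1
    have pt : ∀ x, ρ x ≤ ε a * M.tr (g a) (M.ric h) x +
        L * ‖((M.ev (M.zE (g a) h (ε a)) x - M.ev Z x) * M.ev R x).trace‖ +
        (D₁ + D₂) / L * (2 + 2 * (ε a * M.tr (g a) h x) ^ 2) := fun x => by
      have s0 : 0 ≤ ε a * M.tr (g a) h x := mul_nonneg hε.le (gm.tr_nonneg hh.nonneg x)
      have e1 : (M.ev (M.zE (g a) h (ε a)) x * M.ev R x).trace.re =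
          (1 + ε a * M.tr (g a) h x)⁻¹ * (ε a * M.tr (g a) (M.ric h) x) := by
        have : M.ev (M.zE (g a) h (ε a)) x * M.ev R x = (1 + ε a * M.tr (g a) h x)⁻¹ •
            ε a • ((M.ev (g a) x)⁻¹ * M.ev (M.ric h) x) := by
          simp only [Mf.ev, Mf.zE, Mf.qE, hRd, ch_symm, Matrix.smul_mul, Matrix.mul_assoc]
          rw [Matrix.mul_nonsing_inv_cancel_left _ _ (AllOn.ch hh.det_ne x).isUnit]
        rw [this, Matrix.trace_smul, Matrix.trace_smul, smul_re, smul_re]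
        rfl
      have t1 := gm.tr_mono u1 x
      have t2 := gm.tr_mono u2 x
      rw [tr_neg, tr_smul] at t2
      rw [tr_smul] at t1
      have t3 : |(1 + ε a * M.tr (g a) h x)⁻¹ * (ε a * M.tr (g a) (M.ric h) x)| ≤ D₂ := by
        rw [abs_mul, abs_of_pos (by positivity), inv_mul_le_iff₀ (by positivity), abs_mul,
          abs_of_pos hε]
        have := mul_le_mul_of_nonneg_left (abs_le.2 ⟨t2, t1⟩) hε.le
        nlinarith
      have t4 : |ρ x| ≤ D₁ := hD₁ _ ⟨x, mem_univ x, rfl⟩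
      have := pt_le (r := (1 + ε a * M.tr (g a) h x)⁻¹ * (ε a * M.tr (g a) (M.ric h) x))
        (b := ‖((M.ev (M.zE (g a) h (ε a)) x - M.ev Z x) * M.ev R x).trace‖) (D := D₁ + D₂)
        (ρ0 x) s0 hL0 (by
          refine le_trans (le_of_eq ?_) (abs_re_le_norm _)
          rw [Matrix.sub_mul, Matrix.trace_sub, sub_re, e1])
        ((abs_sub _ _).trans (by linarith))
      rwa [mul_inv_cancel_left₀ (by positivity)] at this
    have m := mn_le (f₁ := fun x => ε a * M.tr (g a) (M.ric h) x)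
      (f₃ := fun x => (ε a * M.tr (g a) h x) ^ 2) gm cρ (continuous_const.mul (gI _ hρ.toTen).2.1.continuous) cb
      ((continuous_const.mul (gI _ hh.toTen).2.1.continuous).pow 2) pt
    have m2 : (D₁ + D₂) / L * (2 + 2 * M.mn (g a) fun x => (ε a * M.tr (g a) h x) ^ 2) ≤
        (D₁ + D₂) / L * (2 + 2 * C) :=
      mul_le_mul_of_nonneg_left (by linarith [hs.s2 a]) (by positivity)
    have m3 : (D₁ + D₂) / L * (2 + 2 * C) = δ / 3 := by
      rw [hLd]; field_simp
    have m4 := mul_le_mul_of_nonneg_left a2 hL0.le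
    rw [mul_div_cancel₀ _ hL0.ne'] at m4
    linarith
  have hz := zero_of_small (M.mu H) (m := fun j x => M.dn H (g j) x) cρ ρ0
    (fun j x => div_pos (((mINV n M H hH.toMet).2.2.2.2.2.2.2 _ (hs.kae j).toMet).1 x)
      (mMU n M _ (hs.kae j).toMet).2.2.2.1)
    (fun j => hint ℝ _ ((((mINV n M H hH.toMet).1 _
      (hs.kae j).toTen).2.2.2.1.continuous.div_const _).mul cρ)) hs.low
    fun δ hδ => by
      obtain ⟨a, ha⟩ := small δ hδ
      refine ⟨a, le_trans (le_of_eq ?_) ha⟩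
      rw [mn, (hmu _ (hs.kae a).toMet).2.1, ← integral_div]
      simp only [Mf.dn, div_mul_eq_mul_div]
  intro e he z hz'
  have a : (M.ev Z (e.symm z) * M.ev R (e.symm z)).trace = (Z e z * R e z).trace :=
    i1.rep e he z hz'
  rw [key, ← a]
  exact mul_eq_zero_of_right _ (hz _)

end Pool.Agent.Lib.HN
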