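import Pool.Agent.Lib.HN.Blue
import Pool.Agent.Lib.HQ.B_QGR

/-! Project hn81: the splitting of the density of energy. -/

open scoped Topology ContDiff ComplexOrder Matrix
open Set MeasureTheory Filter

noncomputable section

namespace Pool.Agent.Lib.HN

open Pool.Agent.Lib.SV (E)
open Pool.Agent.Lib.HS32 Pool.Agent.Lib.HW68 Pool.Agent.Lib.HS76

namespace N68

variable {n : ℕ} {G T : E n → Mat n} {z : E n}

theorem sy_th (h : HS68.Loc T z) (k l : Fin n) :
    sy (fun j => th T j l z) k = (2 : ℂ) • ths T k l z := by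
  ext i j
  have e : (fun w => gs T k w i j) = fun w => (1 / 2 : ℂ) * (gam T k w i j + gam T j w i k) := by
    funext w
    simp only [gs, tm, Matrix.sub_apply, Matrix.smul_apply, Matrix.of_apply, Complex.real_smul]
    push_cast
    ring
  have d1 := (h.smM_gam k).diff i j
  have d2 := (h.smM_gam j).diff i k
  simp only [sy_apply, th, ths, dMb, Matrix.neg_apply, Matrix.smul_apply, Matrix.of_apply,
    smul_eq_mul]
  rw [e, dzb_const_mul _ (d1.fun_add d2), dzb_add d1 d2]
  ring

theorem n12_th (h : HS68.Loc T z) (K : Mat n) :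
    (n12 K fun k l => T z * th T k l z).re = -2 * wx T K K z := by
  have e : (n12 K fun k l => T z * th T k l z) =
      2 * ∑ k, ∑ l, K k l * (K * T z * ths T k l z).trace := by
    simp only [n12, sy_mul, sy_th h, Matrix.mul_smul, Matrix.trace_smul, smul_eq_mul,
      Finset.mul_sum, Matrix.mul_assoc]
    exact Finset.sum_congr rfl fun k _ => Finset.sum_congr rfl fun l _ => by ring
  rw [e, wx, kx]
  simp only [Complex.mul_re, Complex.re_ofNat, Complex.im_ofNat, zero_mul, sub_zero]
  ring

theorem nf_eq (h : HS68.Loc T z) (k l : Fin n) :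
    nf G T k l z = (df G T l z)ᴴ * T z * df G T k z - T z * th T k l z := by
  rw [nf, bb, h.mul_th, h.dMb_eq, h.dM_eq, df, df]
  simp only [Matrix.conjTranspose_sub, Matrix.mul_sub, Matrix.sub_mul, Matrix.mul_assoc]
  abel

theorem sy_df (hK : HS68.Kl G z) : (sy fun k => df G T k z) = fun k => (2 : ℂ) • dsy G T k z := by
  ext k i j
  simp only [sy_apply, df, dsy, gs, tm, Matrix.sub_apply, Matrix.smul_apply, Matrix.of_apply,
    Complex.real_smul, smul_eq_mul, HS68.Loc.gam_symm hK i k j]
  push_cast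
  ring

theorem n12_nf (hK : HS68.Kl G z) (h : HS68.Loc T z) :
    (n12 (G z)⁻¹ fun k l => nf G T k l z).re =
      2 * (es G T z + wx T (G z)⁻¹ (G z)⁻¹ z) := by
  have e := HQ.Q68.n12_ip (G z)⁻¹ (T z) fun k => df G T k z
  have e2 : ip3 (G z)⁻¹ (G z)⁻¹ (T z) (fun k => (2 : ℂ) • dsy G T k z)
      (fun k => (2 : ℂ) • dsy G T k z) = 2 * (2 * ip3 (G z)⁻¹ (G z)⁻¹ (T z)
        (fun k => dsy G T k z) fun k => dsy G T k z) := by
    simp only [ip3, Matrix.conjTranspose_smul, Matrix.mul_smul, Matrix.smul_mul, Matrix.trace_smul,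
      smul_eq_mul, star_ofNat, Finset.mul_sum]
    exact Finset.sum_congr rfl fun k _ => Finset.sum_congr rfl fun l _ => by ring
  rw [sy_df hK, e2] at e
  simp only [nf_eq h]
  rw [n12_sub, Complex.sub_re, n12_th h, ← mul_left_cancel₀ two_ne_zero e, es]
  simp only [Complex.mul_re, Complex.re_ofNat, Complex.im_ofNat, zero_mul, sub_zero]
  ring

end N68

theorem st_NYE : St_NYE := by
  intro n M _ h hh
  refine ⟨fun G hG => ?_, fun hs => ?_⟩
  · obtain ⟨q1, q2, -⟩ := HQ.st_QID n M G h hG hh.toForm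
    refine ⟨q1, fun e he z hz => ⟨(q2 e he z hz).trans
      (N68.n12_nf (HS68.clo_kl hG.toClo he hz) (HS68.met_loc hh he hz)), ?_⟩⟩
    have p := (hG.pos e he z hz).inv.posSemidef
    exact ip3_nonneg p p (hh.pos e he z hz).posSemidef _
  · have d : Dsc M h 0 := dsc_of_met hh fun e he z hz v => by simpa using hs e he z hz v
    refine ⟨d, fun e he z hz ξ hξ => ?_, fun G hG x => ?_⟩
    · have a := roy (fun k l => h e z * th (h e) k l z) hξ (hs e he z hz)
      rw [N68.n12_th (HS68.met_loc hh he hz)] at a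
      linarith
    · simpa using (HQ.st_QID n M G h hG hh.toForm).2.2.2 0 (fun _ => le_rfl) d x

end Pool.Agent.Lib.HN
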