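import Pool.Agent.Lib.HN.Defs

/-! Project hn81: blueprint of the limit half. -/

open scoped Classical Topology ContDiff ComplexOrder Matrix ENNReal
open Set MeasureTheory Complex Metric Filter

noncomputable section

namespace Pool.Agent.Lib.HN

open Pool.Agent.Lib.SV (E)
open Pool.Agent.Lib.HS32 Pool.Agent.Lib.GH Pool.Agent.Lib.RB Pool.Agent.Lib.TB

/-! ### The sequence -/

/-- The splitting of the density of energy. -/
def St_NYE : Prop := ∀ (n : ℕ) (M : Mf n) [M.Cpt] (h : M.Fam (Mat n)), M.Met h →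
  (∀ G, M.Kae G → M.Sm (M.y0 G h) ∧ M.All fun e z =>
    M.y0 G h (e.symm z) = 2 * (es (G e) (h e) z + wx (h e) (G e z)⁻¹ (G e z)⁻¹ z) ∧
      0 ≤ es (G e) (h e) z) ∧
  (M.Hsc h → HW68.Dsc M h 0 ∧ (M.All fun e z => ∀ ξ : Mat n, ξ.PosSemidef → 0 ≤ wx (h e) ξ ξ z) ∧
    ∀ G, M.Kae G → ∀ x, 0 ≤ M.y0 G h x)

/-- The twisted class. -/
def St_NVB : Prop := ∀ (n : ℕ) (M : Mf n) [M.Cpt] (H h B : M.Fam (Mat n)), M.Kae H → M.Met h →
  M.Clo B → M.Le 0 B → M.NefB H 0 →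
  M.NefB H B ∧ M.vB H B 0 = ∫ x, M.dq H (B - M.ric h) x ∂M.mu H

/-- The sequence. -/
def St_NSQ : Prop := ∀ (n : ℕ) (M : Mf n) [M.Cpt] (H B h : M.Fam (Mat n)), 0 < n → M.Kae H →
  M.Clo B → M.Le 0 B → M.NefB H B → M.Met h → M.Hsc h → M.vB H B 0 ≤ 0 →
  ∃ C g ε f, M.Hq H B h C g ε f

/-! ### The smooth limit -/

/-- Bounds for the normalized fields and for the defect in their equations. -/
def St_NDB : Prop := ∀ (n : ℕ) (M : Mf n) [M.Cpt] (H h : M.Fam (Mat n)), M.Met H → M.Met h →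
  (∀ G (ε : ℝ), M.Met G → 0 < ε → M.End (M.zE G h ε) ∧ M.All fun e z =>
    (h e z * M.zE G h ε e z).PosSemidef ∧
    (M.zE G h ε e z).trace = ((1 - (1 + ε * M.tr G h (e.symm z))⁻¹ : ℝ) : ℂ)) ∧
  ∀ e ∈ M.C, ∀ K : Set (E n), IsCompact K → K ⊆ e.target → ∃ C : ℝ, 0 < C ∧
    ∀ G (ε : ℝ), M.Kae G → 0 < ε → ∀ z ∈ K, ∀ i j, ‖M.zE G h ε e z i j‖ ≤ C ∧ ∀ l,
      ‖(dM l (M.zE G h ε e) z - zr (h e) l z (M.zE G h ε e z)) i j‖ ^ 2 ≤
        C * (M.tr H G (e.symm z) * (ε * es (G e) (h e) z)) ∧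
      ‖(dMb l (M.zE G h ε e) z - zb (h e) l z (M.zE G h ε e z)) i j‖ ^ 2 ≤
        C * (M.tr H G (e.symm z) * (ε * es (G e) (h e) z))

/-- Bounded approximate solutions of a smooth first order system converge to a solution. -/
def St_NLI : Prop := ∀ (n : ℕ) (V : Type) [NormedAddCommGroup V] [NormedSpace ℝ V]
  [FiniteDimensional ℝ V] (l : Ultrafilter ℕ) (u : ℕ → E n → V) (Φ : E n × V → E n →L[ℝ] V)
  (c : E n) (ρ C : ℝ), (∀ i, ∀ z ∈ ball c ρ, ContDiffAt ℝ 1 (u i) z ∧ ‖u i z‖ ≤ C) →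
  (∀ z ∈ ball c ρ, ∀ x, ContDiffAt ℝ ∞ Φ (z, x)) →
  Tendsto (fun i => ∫⁻ z in ball c ρ, ‖fderiv ℝ (u i) z - Φ (z, u i z)‖ₑ) l (𝓝 0) →
  ∃ P : E n → V, (∀ z ∈ ball c ρ, ContDiffAt ℝ ∞ P z ∧ HasFDerivAt P (Φ (z, P z)) z) ∧
    ∀ K : Set (E n), IsCompact K → K ⊆ ball c ρ →
      Tendsto (fun i => ∫⁻ z in K, ‖u i z - P z‖ₑ) l (𝓝 0)

/-- The same for matrices and Wirtinger derivatives. -/
def St_NLM : Prop := ∀ (n : ℕ) (l : Ultrafilter ℕ) (u : ℕ → E n → Mat n) (h : E n → Mat n)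
  (c : E n) (ρ C : ℝ), (∀ i, ∀ z ∈ ball c ρ, SmM (u i) z ∧ ∀ p q, ‖u i z p q‖ ≤ C) →
  (∀ z ∈ ball c ρ, SmM h z ∧ (h z).PosDef) →
  (∀ k p q, Tendsto (fun i => ∫⁻ z in ball c ρ,
    ‖(dM k (u i) z - zr h k z (u i z)) p q‖ₑ) l (𝓝 0)) →
  (∀ k p q, Tendsto (fun i => ∫⁻ z in ball c ρ,
    ‖(dMb k (u i) z - zb h k z (u i z)) p q‖ₑ) l (𝓝 0)) →
  ∃ P : E n → Mat n, (∀ z ∈ ball c ρ, SmM P z ∧ Zde h P z) ∧
    ∀ K : Set (E n), IsCompact K → K ⊆ ball c ρ → ∀ p q,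
      Tendsto (fun i => ∫⁻ z in K, ‖(u i z - P z) p q‖ₑ) l (𝓝 0)

/-- The local limit. -/
def St_NLO : Prop := ∀ (n : ℕ) (M : Mf n) [M.Cpt] (H B h : M.Fam (Mat n)) (C : ℝ)
  (g : ℕ → M.Fam (Mat n)) (ε : ℕ → ℝ) (f : ℕ → M.X → ℝ) (l : Ultrafilter ℕ), M.Kae H →
  M.Met h → M.Hsc h → M.Hq H B h C g ε f → (l : Filter ℕ) ≤ atTop → ∀ e ∈ M.C,
  ∀ (c : E n) (ρ : ℝ), closedBall c ρ ⊆ e.target →
  ∃ P : E n → Mat n, (∀ z ∈ ball c ρ, SmM P z ∧ Zde (h e) P z) ∧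
    ∀ K : Set (E n), IsCompact K → K ⊆ ball c ρ → ∀ i j,
      Tendsto (fun a => ∫ z in K, ‖(M.zE (g a) h (ε a) e z - P z) i j‖) l (𝓝 0)

/-- Gluing of smooth local limits. -/
def St_NGL : Prop := ∀ (n : ℕ) (M : Mf n) [M.Cpt] (h : M.Fam (Mat n)) (l : Filter ℕ)
  [l.NeBot] (A : ℕ → M.Fam (Mat n)), M.Met h →
  (∀ a, M.End (A a) ∧ M.All fun e z => (h e z * A a e z).IsHermitian) →
  (∀ e ∈ M.C, ∀ (c : E n) (ρ : ℝ), closedBall c ρ ⊆ e.target →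
    ∃ P : E n → Mat n, (∀ z ∈ ball c ρ, SmM P z ∧ Zde (h e) P z) ∧
      ∀ K : Set (E n), IsCompact K → K ⊆ ball c ρ → ∀ i j,
        Tendsto (fun a => ∫ z in K, ‖(A a e z - P z) i j‖) l (𝓝 0)) →
  ∃ Z, M.End Z ∧ (M.All fun e z => (h e z * Z e z).IsHermitian ∧ Zde (h e) (Z e) z) ∧
    M.L1c h l A Z

/-- The closed conditions hold for the limit. -/
def St_NCL : Prop := ∀ (n : ℕ) (M : Mf n) [M.Cpt] (H B h Z : M.Fam (Mat n)) (C : ℝ)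
  (g : ℕ → M.Fam (Mat n)) (ε : ℕ → ℝ) (f : ℕ → M.X → ℝ) (l : Filter ℕ) [l.NeBot], M.Kae H →
  M.Met h → M.Hsc h → M.Form B → M.Le 0 B → M.Hq H B h C g ε f → l ≤ atTop → M.End Z →
  (M.All fun e z => (h e z * Z e z).IsHermitian) → M.L1c h l (fun a => M.zE (g a) h (ε a)) Z →
  M.All fun e z => Zcl (h e) (Z e z) z ∧ B e z * Z e z = 0

/-- Convergence of mean values. -/
def St_NM0 : Prop := ∀ (n : ℕ) (M : Mf n) [M.Cpt] (H B h Z R : M.Fam (Mat n)) (C : ℝ)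
  (g : ℕ → M.Fam (Mat n)) (ε : ℕ → ℝ) (f : ℕ → M.X → ℝ) (l : Filter ℕ), M.Kae H → M.Met h →
  M.Hq H B h C g ε f → l ≤ atTop → M.End Z → M.End R →
  M.L1c h l (fun a => M.zE (g a) h (ε a)) Z →
  Tendsto (fun a => M.mn (g a) fun x =>
    ‖((M.ev (M.zE (g a) h (ε a)) x - M.ev Z x) * M.ev R x).trace‖) l (𝓝 0)

/-- The limit is neither zero nor infinite. -/
def St_NM1 : Prop := ∀ (n : ℕ) (M : Mf n) [M.Cpt] (H B h Z : M.Fam (Mat n)) (C : ℝ)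
  (g : ℕ → M.Fam (Mat n)) (ε : ℕ → ℝ) (f : ℕ → M.X → ℝ) (l : Filter ℕ) [l.NeBot], M.Kae H →
  M.Met h → M.Hq H B h C g ε f → l ≤ atTop → M.End Z →
  M.L1c h l (fun a => M.zE (g a) h (ε a)) Z →
  (∃ x, (M.ev Z x).trace.re < 1) ∧ ∃ x, M.ev Z x ≠ 0

/-- The trace of the normalized limit is less than one everywhere. -/
def St_NTA : Prop := ∀ (n : ℕ) (M : Mf n) [M.Cpt] (h Z : M.Fam (Mat n)), M.Met h → M.End Z →
  (M.All fun e z => Zde (h e) (Z e) z ∧ Zcl (h e) (Z e z) z) → (∃ x, (M.ev Z x).trace.re < 1) →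
  M.End (M.qZ Z) ∧ M.All fun e z => (Z e z).trace.re < 1 ∧ Pde (h e) (M.qZ Z e) z

/-! ### The curvature and the torsion vanish on the image of the limit -/

/-- The algebraic lemma. -/
def St_NAL : Prop := ∀ (n : ℕ) (h ξ : Mat n) (T : Fin n → Fin n → Mat n), h.PosDef →
  ξ.PosSemidef → (∀ k l i j, T k l i j = T j l i k) →
  (∀ v : E n, (∑ k, ∑ l, v k * star (v l) * (star v ⬝ᵥ (h * T k l) *ᵥ v)).re ≤ 0) →
  (∀ k l, T k l * ξ = ξ * (T l k)ᴴ) → 0 ≤ (∑ k, ∑ l, ξ k l * (ξ * h * T k l).trace).re →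
  0 ≤ (∑ k, ∑ l, ξ k l * (h⁻¹ * h * T k l).trace).re +
    (∑ k, ∑ l, h⁻¹ k l * (ξ * h * T k l).trace).re →
  ∀ k l, T k l * ξ = 0

/-- The limit is killed by the curvature of the symmetric part of the connection. -/
def St_NXD : Prop := ∀ (n : ℕ) (M : Mf n) (h Z : M.Fam (Mat n)), M.Met h → M.Hsc h →
  M.End (M.qZ Z) → (M.All fun e z =>
    Zcl (h e) (Z e z) z ∧ (Z e z).trace.re < 1 ∧ Pde (h e) (M.qZ Z e) z) →
  M.All fun e z => (h e z * M.qZ Z e z).PosSemidef ∧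
    Xde (h e) (fun w => M.qZ Z e w * (h e w)⁻¹) z

/-- The Hessian of the trace is parallel along the image. -/
def St_NK1 : Prop := ∀ (n : ℕ) (h ξ : E n → Mat n) (z : E n), (∀ᶠ w in 𝓝 z, Xde h ξ w) →
  (∀ j, dz j (fun w => (ξ w * h w).trace) z = (ξ z * nb h h j z).trace ∧
    nb h h j z = (1 / 2 : ℝ) • (h z * tm h j z)) ∧
  ∀ l, ∑ k, ξ z k l • nb h (eta h ξ) k z = 0

/-- The Laplacian of the metric along the image is the Hessian of the trace. -/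
def St_NK2 : Prop := ∀ (n : ℕ) (h ξ : E n → Mat n) (z : E n), (∀ᶠ w in 𝓝 z, Xde h ξ w) →
  ∑ k, ∑ l, ξ z k l • nn h h k l z = eta h ξ z

/-- The Laplacian of the logarithm of the determinant. -/
def St_NKJ : Prop := ∀ (n : ℕ) (h ξ : E n → Mat n) (z : E n) (C : ℝ),
  (∀ᶠ w in 𝓝 z, Xde h ξ w ∧ (eta h ξ w + C • h w).PosDef) →
  (ξ z * hess (ld fun w => eta h ξ w + C • h w) z).trace.re ≤
    C * (n - C * ((eta h ξ z + C • h z)⁻¹ * h z).trace.re)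

/-- The trace is constant. -/
def St_NMX : Prop := ∀ (n : ℕ) (M : Mf n) [M.Cpt] (H h Q : M.Fam (Mat n)), M.Kae H → M.Met h →
  M.End Q → (M.All fun e z => Xde (h e) (fun w => Q e w * (h e w)⁻¹) z) →
  M.All fun e z => ∀ k, (tm (h e) k z * Q e z).trace = 0

/-- The closed conditions of tb33. -/
def St_NCS : Prop := ∀ (n : ℕ) (h Q : E n → Mat n) (z : E n), SmM h z → SmM Q z →
  (∀ᶠ w in 𝓝 z, (h w).PosDef ∧ Pde h Q w ∧ ∀ k, (tm h k w * Q w).trace = 0) →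
  (h z * Q z).PosSemidef → (∀ k l, ths h k l z * (Q z * (h z)⁻¹) = 0) → Cls h (Q z) z

/-- The trace of the Ricci form vanishes. -/
def St_NMA : Prop := ∀ (n : ℕ) (M : Mf n) [M.Cpt] (H B h Z : M.Fam (Mat n)) (C : ℝ)
  (g : ℕ → M.Fam (Mat n)) (ε : ℕ → ℝ) (f : ℕ → M.X → ℝ) (l : Filter ℕ) [l.NeBot], M.Kae H →
  M.Met h → M.Hq H B h C g ε f → l ≤ atTop → M.End Z →
  M.L1c h l (fun a => M.zE (g a) h (ε a)) Z → (M.All fun e z => (Z e z).trace.re < 1) →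
  (M.All fun e z => 0 ≤ (M.qZ Z e z * (h e z)⁻¹ * M.ric h e z).trace.re) →
  M.All fun e z => (M.qZ Z e z * (h e z)⁻¹ * M.ric h e z).trace.re = 0

/-- The maximal rank. -/
def St_NRK : Prop := ∀ (n : ℕ) (M : Mf n) [M.Cpt] (h : M.Fam (Mat n))
  (p : M.Fam (Mat n) → Prop), M.Met h →
  (∀ P k, M.Fl1 h P k → ¬ p P → ∃ P' k', M.Fl1 h P' k' ∧ (∃ x, M.ev P' x ≠ 0) ∧
    M.All fun e z => h e z * P e z * P' e z = 0) →
  ∃ P k, M.Fl1 h P k ∧ p P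

/-- The new flat field. -/
theorem lim_of (hSQ : St_NSQ) (hDB : St_NDB) (hLO : St_NLO) (hGL : St_NGL) (hCL : St_NCL)
    (hM1 : St_NM1) (hTA : St_NTA) (hXD : St_NXD) (hMX : St_NMX) (hCS : St_NCS) (hMA : St_NMA)
    (hKE : St_TKE) (hPA : St_RPA) (hPJ : St_RPJ) (hFL : St_TFL) (hT1 : St_GT1)
    {n : ℕ} (M : Mf n) [M.Cpt] {H B h : M.Fam (Mat n)} (hn : 0 < n) (hH : M.Kae H)
    (hB : M.Clo B) (hB0 : M.Le 0 B) (hN : M.NefB H B) (hh : M.Met h) (hc : M.Hsc h)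
    (hv : M.vB H B 0 ≤ 0) :
    ∃ P k, M.Fl1 h P k ∧ (∃ x, M.ev P x ≠ 0) ∧ M.All fun e z => B e z * P e z = 0 := by
  obtain ⟨C, g, ε, f, hs⟩ := hSQ n M H B h hn hH hB hB0 hN hh hc hv
  have hl : (hyperfilter ℕ : Filter ℕ) ≤ atTop := Nat.hyperfilter_le_atTop
  obtain ⟨Z, hE, hD, hL⟩ := hGL n M h (hyperfilter ℕ) (fun a => M.zE (g a) h (ε a)) hh
    (fun j =>
      let a := (hDB n M H h hH.toMet hh).1 _ _ (hs.kae j).toMet (hs.eps j).1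
      ⟨a.1, fun e he z hz => (a.2 e he z hz).1.1⟩)
    (hLO n M H B h C g ε f (hyperfilter ℕ) hH hh hc hs hl)
  have z0 := hCL n M H B h Z C g ε f _ hH hh hc hB.toForm hB0 hs hl hE
    (fun e he z hz => (hD e he z hz).1) hL
  obtain ⟨z1, x₀, z2⟩ := hM1 n M H B h Z C g ε f _ hH hh hs hl hE hL
  obtain ⟨hQE, z3⟩ := hTA n M h Z hh hE
    (fun e he z hz => ⟨(hD e he z hz).2, (z0 e he z hz).1⟩) z1
  have z4 := hXD n M h Z hh hc hQE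
    fun e he z hz => ⟨(z0 e he z hz).1, (z3 e he z hz).1, (z3 e he z hz).2⟩
  have z5 := hMX n M H h _ hH hh hQE fun e he z hz => (z4 e he z hz).2
  have q0 : M.All fun e z => Cls (h e) (M.qZ Z e z) z := fun e he z hz =>
    hCS n (h e) (M.qZ Z e) z (hh.sm e he z hz) (hQE.sm e he z hz)
      ((e.open_target.eventually_mem hz).mono fun w hw =>
        ⟨hh.pos e he w hw, (z3 e he w hw).2, z5 e he w hw⟩)
      (z4 e he z hz).1 (z4 e he z hz).2.kil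
  have q1 := hKE n M h _ hh hc hQE (fun e he z hz => (z3 e he z hz).2) q0
  have q2 := hMA n M H B h Z C g ε f _ hH hh hs hl hE hL (fun e he z hz => (z3 e he z hz).1)
    fun e he z hz => (q1 e he z hz).2.1
  have q3 := fun e he z hz => (q1 e he z hz).2.2 (q2 e he z hz)
  have hQ : M.HolSA h (M.qZ Z) :=
    ⟨hQE, fun e he z hz => (q3 e he z hz).1, fun e he z hz => (q0 e he z hz).psd.1⟩
  obtain ⟨P, k', a, b, hP⟩ := hPJ n M h _ hh hQ (fun e he z hz => (q0 e he z hz).psd)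
    (hPA n M h _ hh hQ).2.2
  obtain ⟨p1, p2, -⟩ := hPA n M h P hh hP.toHolSA
  have t2 : M.All fun e z => ∀ a b, tors (h e) z (P e z *ᵥ a) b = 0 := fun e he z hz x y => by
    obtain ⟨-, -, R, hR⟩ := hP.pq e he z hz
    rw [hR, ← Matrix.mulVec_mulVec]
    exact (q3 e he z hz).2 _ _
  have p5 : M.All fun e z => ∀ a b, th (h e) a b z * P e z = 0 := fun e he z hz => by
    have hp := hh.pos e he z hz
    refine hFL n (h e) (P e) z (M.qZ Z e z * (h e z)⁻¹) a (hh.sm e he z hz) (hP.en.sm e he z hz)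
      ((e.open_target.eventually_mem hz).mono fun w hw => ⟨hh.pos e he w hw, t2 e he w hw⟩)
      (hP.hol e he z hz) (hP.herm e he z hz) (hP.idem e he z hz) (p2 e he z hz) (hc e he z hz)
      hP.a0 ?_ ?_ (q1 e he z hz).1
    · have := (hP.lo e he z hz).conjTranspose_mul_mul_same (h e z)⁻¹
      rwa [hp.inv.1.eq, Matrix.mul_sub, Matrix.mul_smul,
        Matrix.nonsing_inv_mul_cancel_left _ _ hp.det_pos.ne'.isUnit,
        Matrix.nonsing_inv_mul_cancel_left _ _ hp.det_pos.ne'.isUnit, Matrix.sub_mul,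
        Matrix.smul_mul] at this
    · rw [← Matrix.mul_assoc, (hP.pq e he z hz).1]
  have f0 : M.Fl0 h P k' := ⟨hP.toHolSA, hP.le, p1, hP.idem, hP.det, p5, fun e he z hz a b =>
    (p2 e he z hz a b).symm.trans (p5 e he z hz a b)⟩
  refine ⟨P, k', ⟨f0, hT1 n M H h P k' hH hh f0, t2⟩, ⟨x₀, fun h0 => z2 ?_⟩, fun e he z hz => ?_⟩
  · have hx : M.ch x₀ ∈ M.C ∧ x₀ ∈ (M.ch x₀).source := (M.cov x₀).choose_spec
    have ht := (M.ch x₀).map_source hx.2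
    have a1 := (hP.pq _ hx.1 _ ht).1
    have a2 := (z3 _ hx.1 _ ht).1
    rw [show P (M.ch x₀) (M.ch x₀ x₀) = 0 from h0, Matrix.zero_mul] at a1
    exact (smul_eq_zero.1 a1.symm).resolve_left (inv_ne_zero (sub_pos.2 a2).ne')
  · obtain ⟨-, -, R, hR⟩ := hP.pq e he z hz
    rw [hR, Mf.qZ, Matrix.smul_mul, Matrix.mul_smul, ← Matrix.mul_assoc, (z0 e he z hz).2,
      Matrix.zero_mul, smul_zero]

/-- The flat field and the positive volume. -/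
theorem fl1_of (hVB : St_NVB) (hRK : St_NRK) (hPRD : St_GPRD) {n : ℕ} (M : Mf n) [M.Cpt]
    {H h : M.Fam (Mat n)} (hH : M.Kae H) (hN : M.NefB H 0) (hh : M.Met h)
    (hL : ∀ B, M.Clo B → M.Le 0 B → M.NefB H B → M.vB H B 0 ≤ 0 →
      ∃ P k, M.Fl1 h P k ∧ (∃ x, M.ev P x ≠ 0) ∧ M.All fun e z => B e z * P e z = 0) :
    ∃ P k, M.Fl1 h P k ∧ 0 < ∫ x, M.dq H (h * P - M.ric h) x ∂M.mu H := by
  refine hRK n M h (fun P => 0 < ∫ x, M.dq H (h * P - M.ric h) x ∂M.mu H) hh fun P k hP hv => ?_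
  obtain ⟨-, a2, a3, -⟩ := hPRD n M h P k hh hP
  obtain ⟨b1, b2⟩ := hVB n M H h _ hH hh a2 a3 hN
  exact hL _ a2 a3 b1 (b2.trans_le (not_lt.1 hv))

end Pool.Agent.Lib.HN
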