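import Pool.Agent.Lib.TB.Blue
import Pool.Agent.Lib.HQ.Blue

/-! Project hn81: the objects. -/

open scoped Classical Topology ContDiff ComplexOrder Matrix
open Set MeasureTheory Complex Metric Filter

set_option linter.unusedVariables false

noncomputable section

namespace Pool.Agent.Lib.HS32

open Pool.Agent.Lib.SV (E)

section euc

variable {n : ℕ}

/-- The curvature of the symmetric part of the connection, contracted with `ξ` and `η`. -/
def kx (h : E n → Mat n) (ξ η : Mat n) (z : E n) : ℝ :=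
  (∑ k, ∑ l, ξ k l * (η * h z * ths h k l z).trace).re

/-- Minus the symmetrised curvature, as a bilinear form. -/
def wx (h : E n → Mat n) (ξ η : Mat n) (z : E n) : ℝ := -(kx h ξ η z + kx h η ξ z) / 2

/-- The adjoints of the torsion matrices. -/
def tc (h : E n → Mat n) (l : Fin n) (z : E n) : Mat n := (h z)⁻¹ * (tm h l z)ᴴ * h z

/-- The right side of the equation for the `(1,0)` derivatives of the normalized field. -/
def zr (h : E n → Mat n) (k : Fin n) (z : E n) (A : Mat n) : Mat n :=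
  A * gam h k z - gs h k z * A - ((A * tm h k z).trace / 2) • A

/-- The right side of the equation for the `(0,1)` derivatives of the normalized field. -/
def zb (h : E n → Mat n) (l : Fin n) (z : E n) (A : Mat n) : Mat n :=
  (1 / 2 : ℝ) • (A * tc h l z) - ((A * tc h l z).trace / 2) • A

/-- The equations of the normalized field. -/
def Zde (h Z : E n → Mat n) (z : E n) : Prop :=
  (∀ k, dM k Z z = zr h k z (Z z)) ∧ ∀ l, dMb l Z z = zb h l z (Z z)

/-- The closed conditions for the normalized limit. -/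
structure Zcl (h : E n → Mat n) (Z : Mat n) (z : E n) : Prop where
  psd : (h z * Z).PosSemidef
  le : Z.trace.re ≤ 1
  w0 : wx h (Z * (h z)⁻¹) (Z * (h z)⁻¹) z ≤ 0
  w1 : wx h (Z * (h z)⁻¹) (h z)⁻¹ z ≤ 0

/-- A parallel non-negative field that is killed by the curvature. -/
structure Xde (h ξ : E n → Mat n) (z : E n) : Prop where
  sh : SmM h z
  sx : SmM ξ z
  pos : (h z).PosDef
  psd : (ξ z).PosSemidef
  d1 : ∀ k, dM k ξ z = -(gs h k z * ξ z)
  d2 : ∀ l, dMb l ξ z = -(ξ z * (gs h l z)ᴴ)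
  kil : ∀ k l, ths h k l z * ξ z = 0

/-- The covariant derivative of a form for the symmetric part of the connection. -/
def nb (h T : E n → Mat n) (k : Fin n) (z : E n) : Mat n := dM k T z - T z * gs h k z

/-- The mixed second covariant derivative. -/
def nn (h T : E n → Mat n) (k l : Fin n) (z : E n) : Mat n :=
  dMb l (nb h T k) z - (gs h l z)ᴴ * nb h T k z

/-- The complex Hessian of the trace. -/
def eta (h ξ : E n → Mat n) : E n → Mat n := hess fun w => (ξ w * h w).trace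

end euc

namespace Mf

variable {n : ℕ} (M : Mf n)

/-- The field `ε G⁻¹ h` divided by one plus its trace. -/
def zE (G h : M.Fam (Mat n)) (ε : ℝ) : M.Fam (Mat n) :=
  fun e z => (1 + ε * M.tr G h (e.symm z))⁻¹ • M.qE G h ε e z

/-- The field `Z` divided by one minus its trace. -/
def qZ (Z : M.Fam (Mat n)) : M.Fam (Mat n) := fun e z => (1 - (Z e z).trace.re)⁻¹ • Z e z

/-- The sequence of metrics of small energy, with cut-off functions. -/
structure Hq (H B h : M.Fam (Mat n)) (C : ℝ) (g : ℕ → M.Fam (Mat n)) (ε : ℕ → ℝ)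
    (f : ℕ → M.X → ℝ) : Prop where
  one : 1 ≤ C
  kae : ∀ i, M.Kae (g i)
  eps : ∀ i, ε i ∈ Ioc (0 : ℝ) 1
  e0 : Tendsto ε atTop (𝓝 0)
  trc : ∀ i, ∫ x, M.tr H (g i) x ∂M.mu H ≤ C
  up : Tendsto (fun i => ∫ x, max (M.dn H (g i) x - C) 0 ∂M.mu H) atTop (𝓝 0)
  low : Tg (M.mu H) fun i x => (M.dn H (g i) x)⁻¹
  s1 : ∀ i, 1 / C ≤ M.mn (g i) fun x => ε i * M.tr (g i) h x
  s2 : ∀ i, M.mn (g i) (fun x => (ε i * M.tr (g i) h x) ^ 2) ≤ C
  y0 : Tendsto (fun i => M.mn (g i) fun x => ε i * M.y0 (g i) h x) atTop (𝓝 0)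
  b0 : Tendsto (fun i => M.mn (g i) fun x => ε i * M.ip (g i) h B x) atTop (𝓝 0)
  r0 : ∀ δ : ℝ, 0 < δ → ∀ᶠ i in atTop, M.mn (g i) (fun x => ε i * M.tr (g i) (M.ric h) x) ≤ δ
  fs : ∀ i, M.Sm (f i)
  f01 : ∀ i x, 0 ≤ f i x ∧ f i x ≤ 1
  f1 : Tendsto (fun i => ∫ x, (1 - f i x) ∂M.mu H) atTop (𝓝 0)
  df : Tendsto (fun i => ∫ x, √(M.gr H (f i) (f i) x) ∂M.mu H) atTop (𝓝 0)
  fy : Tendsto (fun i => ∫ x, f i x * (ε i * M.y0 (g i) h x) ∂M.mu H) atTop (𝓝 0)

end Mf

end Pool.Agent.Lib.HS32
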