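import Pool.Agent.Lib.HN.All
import Pool.Agent.Lib.HN.Br
import Pool.Agent.Lib.TQ.All0
import Pool.Agent.Lib.TQ.B_CMP
import Pool.Agent.Lib.TQ.B_VZ

/-! Project hn81: the theorem. -/

open scoped Manifold ContDiff

namespace Pool.Agent.Lib.HN

open Pool.Agent.Lib.SV Pool.Agent.Lib.HS Pool.Agent.Lib.GH Pool.Agent.Lib.HW

theorem main (n : ℕ) (X : Type) [TopologicalSpace X] [ChartedSpace (E n) X]
    [IsManifold 𝓘(ℂ, E n) ω X] [CompactSpace X] [T2Space X] [ConnectedSpace X] (g h : X → Mat n)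
    (hg : Kaehler g) (hK : CanNef g) (hh : Hermitian h) (hc : ∀ x v, curvAt h x v v ≤ 0) :
    ∃ k ≤ n, FlatDirs h k ∧ KodGe n X (n - k) :=
  main_of (TQ.tail_cv (TQ.st_VZ asAUBIN (TQ.st_CMP TQ.st_MAX)))
    (fun M _ _ _ => fl1 M) n X g h hg hK hh hc

end Pool.Agent.Lib.HN
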