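import Pool.Agent.Lib.HW.SDefs

/-! Definitions used in the statement: directions in which the curvature tensor vanishes, lower
bound for the Kodaira dimension. -/

open scoped Matrix

noncomputable section

namespace Pool.Agent.Lib.HN

open Pool.Agent.Lib.SV Pool.Agent.Lib.HS Pool.Agent.Lib.GH

variable {n : ℕ} {X : Type} [TopologicalSpace X] [ChartedSpace (E n) X]

/-- At every point there is a subspace `F` of dimension `k` of the tangent space such that the
curvature `R(a, conj a, w, conj w)` of `h` depends only on the classes of `a` and `w` modulo `F`. -/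
def FlatDirs (h : X → Mat n) (k : ℕ) : Prop :=
  ∀ x, ∃ F : Submodule ℂ (E n), Module.finrank ℂ F = k ∧ ∀ v ∈ F, ∀ a w,
    curvAt h x (a + v) w = curvAt h x a w ∧ curvAt h x a (w + v) = curvAt h x a w

variable (n X) in
/-- The Kodaira dimension is at least `d`: for some `m > 0`, `c > 0` and all large `a` the
`m a`-th power of the canonical bundle has at least `c a ^ d` linearly independent holomorphic
sections. -/
def KodGe (d : ℕ) : Prop :=
  ∃ (m : ℕ) (c : ℝ), 0 < m ∧ 0 < c ∧ ∀ᶠ a : ℕ in Filter.atTop, ∃ (N : ℕ) (s : Fin N → X → ℂ),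
    c * a ^ d ≤ N ∧ LinearIndependent ℂ s ∧ ∀ i, s i ∈ Pluri n X (m * a)

end Pool.Agent.Lib.HN
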